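import Pool.Agent.V11291.JF.Stm

/-!
# General classes of primes: the statements

`A` is the class of the primes which give rows of the matrix, `B` the class of the other primes.
Adapted from `Pool.Agent.Y703.CQ.Stm` (helper703) and `Pool.Agent.Y687.JQ.Stm`.
-/

set_option autoImplicit false
set_option linter.unusedVariables false

open scoped Classical

namespace Pool.Agent.V11291.GQ

open Finset
open Pool.Agent.Y703.CX (sm la jj XX eL zz kk S_SIE)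
open Pool.Agent.Y703.CQ (nr sg c2 prs HB ext S_EQ)

/-- a function set to zero outside of the row primes -/
noncomputable def cu (A : ℕ → Prop) (x : ℕ → ZMod 2) (q : ℕ) : ZMod 2 := if A q then x q else 0

/-- the kernel of the matrix -/
def Sol (A : ℕ → Prop) (f : ℕ → ZMod 2) (S : Finset ℕ) (x : ℕ → ZMod 2) : Prop :=
  ∀ p ∈ S, A p → ∑ q ∈ S, nr p q * (cu A x q + x p) + f p * x p = 0

/-- the good sets: the matrix is nonsingular -/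
def Gd (A : ℕ → Prop) (f : ℕ → ZMod 2) (S : Finset ℕ) : Prop :=
  ∀ x, Sol A f S x → ∀ p ∈ S, A p → x p = 0

/-- the class of the sets of primes -/
def Cl (A B : ℕ → Prop) (S : Finset ℕ) : Prop := ∀ p ∈ S, A p ∨ B p

/-- the sets of the class with product at most `X` -/
noncomputable def SS (A B : ℕ → Prop) (X : ℕ) : Finset (Finset ℕ) :=
  (range (X + 1)).powerset.filter fun S => Cl A B S ∧ ∏ p ∈ S, p ≤ X

/-- the labels of the large row primes with respect to the small ones are not degenerate -/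
def Nd (A : ℕ → Prop) (S₀ S₁ : Finset ℕ) : Prop :=
  ∀ w : ℕ → ZMod 2, (∃ u ∈ S₀, A u ∧ w u ≠ 0) →
    ∃ p ∈ S₁, A p ∧ ∑ u ∈ S₀.filter (fun u => A u), w u * nr p u ≠ 0

/-- the regular sets -/
noncomputable def RR (A B : ℕ → Prop) (X z H k V : ℕ) : Finset (Finset ℕ) :=
  (SS A B X).filter fun S => Set.InjOn (jj H) (la z S : Set ℕ) ∧ S.card ≤ k ∧
    (∏ p ∈ sm z S, p) * ∏ p ∈ la z S, XX H (jj H p) ≤ X ∧
    2 * (sm z S).card + V < ((la z S).filter fun p => A p).card ∧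
    ∃ p ∈ la z S, ¬ A p

/-- the sets of row primes on which the product of the primes in `W` is a square -/
noncomputable def HD (A : ℕ → Prop) (W : Finset ℕ) (T : ℕ) : Finset (Finset ℕ) :=
  (range (T + 1)).powerset.filter fun S => (∀ p ∈ S, A p ∧ p ∉ W ∧ ∑ u ∈ W, nr p u = 0) ∧
    ∏ p ∈ S, p ≤ T

/-- the sum of the reciprocals of the primes of a class -/
def Mer (A : ℕ → Prop) (α : ℝ) : Prop := ∃ C : ℝ, ∀ y : ℕ, 3 ≤ y →
  |∑ p ∈ (range (y + 1)).filter (fun p => A p), (1 : ℝ) / p - α * Real.log (Real.log y)| ≤ C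

/-- the hypotheses on the classes -/
structure Dat (A B : ℕ → Prop) (α β : ℝ) : Prop where
  pa : ∀ p, A p → p.Prime ∧ p % 4 = 1
  pb : ∀ p, B p → p.Prime ∧ p ≠ 2
  dj : ∀ p, A p → ¬ B p
  a0 : 0 < α
  b0 : 0 < β
  ab : α + β ≤ 1
  ma : Mer A α
  mb : Mer B β
  ch : ∃ (c : ℝ) (Y₀ : ℕ), 0 < c ∧ ∀ Y : ℕ, Y₀ ≤ Y →
    c * Y / Real.log Y ≤ (((range (Y + 1)).filter fun p => A p).card : ℝ)
  ha : ∃ C : ℝ, 1 ≤ C ∧ ∀ (W : Finset ℕ) (T : ℕ), W.Nonempty → (∀ u ∈ W, A u) → 2 ≤ T →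
    ∑ S ∈ HD A W T, (1 : ℝ) / ((∏ p ∈ S, p : ℕ) : ℝ) ≤
      C * (Real.log ((∏ u ∈ W, u : ℕ) : ℝ)) ^ (1 / 2 : ℝ) * (Real.log T) ^ (α / 2 : ℝ)

/-- the bilinear sums of quadratic symbols. -/
def S_BIL4 : Prop := ∃ C : ℝ, 1 ≤ C ∧ ∀ (P Q : Finset ℕ) (A B z : ℕ) (c d : ℕ → ℂ),
  (∀ p ∈ P, p.Prime ∧ p % 4 = 1 ∧ p ≤ A) → (∀ q ∈ Q, q.Prime ∧ q ≠ 2 ∧ q ≤ B) →
  Disjoint P Q → 1 ≤ z → z ≤ A → z ≤ B → (∀ p, ‖c p‖ ≤ 1) → (∀ q, ‖d q‖ ≤ 1) →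
  ‖∑ p ∈ P, ∑ q ∈ Q, c p * d q * sg (nr p q)‖ ^ 12 * z ≤ C * ((A : ℝ) * B) ^ 12

/-- the symmetric differences with the masks are all good, each for its own function -/
def GdF (A : ℕ → Prop) {M : ℕ} (f : Fin M → ℕ → ZMod 2) (V : Fin M → Finset ℕ)
    (S : Finset ℕ) : Prop := ∀ i, Gd A (f i) (symmDiff S (V i))

/-- the masks -/
def OkV {M : ℕ} (W : Finset ℕ) (V : Fin M → Finset ℕ) : Prop :=
  (∀ u ∈ W, u.Prime ∧ u ≠ 2) ∧ ∀ i, V i ⊆ W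

/-- the difference of two labels -/
noncomputable def df {M : ℕ} (f : Fin M → ℕ → ZMod 2) (V : Fin M → Finset ℕ) (i j : Fin M)
    (p : ℕ) : ZMod 2 :=
  f i p + f j p + ∑ u ∈ symmDiff (V i) (V j), nr p u

/-- many row primes separate the indices -/
def Sep (A : ℕ → Prop) {M : ℕ} (f : Fin M → ℕ → ZMod 2) (V : Fin M → Finset ℕ) : Prop :=
  ∀ i j, i ≠ j → ∃ δ C : ℝ, 0 < δ ∧ ∀ y : ℕ, 3 ≤ y →
    δ * Real.log (Real.log y) - C ≤
    ∑ p ∈ (range (y + 1)).filter (fun p => A p ∧ df f V i j p ≠ 0), (1 : ℝ) / p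

/-- the labels of the large primes `S₁` with respect to the small ones `S₀` and to `W` are not
degenerate, and they separate the indices -/
def NdF (A : ℕ → Prop) {M : ℕ} (R : ℕ) (W : Finset ℕ) (f : Fin M → ℕ → ZMod 2)
    (V : Fin M → Finset ℕ) (S₀ S₁ : Finset ℕ) : Prop :=
  Nd A (S₀ ∪ W) S₁ ∧ 2 * (S₀ ∪ W).card + R ≤ (S₁.filter fun p => A p).card ∧
    ∀ i j, i ≠ j → 2 * (S₀ ∪ W).card + R ≤
      (S₁.filter fun p => A p ∧ df f V i j p ≠ 0).card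

/-- the count in a box. -/
def S_FBOX : Prop := S_EQ → ∀ (A : ℕ → Prop), (∀ p, A p → p % 4 = 1) →
  ∀ (M : ℕ) (ε : ℝ), 0 < ε → ∃ R : ℕ, ∀ (f : Fin M → ℕ → ZMod 2)
  (ι : Type) [Fintype ι] [LinearOrder ι] (J1 : Finset ι) (C : ι → Finset ℕ) (X : ι → ℕ) (κ : ℝ)
  (S₀ W : Finset ℕ) (V : Fin M → Finset ℕ), (∀ i, V i ⊆ W) → 0 ≤ κ →
  (∀ i, (C i).card ≤ X i) → HB J1 C X κ → (∀ u ∈ S₀ ∪ W, u.Prime ∧ u ≠ 2) →
  (∀ i, ∀ p ∈ C i, p.Prime ∧ p ≠ 2 ∧ p ∉ S₀ ∪ W ∧ (i ∈ J1 ↔ A p)) →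
  (∀ i l, i ≠ l → Disjoint (C i) (C l)) → (∃ i, i ∉ J1) →
  |(((Fintype.piFinset C).filter fun p => NdF A R W f V S₀ (univ.image p) ∧
      GdF A f V (S₀ ∪ univ.image p)).card : ℝ) -
      c2 ^ M * (((Fintype.piFinset C).filter fun p => NdF A R W f V S₀ (univ.image p)).card : ℝ)| ≤
    ε * (((Fintype.piFinset C).filter fun p => NdF A R W f V S₀ (univ.image p)).card : ℝ) +
    2 ^ ((2 * (S₀ ∪ W).card + 1 + M) * Fintype.card ι + (prs J1).card) * (κ * ∏ j, (X j : ℝ))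

/-- the sum over the boxes. -/
def S_FKEY : Prop := S_BIL4 → S_EQ → S_FBOX → ∀ (A B : ℕ → Prop) (α β : ℝ), Dat A B α β →
  ∀ (M : ℕ) (ε : ℝ), 0 < ε →
  ∃ (R : ℕ) (C : ℝ), 1 ≤ C ∧
  ∀ (f : Fin M → ℕ → ZMod 2) (X z H k V N : ℕ) (κ : ℝ) (W : Finset ℕ)
  (U : Fin M → Finset ℕ), OkV W U → (∀ u ∈ W, u ≤ z) → W.card ≤ k → M ≤ k →
  1 ≤ X → 1 ≤ H → 1 ≤ z → 0 ≤ κ → C ≤ κ ^ 12 * z → (H : ℝ) * Real.log X < N →
  |(((RR A B X z H k V).filter fun S => NdF A R W f U (sm z S) (la z S) ∧ GdF A f U S).card : ℝ) -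
      c2 ^ M * (((RR A B X z H k V).filter fun S => NdF A R W f U (sm z S) (la z S)).card : ℝ)| ≤
    ε * ((RR A B X z H k V).card : ℝ) +
    (9 * N + 9 : ℝ) ^ k * (3 ^ (7 * k ^ 2) * κ) * (X * (1 + Real.log X))

/-- sets with many primes, sets near the boundary, sets with two primes in a block. -/
structure CntP (A B : ℕ → Prop) : Prop where
  many : ∀ (X k : ℕ), 1 ≤ X →
    (((SS A B X).filter fun S => k < S.card).card : ℝ) * 2 ^ k ≤ X * (1 + Real.log X)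
  cut : ∀ (X z H k : ℕ), 1 ≤ X → 1 ≤ H →
    (((SS A B X).filter fun S => S.card ≤ k ∧
      X < (∏ p ∈ sm z S, p) * ∏ p ∈ la z S, XX H (jj H p)).card : ℝ) ≤ X * k / H + 1
  coll : ∀ (X z H : ℕ), 1 ≤ X → 1 ≤ H → (((SS A B X).filter fun S =>
    ¬ Set.InjOn (jj H) (la z S : Set ℕ)).card : ℝ) ≤ 4 * X * (1 + Real.log X) / H

/-- few sets have degenerate labels. -/
def S_JBAD : Prop := S_SIE → ∀ (A B : ℕ → Prop) (α β : ℝ), Dat A B α β → ∀ (W : Finset ℕ),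
  (∀ u ∈ W, u.Prime ∧ u ≠ 2) → ∃ (δ C : ℝ) (X₀ : ℕ), 0 < δ ∧ ∀ X : ℕ, X₀ ≤ X →
  (((SS A B X).filter fun S => S.card ≤ kk X ∧
      ¬ Nd A (sm (zz X) S ∪ W) (la (zz X) S)).card : ℝ) ≤
    C * X * (Real.log X) ^ (-1 + (α + β) - δ : ℝ)

/-- few sets have few large row primes or no large prime of the other class. -/
def S_FEW : Prop := S_SIE → ∀ (A B : ℕ → Prop) (α β : ℝ), Dat A B α β → ∀ (V : ℕ),
  ∃ (δ C : ℝ) (X₀ : ℕ), 0 < δ ∧ ∀ X : ℕ, X₀ ≤ X →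
  (((SS A B X).filter fun S => ((la (zz X) S).filter fun p => A p).card ≤
      2 * (sm (zz X) S).card + V ∨ ∀ p ∈ la (zz X) S, A p).card : ℝ) ≤
    C * X * (Real.log X) ^ (-1 + (α + β) - δ : ℝ)

/-- few sets have few large row primes of a set of primes of positive density. -/
def S_FFEW : Prop := S_SIE → ∀ (A B : ℕ → Prop) (α β : ℝ), Dat A B α β →
  ∀ (b : ℕ → ZMod 2) (δ₀ C₀ : ℝ) (R : ℕ), 0 < δ₀ →
  (∀ y : ℕ, 3 ≤ y → δ₀ * Real.log (Real.log y) - C₀ ≤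
    ∑ p ∈ (range (y + 1)).filter (fun p => A p ∧ b p ≠ 0), (1 : ℝ) / p) →
  ∃ (δ C : ℝ) (X₀ : ℕ), 0 < δ ∧ ∀ X : ℕ, X₀ ≤ X →
  (((SS A B X).filter fun S => ((la (zz X) S).filter fun p => A p ∧
      b p ≠ 0).card < 2 * (sm (zz X) S).card + R).card : ℝ) ≤
    C * X * (Real.log X) ^ (-1 + (α + β) - δ : ℝ)

/-- the lower bound for the size of the class. -/
def S_LOW : Prop := ∀ (A B : ℕ → Prop) (α β : ℝ), Dat A B α β →
  ∃ (c : ℝ) (X₀ : ℕ), 0 < c ∧ ∀ X : ℕ, X₀ ≤ X →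
  c * X * (Real.log X) ^ (-1 + (α + β) : ℝ) ≤ ((SS A B X).card : ℝ)

/-- FINAL: the proportion of the jointly good sets -/
def S_GDQ : Prop := ∀ (A B : ℕ → Prop) (α β : ℝ), Dat A B α β →
  ∀ (M : ℕ) (f : Fin M → ℕ → ZMod 2) (W : Finset ℕ)
  (V : Fin M → Finset ℕ), OkV W V → Sep A f V → Filter.Tendsto
    (fun X : ℕ => (((SS A B X).filter (GdF A f V)).card : ℝ) / ((SS A B X).card : ℝ))
    Filter.atTop (nhds (c2 ^ M))

/-- FINAL, in terms of the numbers `D`. -/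
def S_GDEN : Prop := ∀ (A B : ℕ → Prop) (α β : ℝ), Dat A B α β →
  ∀ (M : ℕ) (f : Fin M → ℕ → ZMod 2) (W : Finset ℕ)
  (V : Fin M → Finset ℕ), OkV W V → Sep A f V → Filter.Tendsto
  (fun X : ℕ => (((Icc 1 X).filter fun D => Squarefree D ∧ Cl A B D.primeFactors ∧
      GdF A f V D.primeFactors).card : ℝ) /
    (((Icc 1 X).filter fun D => Squarefree D ∧ Cl A B D.primeFactors).card : ℝ))
  Filter.atTop (nhds (c2 ^ M))

end Pool.Agent.V11291.GQ
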