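import Pool.Agent.Y302.CQ.LOW
import Pool.Agent.Y37.CX.An
import Pool.Agent.V11291.GQ.Stm

/-!
# General classes of primes: the lower bound for the size of the class

Adapted from `Pool.Agent.Y302.CQ.LOW` (helper302).
-/

set_option autoImplicit false

open scoped Classical

namespace Pool.Agent.V11291.GQ

open Finset
open Pool.Agent.Y302.CQ (M1 P2 G1_lower exists_root log_le_two_sqrt)

variable {A B : ℕ → Prop} {α β : ℝ}

/-- the class -/
def ab (A B : ℕ → Prop) (p : ℕ) : Prop := A p ∨ B p

/-- Mertens' theorem for the primes outside the class. -/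
theorem mert (hD : Dat A B α β) : ∃ C : ℝ, ∀ y : ℕ, 3 ≤ y →
    ∑ p ∈ P2 (ab A B) y, (1 : ℝ) / p ≤
      (1 - (α + β)) * Real.log (Real.log y) + C := by
  obtain ⟨C₀, -, h₀⟩ := Pool.Agent.Y37.CX.Pm_le
  obtain ⟨C₁, h₁⟩ := hD.ma
  obtain ⟨C₂, h₂⟩ := hD.mb
  refine ⟨C₀ + C₁ + C₂, fun y hy => ?_⟩
  have e0 := h₀ y hy
  have e1 := (abs_le.mp (h₁ y hy)).1
  have e2 := (abs_le.mp (h₂ y hy)).1
  have hu : (Finset.Icc 1 y).filter Nat.Prime = P2 (ab A B) y ∪
      ((range (y + 1)).filter (fun p => A p) ∪ (range (y + 1)).filter (fun p => B p)) := by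
    ext p
    simp only [P2, mem_union, mem_filter, mem_range, mem_Icc]
    constructor
    · rintro ⟨⟨h1, h2⟩, h3⟩
      by_cases hA : A p
      · exact Or.inr (Or.inl ⟨by omega, hA⟩)
      · by_cases hB : B p
        · exact Or.inr (Or.inr ⟨by omega, hB⟩)
        · exact Or.inl ⟨by omega, h3, by unfold ab; tauto⟩
    · rintro (⟨h1, h2, h3⟩ | ⟨h1, h2⟩ | ⟨h1, h2⟩)
      · exact ⟨⟨h2.one_le, by omega⟩, h2⟩
      · exact ⟨⟨(hD.pa p h2).1.one_le, by omega⟩, (hD.pa p h2).1⟩
      · exact ⟨⟨(hD.pb p h2).1.one_le, by omega⟩, (hD.pb p h2).1⟩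
  have hd1 : Disjoint ((range (y + 1)).filter (fun p => A p))
      ((range (y + 1)).filter (fun p => B p)) := by
    rw [Finset.disjoint_left]
    intro p hp hp'
    exact hD.dj p (mem_filter.1 hp).2 (mem_filter.1 hp').2
  have hd2 : Disjoint (P2 (ab A B) y) ((range (y + 1)).filter (fun p => A p) ∪
      (range (y + 1)).filter (fun p => B p)) := by
    rw [Finset.disjoint_left]
    intro p hp hp'
    rw [P2, mem_filter] at hp
    rw [mem_union, mem_filter, mem_filter] at hp'
    unfold ab at hp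
    tauto
  unfold Pool.Agent.Y37.CX.Pm at e0
  rw [hu, Finset.sum_union hd2, Finset.sum_union hd1] at e0
  linarith

theorem mem_M1 {y : ℕ} {S : Finset ℕ} (h : S ∈ M1 (ab A B) y) :
    (∀ p ∈ S, p.Prime ∧ (A p ∨ B p) ∧ p ≤ y) ∧ ∏ p ∈ S, p ≤ y := by
  rw [M1, mem_filter, mem_powerset] at h
  refine ⟨fun p hp => ?_, h.2⟩
  have := h.1 hp
  rw [mem_filter, mem_range] at this
  exact ⟨this.2.1, this.2.2, by omega⟩

/-- the pairs -/
noncomputable def DD (A B : ℕ → Prop) (X y : ℕ) : Finset (Σ _ : Finset ℕ, ℕ) :=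
  (M1 (ab A B) y).sigma fun T => (range (X / (∏ p ∈ T, p) + 1)).filter
    fun r => y < r ∧ A r

theorem card_DD_le (hD : Dat A B α β) (X y : ℕ) : (DD A B X y).card ≤ (SS A B X).card := by
  refine Finset.card_le_card_of_injOn (fun t => insert t.2 t.1) ?_ ?_
  · rintro ⟨T, r⟩ ht
    rw [mem_coe, DD, mem_sigma, mem_filter, mem_range] at ht
    obtain ⟨hT, hr, hry, hrA⟩ := ht
    obtain ⟨h1, h2⟩ := mem_M1 hT
    simp only at hr hry hrA
    have hrT : r ∉ T := fun h => by have := (h1 r h).2.2; omega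
    have k6 : 0 < ∏ p ∈ T, p := Finset.prod_pos fun p hp => (h1 p hp).1.pos
    have hprod : r * ∏ p ∈ T, p ≤ X := by
      have : r ≤ X / ∏ p ∈ T, p := by omega
      exact (Nat.le_div_iff_mul_le k6).mp this
    have hprod' : ∏ p ∈ insert r T, p ≤ X := by
      rw [Finset.prod_insert hrT]
      exact hprod
    have hall : ∀ p ∈ insert r T, A p ∨ B p := by
      intro p hp
      rcases mem_insert.mp hp with rfl | hp
      · exact Or.inl hrA
      · exact (h1 p hp).2.1
    have hprime : ∀ p ∈ insert r T, p.Prime := by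
      intro p hp
      rcases hall p hp with h | h
      · exact (hD.pa p h).1
      · exact (hD.pb p h).1
    rw [mem_coe, SS, mem_filter, mem_powerset]
    refine ⟨?_, hall, hprod'⟩
    intro p hp
    rw [mem_range]
    have h3 : p ∣ ∏ q ∈ insert r T, q := Finset.dvd_prod_of_mem _ hp
    have h4 : 0 < ∏ q ∈ insert r T, q := Finset.prod_pos fun q hq => (hprime q hq).pos
    have := Nat.le_of_dvd h4 h3
    omega
  · rintro ⟨T, r⟩ ht ⟨T', r'⟩ ht' he
    rw [mem_coe, DD, mem_sigma, mem_filter, mem_range] at ht ht'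
    obtain ⟨hT, hr, hry, hrA⟩ := ht
    obtain ⟨hT', hr', hry', hrA'⟩ := ht'
    obtain ⟨h1, h2⟩ := mem_M1 hT
    obtain ⟨h1', h2'⟩ := mem_M1 hT'
    simp only at hr hry hrA hr' hry' hrA' he h1 h1'
    have hrr : r = r' := by
      have : r ∈ insert r' T' := by rw [← he]; exact mem_insert_self _ _
      rw [mem_insert] at this
      rcases this with h | h
      · exact h
      · have := (h1' r h).2.2
        omega
    subst hrr
    have hTT : T = T' := by
      have e1 : ∀ (S : Finset ℕ), (∀ p ∈ S, p ≤ y) →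
          (insert r S).filter (fun p => p ≤ y) = S := by
        intro S hS
        ext p
        simp only [mem_filter, mem_insert]
        constructor
        · rintro ⟨rfl | h, h3⟩
          · omega
          · exact h
        · intro h; exact ⟨Or.inr h, hS p h⟩
      rw [← e1 T fun p hp => (h1 p hp).2.2, he, e1 T' fun p hp => (h1' p hp).2.2]
    subst hTT
    rfl

theorem t_LOW : S_LOW := by
  intro A B α β hD
  obtain ⟨C, hC⟩ := mert hD
  obtain ⟨c, Y₀, hc, hche⟩ := hD.ch
  obtain ⟨y₀, hy₀⟩ : ∃ y₀ : ℕ, y₀ = max (max 5 Y₀) ⌈8 / c⌉₊ := ⟨_, rfl⟩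
  refine ⟨c / 20 * (1 / 2 * Real.exp (-C)) / 16, y₀ ^ 8, by positivity, ?_⟩
  intro X hX
  obtain ⟨y, hy1, hy2⟩ := exists_root X
  have hyy : y₀ ≤ y := by
    have : y₀ ^ 8 < (y + 1) ^ 8 := lt_of_le_of_lt hX hy2
    have := lt_of_pow_lt_pow_left₀ 8 (Nat.zero_le _) this
    omega
  have hy5 : 5 ≤ y := by
    have : 5 ≤ y₀ := by rw [hy₀]; exact (le_max_left _ _).trans (le_max_left _ _)
    omega
  have hyY : Y₀ ≤ y := by
    have : Y₀ ≤ y₀ := by rw [hy₀]; exact (le_max_right _ _).trans (le_max_left _ _)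
    omega
  have hyc : 8 / c ≤ (y : ℝ) := by
    have h1 : 8 / c ≤ (⌈8 / c⌉₊ : ℝ) := Nat.le_ceil _
    have h2 : ⌈8 / c⌉₊ ≤ y := by
      have : ⌈8 / c⌉₊ ≤ y₀ := by rw [hy₀]; exact le_max_right _ _
      omega
    exact h1.trans (by exact_mod_cast h2)
  have hyR : (5 : ℝ) ≤ y := by exact_mod_cast hy5
  have hyX : y < X := by
    have : y < y ^ 8 := by
      calc y = y ^ 1 := (pow_one y).symm
        _ < y ^ 8 := Nat.pow_lt_pow_right (by omega) (by norm_num)
    omega
  have hX1 : (1 : ℝ) < X := by exact_mod_cast (show 1 < X by omega)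
  have hlogy : 0 < Real.log y := Real.log_pos (by linarith)
  have hlogX : 0 < Real.log X := Real.log_pos hX1
  have hlog16 : Real.log X ≤ 16 * Real.log y := by
    have h1 : X ≤ y ^ 16 := by
      have h2 : y + 1 ≤ y ^ 2 := by nlinarith
      calc X ≤ (y + 1) ^ 8 := hy2.le
        _ ≤ (y ^ 2) ^ 8 := Nat.pow_le_pow_left h2 8
        _ = y ^ 16 := by ring
    have : Real.log X ≤ Real.log ((y : ℝ) ^ 16) := by
      apply Real.log_le_log (by linarith)
      exact_mod_cast h1
    rwa [Real.log_pow] at this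
  -- the sum
  have hsum : ∑ T ∈ M1 (ab A B) y, c / 20 * (X / Real.log X) *
      ((1 : ℝ) / ((∏ p ∈ T, p : ℕ) : ℝ)) ≤ ((DD A B X y).card : ℝ) := by
    rw [DD, Finset.card_sigma, Nat.cast_sum]
    refine Finset.sum_le_sum fun T hT => ?_
    obtain ⟨h1, h2⟩ := mem_M1 hT
    obtain ⟨m, hm⟩ : ∃ m, m = ∏ p ∈ T, p := ⟨_, rfl⟩
    have k6 : 0 < m := by
      rw [hm]; exact Finset.prod_pos fun p hp => (h1 p hp).1.pos
    rw [← hm] at h2
    rw [← hm]
    obtain ⟨Y, hYdef⟩ : ∃ Y, Y = X / m := ⟨_, rfl⟩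
    have hYy : y ^ 6 ≤ Y := by
      rw [hYdef, Nat.le_div_iff_mul_le k6]
      calc y ^ 6 * m ≤ y ^ 6 * y ^ 2 := by
            apply Nat.mul_le_mul_left
            nlinarith
        _ = y ^ 8 := by ring
        _ ≤ X := hy1
    have hy6 : y ≤ y ^ 6 := Nat.le_self_pow (by norm_num) y
    have hY0 : Y₀ ≤ Y := by omega
    have hYX : Y ≤ X := by rw [hYdef]; exact Nat.div_le_self _ _
    have hY1 : (1 : ℝ) < (Y : ℝ) := by exact_mod_cast (show 1 < Y by omega)
    have hlY : 0 < Real.log (Y : ℝ) := Real.log_pos hY1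
    have hlYX : Real.log (Y : ℝ) ≤ Real.log X :=
      Real.log_le_log (by linarith) (by exact_mod_cast hYX)
    have h3 := hche Y hY0
    -- discard the small primes
    have h4 : ((range (Y + 1)).filter fun p => A p).card ≤
        ((range (Y + 1)).filter fun r => y < r ∧ A r).card + (y + 1) := by
      have h5 : ((range (Y + 1)).filter fun p => A p) ⊆
          ((range (Y + 1)).filter fun r => y < r ∧ A r) ∪
            range (y + 1) := by
        intro p hp
        rw [mem_filter] at hp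
        rw [mem_union, mem_filter, mem_range]
        by_cases h : y < p
        · exact Or.inl ⟨mem_range.mp hp.1, h, hp.2⟩
        · right
          rw [mem_range]
          omega
      refine (Finset.card_le_card h5).trans ((Finset.card_union_le _ _).trans ?_)
      rw [Finset.card_range]
    have h4' : (((range (Y + 1)).filter fun p => A p).card : ℝ) ≤
        (((range (Y + 1)).filter fun r => y < r ∧ A r).card : ℝ) +
          ((y : ℝ) + 1) := by
      exact_mod_cast h4
    have h6 : (y : ℝ) + 1 ≤ c / 2 * (Y / Real.log Y) := by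
      have hs0 : 0 < Real.sqrt (Y : ℝ) := Real.sqrt_pos.mpr (by linarith)
      have hs1 : (y : ℝ) ^ 3 ≤ Real.sqrt (Y : ℝ) := by
        apply Real.le_sqrt_of_sq_le
        have : ((y : ℝ) ^ 3) ^ 2 = (y : ℝ) ^ 6 := by ring
        rw [this]
        exact_mod_cast hYy
      have hs2 : Real.sqrt (Y : ℝ) / 2 ≤ Y / Real.log Y := by
        rw [le_div_iff₀ hlY]
        have h7 := log_le_two_sqrt (show (0 : ℝ) < Y by linarith)
        calc Real.sqrt (Y : ℝ) / 2 * Real.log Y ≤ Real.sqrt (Y : ℝ) / 2 * (2 * Real.sqrt Y) :=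
              mul_le_mul_of_nonneg_left h7 (by positivity)
          _ = Real.sqrt (Y : ℝ) * Real.sqrt Y := by ring
          _ = Y := Real.mul_self_sqrt (by linarith)
      have hs3 : 8 ≤ c * (y : ℝ) := by
        rw [div_le_iff₀ hc] at hyc
        linarith
      calc (y : ℝ) + 1 ≤ 8 / 4 * (y * 1) := by linarith
        _ ≤ c * y / 4 * (y * y) := by
            apply mul_le_mul _ _ (by positivity) (by positivity)
            · exact div_le_div_of_nonneg_right hs3 (by norm_num)
            · apply mul_le_mul_of_nonneg_left _ (by positivity)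
              linarith
        _ = c / 2 * ((y : ℝ) ^ 3 / 2) := by ring
        _ ≤ c / 2 * (Real.sqrt Y / 2) := by
            apply mul_le_mul_of_nonneg_left _ (by positivity)
            exact div_le_div_of_nonneg_right hs1 (by norm_num)
        _ ≤ c / 2 * (Y / Real.log Y) := mul_le_mul_of_nonneg_left hs2 (by positivity)
    have h7 : c / 2 * (Y / Real.log Y) ≤
        (((range (Y + 1)).filter fun r => y < r ∧ A r).card : ℝ) := by
      have h8 : c * Y / Real.log Y = c / 2 * (Y / Real.log Y) + c / 2 * (Y / Real.log Y) := by ring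
      rw [h8] at h3
      linarith
    rw [← hYdef]
    refine le_trans ?_ h7
    have hhalf : (X : ℝ) / (2 * m) ≤ (Y : ℝ) := by
      have h9 : X < m * Y + m := by
        rw [hYdef]
        have := Nat.div_add_mod X m
        have := Nat.mod_lt X k6
        omega
      have h10 : (X : ℝ) < m * (Y : ℝ) + m := by exact_mod_cast h9
      have hm' : (0 : ℝ) < m := by exact_mod_cast k6
      rw [div_le_iff₀ (by positivity)]
      nlinarith
    have hm' : (0 : ℝ) < m := by exact_mod_cast k6
    have hX10 : (X : ℝ) / (10 * m) ≤ (X : ℝ) / (2 * m) := by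
      apply div_le_div_of_nonneg_left (by positivity) (by positivity)
      linarith
    calc c / 20 * (X / Real.log X) * ((1 : ℝ) / (m : ℝ)) =
        c / 2 * (((X : ℝ) / (10 * m)) / Real.log X) := by
          field_simp
          ring
      _ ≤ c / 2 * ((Y : ℝ) / Real.log X) := by
          apply mul_le_mul_of_nonneg_left _ (by positivity)
          apply div_le_div_of_nonneg_right _ hlogX.le
          exact hX10.trans hhalf
      _ ≤ c / 2 * ((Y : ℝ) / Real.log Y) := by
          apply mul_le_mul_of_nonneg_left _ (by positivity)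
          apply div_le_div_of_nonneg_left (by positivity) hlY hlYX
  rw [← Finset.mul_sum] at hsum
  have hG := G1_lower (ab A B) (1 - (α + β)) C y (by omega) (hC y (by omega))
  have hdl : 1 - (1 - (α + β)) = α + β := by ring
  rw [hdl] at hG
  have hcard : ((DD A B X y).card : ℝ) ≤ ((SS A B X).card : ℝ) := by
    exact_mod_cast card_DD_le hD X y
  refine le_trans ?_ (hsum.trans hcard)
  have h6 : 0 ≤ c / 20 * (X / Real.log X) := by positivity
  refine le_trans ?_ (mul_le_mul_of_nonneg_left hG h6)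
  have hdl0 : 0 ≤ α + β := add_nonneg hD.a0.le hD.b0.le
  have hdl1 : α + β ≤ 1 := hD.ab
  have h7 : (Real.log X) ^ (α + β) ≤ 16 * (Real.log y) ^ (α + β) := by
    have h8 : (Real.log X) ^ (α + β) ≤ (16 * Real.log y) ^ (α + β) :=
      Real.rpow_le_rpow hlogX.le hlog16 hdl0
    rw [Real.mul_rpow (by norm_num) hlogy.le] at h8
    refine h8.trans ?_
    apply mul_le_mul_of_nonneg_right _ (by positivity)
    calc (16 : ℝ) ^ (α + β) ≤ 16 ^ (1 : ℝ) := Real.rpow_le_rpow_of_exponent_le (by norm_num) hdl1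
      _ = 16 := Real.rpow_one _
  have h10 : (Real.log X) ^ (-1 + (α + β) : ℝ) = (Real.log X) ^ (α + β) / Real.log X := by
    rw [Real.rpow_add hlogX, Real.rpow_neg_one]
    ring
  rw [h10]
  have hee : 0 < Real.exp (-C) := Real.exp_pos _
  calc c / 20 * (1 / 2 * Real.exp (-C)) / 16 * X * ((Real.log X) ^ (α + β) / Real.log X)
      = c / 20 * (X / Real.log X) * (1 / 2 * Real.exp (-C) / 16 * (Real.log X) ^ (α + β)) := by
        ring
    _ ≤ c / 20 * (X / Real.log X) *
        (1 / 2 * Real.exp (-C) / 16 * (16 * (Real.log y) ^ (α + β))) := by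
        apply mul_le_mul_of_nonneg_left _ h6
        apply mul_le_mul_of_nonneg_left h7 (by positivity)
    _ = c / 20 * (X / Real.log X) * (1 / 2 * Real.exp (-C) * (Real.log y) ^ (α + β)) := by ring

end Pool.Agent.V11291.GQ
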