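import Pool.Agent.Y697.JQ.BOX
import Pool.Agent.V11291.GQ.Stm
import Pool.Agent.V11291.JF.LA

/-!
# General classes of primes: the count in a box

Adapted from `Pool.Agent.Y657.CQ.BOX`, `Pool.Agent.Y697.JQ.BOX` (helper657, helper697).
-/

set_option autoImplicit false

open scoped Classical

namespace Pool.Agent.V11291.GQ

open Finset
open Pool.Agent.Y703.CQ (nr sg c2 prs HB ext S_EQ)
open Pool.Agent.Y657.CQ (Lb lb nr_self ez0 ez0_coe HB_sub sum_un)
open Pool.Agent.Y687.JQ (GdM)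
open Pool.Agent.Y697.JQ (pt mem_pt sum_pt add_pt sd_sd sd_union sd_sub)
open Pool.Agent.V11291.JF (t_FLA)

/-- the good labels -/
def LN (A : ℕ → Prop) {ι : Type} (S₀ : Finset ℕ) (J1 : Finset ι) (β : ι → Lb S₀) : Prop :=
  ∀ w : S₀ → ZMod 2, (∃ u : S₀, A (u : ℕ) ∧ w u ≠ 0) →
    ∃ i ∈ J1, ∑ u ∈ univ.filter (fun u : S₀ => A (u : ℕ)), w u * (β i).2.1 u ≠ 0

theorem nr_symm {p q : ℕ} (hp : p.Prime) (hp1 : p % 4 = 1) (hq : q.Prime) (hq2 : q ≠ 2) :
    nr p q = nr q p := by
  have : Fact p.Prime := ⟨hp⟩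
  have : Fact q.Prime := ⟨hq⟩
  unfold nr
  have h := ZMod.exists_sq_eq_prime_iff_of_mod_four_eq_one (p := p) (q := q) hp1 hq2
  by_cases h1 : IsSquare (q : ZMod p)
  · rw [if_pos h1, if_pos (h.1 h1)]
  · rw [if_neg h1, if_neg (fun h2 => h1 (h.2 h2))]

theorem sum_f (A : ℕ → Prop) (S₀ : Finset ℕ) (h : ℕ → ZMod 2) :
    ∑ u ∈ S₀.filter (fun u => A u), h u =
      ∑ u ∈ univ.filter (fun u : S₀ => A (u : ℕ)), h u := by
  rw [Finset.sum_filter, Finset.sum_filter, ← Finset.sum_coe_sort S₀]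

section one
variable {A : ℕ → Prop} {ι : Type} [Fintype ι] [LinearOrder ι] {J1 : Finset ι} {S₀ S₁ T : Finset ℕ}
  {p : ι → ℕ} (f : ℕ → ZMod 2)

omit [LinearOrder ι] in
theorem nd_iff (hJ : ∀ i, A (p i) ↔ i ∈ J1) :
    Nd A S₀ (univ.image p) ↔ LN A S₀ J1 (fun i => lb f S₀ (p i)) := by
  unfold Nd LN
  constructor
  · intro h w hw
    obtain ⟨u, hu1, hu2⟩ := hw
    obtain ⟨x, hx, hx1, hx2⟩ := h (ez0 w) ⟨u, u.2, hu1, by rw [ez0_coe]; exact hu2⟩
    rw [Finset.mem_image] at hx
    obtain ⟨i, -, rfl⟩ := hx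
    refine ⟨i, (hJ i).1 hx1, ?_⟩
    rw [sum_f A] at hx2
    intro h0
    apply hx2
    rw [← h0]
    refine Finset.sum_congr rfl fun u _ => ?_
    rw [ez0_coe]
    rfl
  · intro h w hw
    obtain ⟨u, hu0, hu1, hu2⟩ := hw
    obtain ⟨i, hi, hi2⟩ := h (fun u => w u) ⟨⟨u, hu0⟩, hu1, hu2⟩
    refine ⟨p i, Finset.mem_image_of_mem _ (Finset.mem_univ _), (hJ i).2 hi, ?_⟩
    rw [sum_f A]
    exact hi2

theorem ext_sum (hA : ∀ p, A p → p % 4 = 1) (hpr : ∀ i, (p i).Prime ∧ p i ≠ 2) (hJ : ∀ i, A (p i) ↔ i ∈ J1)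
    (k : ι) (hk : k ∈ J1) (y : ι → ZMod 2) (yk : ZMod 2) :
    ∑ l, Pool.Agent.Y703.CQ.ext (fun e : prs J1 => nr (p e.1.1) (p e.1.2)) k l * (y l + yk) =
      ∑ l, nr (p k) (p l) * (y l + yk) := by
  refine Finset.sum_congr rfl fun l _ => ?_
  congr 1
  unfold Pool.Agent.Y703.CQ.ext
  by_cases h : (k, l) ∈ prs J1
  · rw [dif_pos h]
  · rw [dif_neg h]
    by_cases hlk : l = k
    · subst hlk
      rw [dif_neg (fun h' => h h'.1), nr_self]
    · have h1 : l ∈ J1 ∧ ¬ k < l := by
        by_contra hcon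
        apply h
        unfold prs
        refine Finset.mem_filter.2 ⟨Finset.mem_univ _, hk, hlk, fun hl => ?_⟩
        by_contra hkl
        exact hcon ⟨hl, hkl⟩
      have h2 : (l, k) ∈ prs J1 := by
        unfold prs
        exact Finset.mem_filter.2 ⟨Finset.mem_univ _, h1.1, fun h => hlk h.symm,
          fun _ => lt_of_le_of_ne (not_lt.1 h1.2) hlk⟩
      rw [dif_pos ⟨h2, hk⟩]
      exact nr_symm (hpr l).1 (hA _ ((hJ l).2 h1.1)) (hpr k).1 (hpr k).2

/-- the row primes -/
noncomputable def ue (A : ℕ → Prop) (S₁ : Finset ℕ) : Finset S₁ :=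
  univ.filter fun u : S₁ => A (u : ℕ)

theorem mem_ue {A : ℕ → Prop} {S₁ : Finset ℕ} (u : S₁) : u ∈ ue A S₁ ↔ A (u : ℕ) := by
  unfold ue
  simp

theorem gdM_iff (hA : ∀ p, A p → p % 4 = 1) (hT : T ⊆ S₁) (hp : Function.Injective p) (hpr : ∀ i, (p i).Prime ∧ p i ≠ 2)
    (hd : ∀ i, p i ∉ S₁) (hJ : ∀ i, A (p i) ↔ i ∈ J1) :
    Gd A f (T ∪ univ.image p) ↔ GdM (pt S₁ T) (ue A S₁) J1
      (fun u v : S₁ => nr u v) (fun (u : S₁) l => nr u (p l)) (fun k (u : S₁) => nr (p k) u)
      (Pool.Agent.Y703.CQ.ext fun e : prs J1 => nr (p e.1.1) (p e.1.2))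
      (fun u : S₁ => f u) (fun k => f (p k)) := by
  have hdT : ∀ i, p i ∉ T := fun i hi => hd i (hT hi)
  have hsol : ∀ x : ℕ → ZMod 2, Sol A f (T ∪ univ.image p) x ↔
      (∀ u : S₁, (u : ℕ) ∈ T → A (u : ℕ) →
        ∑ v ∈ pt S₁ T, nr u v * (cu A x v + x u) +
        ∑ l, nr u (p l) * (cu A x (p l) + x u) + f u * x u = 0) ∧
      (∀ k ∈ J1, ∑ u ∈ pt S₁ T, nr (p k) u * (cu A x u + x (p k)) +
        ∑ l, Pool.Agent.Y703.CQ.ext (fun e : prs J1 => nr (p e.1.1) (p e.1.2)) k l *
          (cu A x (p l) + x (p k)) + f (p k) * x (p k) = 0) := by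
    intro x
    have hs : ∀ h : ℕ → ZMod 2, ∑ x ∈ T ∪ univ.image p, h x =
        ∑ u ∈ pt S₁ T, h u + ∑ l, h (p l) := by
      intro h
      rw [sum_un hp hdT, Finset.sum_coe_sort T (fun x => h x), sum_pt hT]
    unfold Sol
    constructor
    · intro h
      refine ⟨fun u huT hu => ?_, fun k hk => ?_⟩
      · have := h u (Finset.mem_union_left _ huT) hu
        rw [hs] at this
        exact this
      · have := h (p k) (Finset.mem_union_right _ (Finset.mem_image_of_mem _ (Finset.mem_univ _)))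
          ((hJ k).2 hk)
        rw [hs] at this
        rw [ext_sum hA hpr hJ k hk (fun l => cu A x (p l))]
        exact this
    · rintro ⟨h1, h2⟩ y hy hy1
      rw [hs]
      rw [Finset.mem_union, Finset.mem_image] at hy
      rcases hy with hy | ⟨k, -, rfl⟩
      · exact h1 ⟨y, hT hy⟩ hy hy1
      · have hk := (hJ k).1 hy1
        have := h2 k hk
        rw [ext_sum hA hpr hJ k hk (fun l => cu A x (p l))] at this
        exact this
  unfold Gd GdM
  constructor
  · intro h c d hc0 hcm hd0 h1 h2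
    set c' : ℕ → ZMod 2 := fun n => if h : n ∈ S₁ then c ⟨n, h⟩ else
      if h : ∃ l, p l = n then d h.choose else 0 with hc'
    have e1 : ∀ u : S₁, c' u = c u := by
      intro u
      simp only [hc']
      rw [dif_pos u.2]
    have e2 : ∀ l, c' (p l) = d l := by
      intro l
      have hex : ∃ l', p l' = p l := ⟨l, rfl⟩
      simp only [hc']
      rw [dif_neg (hd l), dif_pos hex]
      exact congrArg d (hp hex.choose_spec)
    have e3 : ∀ u : S₁, cu A c' u = c u := by
      intro u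
      unfold cu
      split_ifs with h8
      · exact e1 u
      · exact (hc0 u fun hu => h8 ((mem_ue u).1 hu)).symm
    have e4 : ∀ l, cu A c' (p l) = d l := by
      intro l
      unfold cu
      split_ifs with h8
      · exact e2 l
      · exact (hd0 l fun hl => h8 ((hJ l).2 hl)).symm
    have hs : Sol A f (T ∪ univ.image p) c' := by
      rw [hsol]
      refine ⟨fun u huT hu => ?_, fun k hk => ?_⟩
      · simp only [e1, e3, e4]
        exact h1 u ((mem_ue u).2 hu) ((mem_pt u).2 huT)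
      · simp only [e2, e3, e4]
        exact h2 k hk
    have h3 := h c' hs
    refine ⟨fun u => ?_, fun l => ?_⟩
    · by_cases h8 : A (u : ℕ)
      · by_cases huT : (u : ℕ) ∈ T
        · rw [← e1]
          exact h3 _ (Finset.mem_union_left _ huT) h8
        · exact hcm u fun hu => huT ((mem_pt u).1 hu)
      · exact hc0 u fun hu => h8 ((mem_ue u).1 hu)
    · by_cases h8 : A (p l)
      · rw [← e2]
        exact h3 _ (Finset.mem_union_right _ (Finset.mem_image_of_mem _ (Finset.mem_univ _))) h8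
      · exact hd0 l fun hl => h8 ((hJ l).2 hl)
  · intro h x hx
    rw [hsol] at hx
    have hcu : ∀ q : ℕ, A q → cu A x q = x q := by
      intro q hq
      unfold cu
      rw [if_pos hq]
    set c : S₁ → ZMod 2 := fun u => if (u : ℕ) ∈ T then cu A x u else 0 with hc
    have hcT : ∀ u : S₁, (u : ℕ) ∈ T → c u = cu A x u := by
      intro u hu
      simp only [hc]
      rw [if_pos hu]
    have hsc : ∀ (g : S₁ → ZMod 2) (a : ZMod 2), ∑ v ∈ pt S₁ T, g v * (c v + a) =
        ∑ v ∈ pt S₁ T, g v * (cu A x v + a) := by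
      intro g a
      refine Finset.sum_congr rfl fun v hv => ?_
      rw [hcT v ((mem_pt v).1 hv)]
    obtain ⟨ht1, ht2⟩ := h c (fun l => cu A x (p l))
      (fun u hu => by
        have h8 : ¬ A (u : ℕ) := fun h8 => hu ((mem_ue u).2 h8)
        simp only [hc]
        split_ifs
        · unfold cu
          rw [if_neg h8]
        · rfl)
      (fun u hu => by
        simp only [hc]
        rw [if_neg fun h' => hu ((mem_pt u).2 h')])
      (fun k hk => by
        have h8 : ¬ A (p k) := fun h8 => hk ((hJ k).1 h8)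
        unfold cu
        rw [if_neg h8])
      (fun u hu huT => by
        have h8 := (mem_ue u).1 hu
        have huT' := (mem_pt u).1 huT
        have := hx.1 u huT' h8
        rw [hsc, hcT u huT']
        rw [← hcu u h8] at this
        exact this)
      (fun k hk => by
        have h8 := (hJ k).2 hk
        have := hx.2 k hk
        rw [hsc]
        rw [← hcu (p k) h8] at this
        exact this)
    intro y hy hy8
    rw [Finset.mem_union, Finset.mem_image] at hy
    rcases hy with hy | ⟨k, -, rfl⟩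
    · rw [← hcu y hy8, ← hcT ⟨y, hT hy⟩ hy]
      exact ht1 ⟨y, hT hy⟩
    · rw [← hcu _ hy8]
      exact ht2 k

end one

/-- the type of the labels -/
abbrev Lf (S₀ : Finset ℕ) (M : ℕ) : Type := Lb S₀ × (Fin M → ZMod 2)

/-- the label of a prime -/
noncomputable def lf {M : ℕ} (f : Fin M → ℕ → ZMod 2) (S₀ : Finset ℕ) (x : ℕ) : Lf S₀ M :=
  (lb (fun _ => 0) S₀ x, fun i => f i x)

/-- the difference of two labels -/
noncomputable def dl' {M : ℕ} {S₁ : Finset ℕ} (V : Fin M → Finset ℕ) (i j : Fin M)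
    (β : Lf S₁ M) : ZMod 2 :=
  β.2 i + β.2 j + ∑ u ∈ pt S₁ (symmDiff (V i) (V j)), β.1.2.1 u

/-- the good labels -/
def LF (A : ℕ → Prop) {ι : Type} {M : ℕ} (R : ℕ) (S₁ : Finset ℕ) (V : Fin M → Finset ℕ) (J1 : Finset ι)
    (β : ι → Lf S₁ M) : Prop :=
  LN A S₁ J1 (fun i => (β i).1) ∧ 2 * S₁.card + R ≤ J1.card ∧ ∀ i j, i ≠ j →
    2 * S₁.card + R ≤ (J1.filter fun k => dl' V i j (β k) ≠ 0).card

theorem dl'_lf {M : ℕ} {S₀ W : Finset ℕ} (f : Fin M → ℕ → ZMod 2) {V : Fin M → Finset ℕ}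
    (hV : ∀ i, V i ⊆ W) (i j : Fin M) (q : ℕ) :
    dl' V i j (lf f (S₀ ∪ W) q) = df f V i j q := by
  have hs : symmDiff (V i) (V j) ⊆ S₀ ∪ W := by
    intro x hx
    rw [Finset.mem_symmDiff] at hx
    rw [Finset.mem_union]
    rcases hx with hx | hx
    · exact Or.inr (hV i hx.1)
    · exact Or.inr (hV j hx.1)
  unfold dl' df lf
  rw [sum_pt hs]
  rfl

theorem ndF_iff {A : ℕ → Prop} {ι : Type} [Fintype ι] {M : ℕ} {J1 : Finset ι} {S₀ W : Finset ℕ}
    (f : Fin M → ℕ → ZMod 2) {V : Fin M → Finset ℕ} {p : ι → ℕ} (R : ℕ)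
    (hV : ∀ i, V i ⊆ W)
    (hp : Function.Injective p) (hJ : ∀ i, A (p i) ↔ i ∈ J1) :
    NdF A R W f V S₀ (univ.image p) ↔ LF A R (S₀ ∪ W) V J1 (fun i => lf f (S₀ ∪ W) (p i)) := by
  unfold NdF LF
  have h1 : ((univ.image p).filter fun q => A q).card = J1.card := by
    have h2 : (univ.image p).filter (fun q => A q) = J1.image p := by
      ext q
      simp only [Finset.mem_filter, Finset.mem_image, Finset.mem_univ, true_and]
      constructor
      · rintro ⟨⟨i, rfl⟩, h⟩
        exact ⟨i, (hJ i).1 h, rfl⟩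
      · rintro ⟨i, hi, rfl⟩
        exact ⟨⟨i, rfl⟩, (hJ i).2 hi⟩
    rw [h2, Finset.card_image_of_injective _ hp]
  have h3 : ∀ i j, ((univ.image p).filter fun q => A q ∧ df f V i j q ≠ 0).card =
      (J1.filter fun k => dl' V i j (lf f (S₀ ∪ W) (p k)) ≠ 0).card := by
    intro i j
    have h4 : (univ.image p).filter (fun q => A q ∧ df f V i j q ≠ 0) =
        (J1.filter fun k => dl' V i j (lf f (S₀ ∪ W) (p k)) ≠ 0).image p := by
      ext q
      simp only [Finset.mem_filter, Finset.mem_image, Finset.mem_univ, true_and]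
      constructor
      · rintro ⟨⟨k, rfl⟩, h5, h6⟩
        refine ⟨k, ⟨(hJ k).1 h5, ?_⟩, rfl⟩
        rw [dl'_lf f hV]
        exact h6
      · rintro ⟨k, ⟨hk, h6⟩, rfl⟩
        refine ⟨⟨k, rfl⟩, (hJ k).2 hk, ?_⟩
        rw [dl'_lf f hV] at h6
        exact h6
    rw [h4, Finset.card_image_of_injective _ hp]
  rw [nd_iff (A := A) (fun _ => 0) hJ, h1]
  refine and_congr_right fun _ => and_congr_right fun _ => ?_
  constructor
  · intro h i j hne
    rw [← h3 i j]
    exact h i j hne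
  · intro h i j hne
    rw [h3 i j]
    exact h i j hne

/-- **The joint count in a box.** -/
theorem t_FBOX : S_FBOX := by
  intro hEQ A hA M ε hε
  obtain ⟨R₀, hLA⟩ := t_FLA M ε hε
  refine ⟨R₀, ?_⟩
  intro f ι _ _ J1 C X κ S₀ W Vm hVW hκ hCX hHB hS₁ hC hdis hne
  set S₁ := S₀ ∪ W with hS₁d
  set R : ℝ := 2 ^ (prs J1).card * (κ * ∏ j, (X j : ℝ)) with hR
  have hR0 : 0 ≤ R := mul_nonneg (by positivity)
    (mul_nonneg hκ (Finset.prod_nonneg fun j _ => by positivity))
  -- facts on tuples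
  have hinj : ∀ p ∈ Fintype.piFinset C, Function.Injective p := by
    intro p hp i j hij
    rw [Fintype.mem_piFinset] at hp
    by_contra hne
    have h1 := Finset.disjoint_left.1 (hdis i j hne) (hp i)
    rw [hij] at h1
    exact h1 (hp j)
  have hJ : ∀ p ∈ Fintype.piFinset C, ∀ i, A (p i) ↔ i ∈ J1 := by
    intro p hp i
    rw [Fintype.mem_piFinset] at hp
    exact (hC i _ (hp i)).2.2.2.symm
  have hd : ∀ p ∈ Fintype.piFinset C, ∀ i, p i ∉ S₁ := by
    intro p hp i
    rw [Fintype.mem_piFinset] at hp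
    exact (hC i _ (hp i)).2.2.1
  have hpr : ∀ p ∈ Fintype.piFinset C, ∀ i, (p i).Prime ∧ p i ≠ 2 := by
    intro p hp i
    rw [Fintype.mem_piFinset] at hp
    exact ⟨(hC i _ (hp i)).1, (hC i _ (hp i)).2.1⟩
  have hU1 : (ue A S₁).card ≤ S₁.card := by
    refine (Finset.card_le_univ _).trans ?_
    rw [Fintype.card_coe]
  have hgd : ∀ p ∈ Fintype.piFinset C, (GdF A f Vm (S₀ ∪ univ.image p) ↔
      ∀ i, GdM (pt S₁ (symmDiff S₀ (Vm i))) (ue A S₁) J1
      (fun u v : S₁ => nr u v) (fun (u : S₁) l => nr u (p l)) (fun k (u : S₁) => nr (p k) u)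
      (Pool.Agent.Y703.CQ.ext fun e : prs J1 => nr (p e.1.1) (p e.1.2))
      (fun u : S₁ => f i u) (fun k => f i (p k))) := by
    intro p hp
    have hP : ∀ x ∈ univ.image p, x ∉ S₀ ∪ W := by
      intro x hx
      rw [Finset.mem_image] at hx
      obtain ⟨i, -, rfl⟩ := hx
      exact hd p hp i
    unfold GdF
    refine forall_congr' fun i => ?_
    rw [sd_union (hVW i) hP]
    exact gdM_iff (f i) hA (sd_sub (hVW i)) (hinj p hp) (hpr p hp) (hd p hp) (hJ p hp)
  -- the part with given labels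
  have h1 : ∀ β : ι → Lf S₁ M, LF A R₀ S₁ Vm J1 β →
      |(((Fintype.piFinset C).filter fun p => (fun i => lf f S₁ (p i)) = β ∧
          GdF A f Vm (S₀ ∪ univ.image p)).card : ℝ) -
        c2 ^ M * (((Fintype.piFinset C).filter fun p =>
          (fun i => lf f S₁ (p i)) = β).card : ℝ)| ≤
      ε * (((Fintype.piFinset C).filter fun p => (fun i => lf f S₁ (p i)) = β).card : ℝ) + R := by
    intro β hβ
    by_cases hemp : ((Fintype.piFinset C).filter fun p => (fun i => lf f S₁ (p i)) = β) = ∅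
    · have he2 : ((Fintype.piFinset C).filter fun p => (fun i => lf f S₁ (p i)) = β ∧
          GdF A f Vm (S₀ ∪ univ.image p)) = ∅ := by
        rw [← Finset.filter_filter, hemp, Finset.filter_empty]
      rw [he2, hemp]
      simpa using hR0
    obtain ⟨p₀, hp₀⟩ := Finset.nonempty_iff_ne_empty.2 hemp
    rw [Finset.mem_filter] at hp₀
    obtain ⟨hp₀, hp₀β⟩ := hp₀
    set C' : ι → Finset ℕ := fun i => (C i).filter fun q => lf f S₁ q = β i with hC'
    have hpi : (Fintype.piFinset C).filter (fun p => (fun i => lf f S₁ (p i)) = β) =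
        Fintype.piFinset C' := by
      ext p
      simp only [Finset.mem_filter, Fintype.mem_piFinset, hC']
      constructor
      · rintro ⟨h2, h3⟩ i
        exact ⟨h2 i, congrFun h3 i⟩
      · intro h2
        exact ⟨fun i => (h2 i).1, funext fun i => (h2 i).2⟩
    have h2 := hLA S₁ ι (ue A S₁) J1 hne (fun i => pt S₁ (symmDiff S₀ (Vm i)))
      (fun u v => nr u v) (fun u l => (β l).1.1 u) (fun k u => (β k).1.2.1 u) (fun i u => f i u)
      (fun i k => (β k).2 i)
      (by
        intro u hu v hv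
        exact nr_symm (hS₁ u u.2).1 (hA _ ((mem_ue u).1 hu)) (hS₁ v v.2).1 (hS₁ v v.2).2)
      (by
        intro u hu k hk
        have h3 := congrFun hp₀β k
        rw [← h3]
        exact nr_symm (hS₁ u u.2).1 (hA _ ((mem_ue u).1 hu)) (hpr p₀ hp₀ k).1 (hpr p₀ hp₀ k).2)
      (by
        rintro w hw0 ⟨u, hu⟩
        have hu8 : A (u : ℕ) := by
          by_contra h8
          exact hu (hw0 u fun hu' => h8 ((mem_ue u).1 hu'))
        obtain ⟨k, hk, hk2⟩ := hβ.1 w ⟨u, hu8, hu⟩
        refine ⟨k, hk, ?_⟩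
        rw [Finset.sum_filter] at hk2
        intro h0
        apply hk2
        refine Eq.trans ?_ h0
        refine Finset.sum_congr rfl fun v _ => ?_
        split_ifs with h8
        · rfl
        · rw [hw0 v fun hv => h8 ((mem_ue v).1 hv), zero_mul])
      (by
        have h3 := hβ.2.1
        omega)
      (by
        intro i j hij
        have h3 := hβ.2.2 i j hij
        have h4 : (J1.filter fun k => (∑ u ∈ pt S₁ (symmDiff S₀ (Vm i)), (β k).1.2.1 u +
            (β k).2 i) + (∑ u ∈ pt S₁ (symmDiff S₀ (Vm j)), (β k).1.2.1 u + (β k).2 j) ≠ 0) =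
            (J1.filter fun k => dl' Vm i j (β k) ≠ 0) := by
          refine Finset.filter_congr fun k _ => ?_
          have h5 := add_pt (S₁ := S₁) (A := symmDiff S₀ (Vm i)) (B := symmDiff S₀ (Vm j))
            (fun u => (β k).1.2.1 u)
          rw [sd_sd] at h5
          have h6 : (∑ u ∈ pt S₁ (symmDiff S₀ (Vm i)), (β k).1.2.1 u +
            (β k).2 i) + (∑ u ∈ pt S₁ (symmDiff S₀ (Vm j)), (β k).1.2.1 u + (β k).2 j) =
            dl' Vm i j (β k) := by
            unfold dl'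
            rw [← h5]
            ring
          rw [h6]
        rw [h4]
        omega)
    obtain ⟨Q, hQ⟩ : ∃ Q : (prs J1 → ZMod 2) → Prop, ∀ α, Q α ↔ ∀ i,
      GdM (pt S₁ (symmDiff S₀ (Vm i))) (ue A S₁)
      J1 (fun u v : S₁ => nr u v) (fun (u : S₁) l => (β l).1.1 u)
      (fun k (u : S₁) => (β k).1.2.1 u)
      (Pool.Agent.Y703.CQ.ext α) (fun u : S₁ => f i u) (fun k => (β k).2 i) :=
      ⟨_, fun _ => Iff.rfl⟩
    have h3 := hEQ ι J1 C' X κ hκ
      (fun i => (Finset.card_le_card (Finset.filter_subset _ _)).trans (hCX i))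
      (HB_sub hHB fun i q => lf f S₁ q = β i) Q
    have h4 : ((Fintype.piFinset C).filter fun p => (fun i => lf f S₁ (p i)) = β ∧
        GdF A f Vm (S₀ ∪ univ.image p)) = ((Fintype.piFinset C').filter fun p =>
          Q fun e => nr (p e.1.1) (p e.1.2)) := by
      rw [← hpi, Finset.filter_filter]
      refine Finset.filter_congr fun p hp => ?_
      refine and_congr_right fun hl => ?_
      rw [hgd p hp, hQ]
      subst hl
      exact Iff.rfl
    have h5 : (((Fintype.piFinset C').card : ℕ) : ℝ) = ∏ j, ((C' j).card : ℝ) := by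
      rw [Fintype.card_piFinset]
      push_cast
      rfl
    rw [h4, hpi, h5]
    have h2' : |((univ.filter Q).card : ℝ) / 2 ^ (prs J1).card - c2 ^ M| ≤ ε := by
      rw [Finset.filter_congr fun α _ => hQ α]
      exact h2
    set n : ℝ := (((Fintype.piFinset C').filter fun p =>
          Q fun e => nr (p e.1.1) (p e.1.2)).card : ℝ) with hn
    set q : ℝ := ((univ.filter Q).card : ℝ) / 2 ^ (prs J1).card with hq
    set P : ℝ := ∏ j, ((C' j).card : ℝ) with hP
    have hP0 : 0 ≤ P := Finset.prod_nonneg fun j _ => by positivity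
    have h6 : |n - c2 ^ M * P| ≤ |n - q * P| + |q - c2 ^ M| * P := by
      have h7 : n - c2 ^ M * P = (n - q * P) + (q - c2 ^ M) * P := by ring
      have h8 : |(q - c2 ^ M) * P| = |q - c2 ^ M| * P := by rw [abs_mul, abs_of_nonneg hP0]
      rw [h7, ← h8]
      exact abs_add_le _ _
    have h7 : |q - c2 ^ M| * P ≤ ε * P := mul_le_mul_of_nonneg_right h2' hP0
    have h8 : |n - q * P| ≤ R := h3
    linarith
  -- sum over the labels
  set LL := univ.filter (fun β : ι → Lf S₁ M => LF A R₀ S₁ Vm J1 β) with hLL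
  have hfib : ∀ T : (ι → ℕ) → Prop,
      (((Fintype.piFinset C).filter fun p => NdF A R₀ W f Vm S₀ (univ.image p) ∧ T p).card : ℝ) =
      ∑ β ∈ LL, (((Fintype.piFinset C).filter fun p =>
        (fun i => lf f S₁ (p i)) = β ∧ T p).card : ℝ) := by
    intro T
    rw [Finset.card_eq_sum_card_fiberwise (f := fun (p : ι → ℕ) (i : ι) => lf f S₁ (p i))
      (t := LL) (by
        intro p hp
        rw [Finset.mem_coe, Finset.mem_filter] at hp
        rw [Finset.mem_coe, hLL, Finset.mem_filter]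
        exact ⟨Finset.mem_univ _, (ndF_iff f R₀ hVW (hinj p hp.1) (hJ p hp.1)).1 hp.2.1⟩)]
    push_cast
    refine Finset.sum_congr rfl fun β hβ => ?_
    rw [hLL, Finset.mem_filter] at hβ
    congr 2
    ext p
    simp only [Finset.mem_filter]
    constructor
    · rintro ⟨⟨h3, h4, h4'⟩, h5⟩
      exact ⟨h3, h5, h4'⟩
    · rintro ⟨h3, h4, h5⟩
      refine ⟨⟨h3, ?_, h5⟩, h4⟩
      refine (ndF_iff f R₀ hVW (hinj p h3) (hJ p h3)).2 ?_
      rw [← hS₁d, h4]
      exact hβ.2
  have hf1 := hfib fun p => GdF A f Vm (S₀ ∪ univ.image p)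
  have hf2 := hfib fun _ => True
  simp only [and_true] at hf2
  rw [hf1, hf2, Finset.mul_sum, ← Finset.sum_sub_distrib]
  refine (Finset.abs_sum_le_sum_abs _ _).trans ?_
  refine (Finset.sum_le_sum fun β hβ => h1 β (Finset.mem_filter.1 hβ).2).trans ?_
  rw [Finset.sum_add_distrib, ← Finset.mul_sum, Finset.sum_const, nsmul_eq_mul]
  have h5 : ((LL.card : ℕ) : ℝ) ≤ 2 ^ ((2 * S₁.card + 1 + M) * Fintype.card ι) := by
    have h6 : LL.card ≤ Fintype.card (ι → Lf S₁ M) := Finset.card_le_univ _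
    rw [Fintype.card_fun, Fintype.card_prod, Fintype.card_prod, Fintype.card_prod,
      Fintype.card_fun, Fintype.card_fun, ZMod.card,
      Fintype.card_coe, Fintype.card_fin, ← pow_succ, ← pow_add, ← pow_add, ← pow_mul] at h6
    have h7 : (S₁.card + (S₁.card + 1) + M) * Fintype.card ι =
        (2 * S₁.card + 1 + M) * Fintype.card ι := by
      ring
    rw [h7] at h6
    exact_mod_cast h6
  have h6 := mul_le_mul_of_nonneg_right h5 hR0
  rw [pow_add, mul_assoc]
  linarith

end Pool.Agent.V11291.GQ
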