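import Pool.Agent.Y362.CQ.FEW
import Pool.Agent.V11291.GQ.Stm

/-!
# General classes of primes: few sets have few large primes of a set of primes of positive density

Adapted from `Pool.Agent.Y362.JQ.FEW` (helper362).
-/

set_option autoImplicit false

open scoped Classical

namespace Pool.Agent.V11291.GQ

open Finset Filter
open Pool.Agent.Y703.CX (sm la eL zz S_SIE)
open Pool.Agent.Y495.CX.Few (PN euler prod_pos' le_of_mem_prod mert eL_tendsto log_small zz_ge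
  loglog_zz rpow_eq)
open Pool.Agent.Y362.CQ (moment)

variable {A B : ℕ → Prop} {α β : ℝ}

lemma pr (hD : Dat A B α β) {p : ℕ} (h : A p ∨ B p) : p.Prime := by
  rcases h with h | h
  · exact (hD.pa p h).1
  · exact (hD.pb p h).1

lemma SS_mem {X : ℕ} {S : Finset ℕ} (h : S ∈ SS A B X) :
    (∀ p ∈ S, A p ∨ B p) ∧ ∏ p ∈ S, p ≤ X := by
  unfold SS at h
  rw [mem_filter] at h
  exact h.2

/-- a family of sets of primes of the class with a condition on the large primes -/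
noncomputable def LL (A B : ℕ → Prop) (X : ℕ) (Q : Finset ℕ → Prop) : Finset (Finset ℕ) :=
  (range (X + 1)).powerset.filter fun S => (∀ p ∈ S, A p ∨ B p) ∧ ∏ p ∈ S, p ≤ X ∧ Q S

lemma mem_LL {X : ℕ} {Q : Finset ℕ → Prop} {S : Finset ℕ} :
    S ∈ LL A B X Q ↔ S ⊆ range (X + 1) ∧
      (∀ p ∈ S, A p ∨ B p) ∧ ∏ p ∈ S, p ≤ X ∧ Q S := by
  unfold LL
  rw [mem_filter, mem_powerset]

lemma LL_sub (hD : Dat A B α β) {X : ℕ} {Q : Finset ℕ → Prop}
    (hQ : ∀ S, Q S → ∀ T, T ⊆ S → Q T)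
    {S T : Finset ℕ} (hS : S ∈ LL A B X Q) (h : T ⊆ S) : T ∈ LL A B X Q := by
  rw [mem_LL] at hS ⊢
  obtain ⟨a0, a1, a2, a3⟩ := hS
  refine ⟨h.trans a0, fun p hp => a1 p (h hp), ?_, hQ S a3 T h⟩
  refine le_trans ?_ a2
  exact prod_le_prod_of_subset_of_one_le' h fun p hp _ => (pr hD (a1 p hp)).one_lt.le

lemma mem_LL_of (hD : Dat A B α β) {X : ℕ} {Q : Finset ℕ → Prop} {S : Finset ℕ}
    (hS : S ∈ SS A B X) (hQ : Q S) : S ∈ LL A B X Q := by
  obtain ⟨a1, a3⟩ := SS_mem hS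
  rw [mem_LL]
  refine ⟨?_, a1, a3, hQ⟩
  intro p hp
  rw [mem_range]
  have := le_of_mem_prod (fun p hp => pr hD (a1 p hp)) a3 hp
  omega

/-- sets with many small primes -/
lemma part1g (hD : Dat A B α β) {τ e : ℝ} (hτ : 0 < τ) (he : 0 < e) :
    ∃ C : ℝ, 0 ≤ C ∧ ∀ᶠ X : ℕ in atTop,
    (((SS A B X).filter fun S => τ * eL X < ((sm (zz X) S).card : ℝ)).card : ℝ) ≤
      C * X * Real.exp ((-1 + e) * eL X) := by
  obtain ⟨C, hC0, hC⟩ := mert
  set κ : ℝ := Real.exp (1 / τ) with hκ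
  have κ0 : 0 < κ := Real.exp_pos _
  refine ⟨Real.exp (κ * C), (Real.exp_pos _).le, ?_⟩
  filter_upwards [eL_tendsto.eventually (log_small (3 * κ) e he),
    eL_tendsto.eventually (eventually_ge_atTop 2)] with X h1 h2
  have h3 := moment X (zz X) (SS A B X)
    (fun S hS => ⟨fun p hp => pr hD ((SS_mem hS).1 p hp), (SS_mem hS).2⟩) κ κ0.le
  have h4 := hC (zz X) (zz_ge h2)
  have h5 := loglog_zz h2
  have h6 : (((SS A B X).filter fun S => τ * eL X < ((sm (zz X) S).card : ℝ)).card : ℝ) *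
      Real.exp (eL X) ≤ ∑ S ∈ SS A B X, κ ^ (sm (zz X) S).card := by
    rw [← nsmul_eq_mul, ← sum_const]
    refine le_trans ?_ (sum_le_sum_of_subset_of_nonneg
      (filter_subset (fun S => τ * eL X < ((sm (zz X) S).card : ℝ)) (SS A B X))
      fun S _ _ => by positivity)
    refine sum_le_sum fun S hS => ?_
    rw [mem_filter] at hS
    rw [hκ, ← Real.exp_nat_mul]
    apply Real.exp_le_exp.2
    have h7 : τ * eL X * (1 / τ) ≤ ((sm (zz X) S).card : ℝ) * (1 / τ) :=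
      mul_le_mul_of_nonneg_right hS.2.le (by positivity)
    have h8 : τ * eL X * (1 / τ) = eL X := by
      field_simp
    linarith
  have h7 := h6.trans h3
  have h8 : κ * ∑ p ∈ PN (zz X), (1 : ℝ) / p ≤ κ * C + e * eL X := by
    have : κ * ∑ p ∈ PN (zz X), (1 : ℝ) / p ≤ κ * (3 * Real.log (eL X) + C) :=
      mul_le_mul_of_nonneg_left (by linarith) κ0.le
    nlinarith
  have h9 : (X : ℝ) * Real.exp (κ * ∑ p ∈ PN (zz X), (1 : ℝ) / p) ≤
      X * (Real.exp (κ * C) * Real.exp (e * eL X)) := by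
    rw [← Real.exp_add]
    exact mul_le_mul_of_nonneg_left (Real.exp_le_exp.2 h8) (Nat.cast_nonneg _)
  have h10 := h7.trans h9
  have h11 : (Real.exp (κ * C) * X * Real.exp ((-1 + e) * eL X)) * Real.exp (eL X) =
      X * (Real.exp (κ * C) * Real.exp (e * eL X)) := by
    have : Real.exp (e * eL X) = Real.exp ((-1 + e) * eL X) * Real.exp (eL X) := by
      rw [← Real.exp_add]
      congr 1
      ring
    rw [this]
    ring
  rw [← h11] at h10
  exact le_of_mul_le_mul_right h10 (Real.exp_pos _)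

lemma mer_up {A' : ℕ → Prop} {α' : ℝ} (hm : Mer A' α') : ∃ C : ℝ, 0 ≤ C ∧ ∀ y : ℕ, 3 ≤ y →
    ∑ p ∈ (PN y).filter A', (1 : ℝ) / p ≤ α' * Real.log (Real.log y) + C := by
  obtain ⟨C, hC⟩ := hm
  refine ⟨|C|, abs_nonneg _, fun y hy => ?_⟩
  have h1 := (abs_le.1 (hC y hy)).2
  have h2 := le_abs_self C
  have h3 : ∑ p ∈ (PN y).filter A', (1 : ℝ) / p ≤
      ∑ p ∈ (range (y + 1)).filter (fun p => A' p), (1 : ℝ) / p := by
    refine sum_le_sum_of_subset_of_nonneg ?_ fun p _ _ => by positivity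
    intro p hp
    rw [mem_filter, mem_filter, mem_Icc] at hp
    rw [mem_filter, mem_range]
    exact ⟨by omega, hp.2⟩
  linarith

/-- the lower bound for the reciprocals -/
lemma mer_B {Z : ℕ → Prop} (hZ : ∀ p, Z p → p.Prime) {δ₀ C₀ : ℝ}
    (hm : ∀ y : ℕ, 3 ≤ y → δ₀ * Real.log (Real.log y) - C₀ ≤
      ∑ p ∈ (range (y + 1)).filter (fun p => Z p), (1 : ℝ) / p) :
    ∀ y : ℕ, 3 ≤ y →
    δ₀ * Real.log (Real.log y) - |C₀| ≤ ∑ p ∈ (PN y).filter Z, (1 : ℝ) / p := by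
  intro y hy
  have h1 := hm y hy
  have h2 := le_abs_self C₀
  have h3 : (range (y + 1)).filter (fun p => Z p) = (PN y).filter Z := by
    ext p
    rw [mem_filter, mem_filter, mem_filter, mem_Icc, mem_range]
    constructor
    · rintro ⟨a, c⟩
      exact ⟨⟨⟨(hZ p c).one_lt.le, by omega⟩, hZ p c⟩, c⟩
    · rintro ⟨a, c⟩
      exact ⟨by have := a.1.2; omega, c⟩
  rw [h3] at h1
  linarith

/-- the logarithmic density of a family -/
lemma LLB_sum (hD : Dat A B α β) {Z : ℕ → Prop} (hZ : ∀ p, Z p → A p ∨ B p) (X z : ℕ)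
    (Q : Finset ℕ → Prop) (w : ℕ → ℝ) (M : ℝ)
    (hw : ∀ p, 0 ≤ w p) (hM : 0 ≤ M) (h1w : ∀ S ∈ LL A B X Q, 1 ≤ M * ∏ p ∈ S, w p)
    (hw1 : ∀ p, w p ≤ 1) (hB : ∀ p, Z p → z < p → w p ≤ 1 / 4) :
    ∑ S ∈ LL A B X Q, (1 : ℝ) / ((∏ p ∈ S, p : ℕ) : ℝ) ≤ M *
      Real.exp (∑ p ∈ PN z, (1 : ℝ) / p + ∑ p ∈ (PN X).filter A, (1 : ℝ) / p +
        ∑ p ∈ (PN X).filter B, (1 : ℝ) / p -
        3 / 4 * ∑ p ∈ (PN X).filter Z, (1 : ℝ) / p) := by
  have h1 : ∀ S ∈ LL A B X Q, (1 : ℝ) / ((∏ p ∈ S, p : ℕ) : ℝ) ≤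
      M * ∏ p ∈ S, (w p * (1 / p)) := by
    intro S hS
    have h2 := h1w S hS
    have h3 : (0 : ℝ) ≤ ∏ p ∈ S, (1 : ℝ) / p := prod_nonneg fun p _ => by positivity
    have h4 : (1 : ℝ) / ((∏ p ∈ S, p : ℕ) : ℝ) = ∏ p ∈ S, (1 : ℝ) / p := by
      rw [prod_div_distrib, prod_const_one]
      push_cast
      rfl
    rw [h4, prod_mul_distrib]
    calc ∏ p ∈ S, (1 : ℝ) / p = 1 * ∏ p ∈ S, (1 : ℝ) / p := (one_mul _).symm
      _ ≤ (M * ∏ p ∈ S, w p) * ∏ p ∈ S, (1 : ℝ) / p :=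
          mul_le_mul_of_nonneg_right h2 h3
      _ = _ := by ring
  refine (sum_le_sum h1).trans ?_
  rw [← mul_sum]
  apply mul_le_mul_of_nonneg_left _ hM
  have hnn : ∀ p : ℕ, 0 ≤ w p * (1 / (p : ℝ)) := fun p => mul_nonneg (hw p) (by positivity)
  have h5 : ∑ S ∈ LL A B X Q, ∏ p ∈ S, (w p * (1 / (p : ℝ))) ≤
      ∑ S ∈ ((PN X).filter fun p => A p ∨ B p).powerset, ∏ p ∈ S, (w p * (1 / (p : ℝ))) := by
    refine sum_le_sum_of_subset_of_nonneg ?_ fun S _ _ => prod_nonneg fun p _ => hnn p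
    intro S hS
    rw [mem_LL] at hS
    rw [mem_powerset]
    intro p hp
    have h6 := pr hD (hS.2.1 p hp)
    rw [mem_filter, mem_filter, mem_Icc]
    exact ⟨⟨⟨h6.one_lt.le, le_of_mem_prod (fun p hp => pr hD (hS.2.1 p hp)) hS.2.2.1 hp⟩, h6⟩,
      hS.2.1 p hp⟩
  refine h5.trans ((euler _ _ fun p _ => hnn p).trans ?_)
  apply Real.exp_le_exp.2
  have hmono : ∀ p : ℕ, 0 ≤ (if p ≤ z then (1 : ℝ) / p else 0) +
      (if A p then (1 : ℝ) / p else 0) + (if B p then (1 : ℝ) / p else 0) -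
        3 / 4 * (if Z p then (1 : ℝ) / p else 0) := by
    intro p
    have hp0 : (0 : ℝ) ≤ 1 / p := by positivity
    have e0 : (0 : ℝ) ≤ if p ≤ z then (1 : ℝ) / p else 0 := by
      split_ifs
      · exact hp0
      · exact le_refl _
    have e2 : (0 : ℝ) ≤ if B p then (1 : ℝ) / p else 0 := by
      split_ifs
      · exact hp0
      · exact le_refl _
    have e2' : (0 : ℝ) ≤ if A p then (1 : ℝ) / p else 0 := by
      split_ifs
      · exact hp0
      · exact le_refl _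
    have e3 : 3 / 4 * (if Z p then (1 : ℝ) / p else 0) ≤ (if A p then (1 : ℝ) / p else 0) +
        (if B p then (1 : ℝ) / p else 0) := by
      by_cases hb : Z p
      · rw [if_pos hb]
        rcases hZ p hb with h | h
        · rw [if_pos h]
          linarith
        · rw [if_pos h]
          linarith
      · rw [if_neg hb, mul_zero]
        exact add_nonneg e2' e2
    linarith
  have h6 : ∀ p ∈ (PN X).filter fun p => A p ∨ B p, w p * (1 / (p : ℝ)) ≤
      (if p ≤ z then (1 : ℝ) / p else 0) +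
      (if A p then (1 : ℝ) / p else 0) + (if B p then (1 : ℝ) / p else 0) -
        3 / 4 * (if Z p then (1 : ℝ) / p else 0) := by
    intro p hp
    have hp0 : (0 : ℝ) ≤ 1 / p := by positivity
    have e2 : (0 : ℝ) ≤ if B p then (1 : ℝ) / p else 0 := by
      split_ifs
      · exact hp0
      · exact le_refl _
    have e0 : (0 : ℝ) ≤ if p ≤ z then (1 : ℝ) / p else 0 := by
      split_ifs
      · exact hp0
      · exact le_refl _
    have e1 : (0 : ℝ) ≤ if A p then (1 : ℝ) / p else 0 := by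
      split_ifs
      · exact hp0
      · exact le_refl _
    have e4 : (1 : ℝ) / p ≤ (if A p then (1 : ℝ) / p else 0) + (if B p then (1 : ℝ) / p else 0) := by
      rcases (mem_filter.1 hp).2 with h | h
      · rw [if_pos h]
        linarith
      · rw [if_pos h]
        linarith
    have hw' : w p * (1 / (p : ℝ)) ≤ 1 / p := by
      have := mul_le_mul_of_nonneg_right (hw1 p) hp0
      linarith
    by_cases hb : Z p
    · rw [if_pos hb]
      by_cases hpz : p ≤ z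
      · rw [if_pos hpz]
        linarith
      · have := mul_le_mul_of_nonneg_right (hB p hb (not_le.1 hpz)) hp0
        linarith
    · rw [if_neg hb, mul_zero, sub_zero]
      linarith
  refine (sum_le_sum h6).trans ?_
  refine (sum_le_sum_of_subset_of_nonneg (filter_subset _ _) fun p _ _ => hmono p).trans ?_
  rw [sum_sub_distrib, sum_add_distrib, sum_add_distrib, ← mul_sum, ← sum_filter, ← sum_filter,
    ← sum_filter, ← sum_filter]
  gcongr
  intro p hp
  rw [mem_filter, mem_filter, mem_Icc] at hp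
  rw [mem_filter, mem_Icc]
  exact ⟨⟨hp.1.1.1, hp.2⟩, hp.1.2⟩

/-- the condition on the large primes -/
def QQ (Z : ℕ → Prop) (η : ℝ) (X : ℕ) (S : Finset ℕ) : Prop :=
  ((la (zz X) S).filter fun p => Z p).card ≤ ⌊η * eL X⌋₊

lemma QQ_sub {Z : ℕ → Prop} {η : ℝ} {X : ℕ} : ∀ S, QQ Z η X S → ∀ T, T ⊆ S → QQ Z η X T := by
  intro S h T hT
  refine (card_le_card (filter_subset_filter _ ?_)).trans h
  unfold la
  exact filter_subset_filter _ hT

/-- sets with few large primes of the set -/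
lemma part4 (hs : S_SIE) (hD : Dat A B α β) {Z : ℕ → Prop} (hZ : ∀ p, Z p → A p ∨ B p)
    {δ₀ C₀ : ℝ} (hδ₀ : 0 < δ₀)
    (hb : ∀ y : ℕ, 3 ≤ y → δ₀ * Real.log (Real.log y) - C₀ ≤
      ∑ p ∈ (range (y + 1)).filter (fun p => Z p), (1 : ℝ) / p) {r : ℝ}
    (hr : -1 + (α + β) - δ₀ / 20 ≤ r) : ∃ C : ℝ, 0 ≤ C ∧ ∀ᶠ X : ℕ in atTop,
    ((LL A B X (QQ Z (δ₀ / 2) X)).card : ℝ) ≤ C * X * Real.exp (r * eL X) := by
  obtain ⟨C, hC0, hC⟩ := mert
  obtain ⟨C₁, hC₁0, hC₁⟩ := mer_up hD.ma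
  obtain ⟨C₂, hC₂0, hC₂⟩ := mer_up hD.mb
  have hC₃ := mer_B (fun p hp => pr hD (hZ p hp)) hb
  obtain ⟨C', hC'1, hC'⟩ := hs
  have hl4 : Real.log 4 / 2 < 3 / 4 - 1 / 20 := by
    have h1 : (4 : ℝ) = 2 ^ 2 := by norm_num
    rw [h1, Real.log_pow]
    have := Real.log_two_lt_d9
    push_cast
    linarith
  refine ⟨C' * Real.exp (C + C₁ + C₂ + |C₀|), by positivity, ?_⟩
  set η : ℝ := δ₀ * (3 / 4 - 1 / 20 - Real.log 4 / 2) with hη
  have hε : 0 < η := mul_pos hδ₀ (by linarith)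
  filter_upwards [eL_tendsto.eventually (log_small 3 _ hε),
    eL_tendsto.eventually (eventually_ge_atTop 2), eventually_ge_atTop 3] with X h1 h2 h3
  set l := eL X with hl
  have h4 := hC (zz X) (zz_ge h2)
  have h5 := loglog_zz h2
  have h6 := hC₁ X h3
  have h6' := hC₂ X h3
  have h6'' := hC₃ X h3
  rw [← hl] at h5
  change _ ≤ α * l + C₁ at h6
  change _ ≤ β * l + C₂ at h6'
  change δ₀ * l - |C₀| ≤ _ at h6''
  have h7 := hC' X (LL A B X (QQ Z (δ₀ / 2) X)) (by omega)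
    (fun S hS => ⟨fun p hp => pr hD ((mem_LL.1 hS).2.1 p hp), (mem_LL.1 hS).2.2.1⟩)
    (fun S hS T hT => LL_sub hD QQ_sub hS hT)
  have h1w : ∀ S ∈ LL A B X (QQ Z (δ₀ / 2) X), 1 ≤ Real.exp (Real.log 4 * (δ₀ / 2 * l)) *
      ∏ p ∈ S, (if ¬ p ≤ zz X ∧ Z p then (1 / 4 : ℝ) else 1) := by
    intro S hS
    rw [mem_LL] at hS
    rw [← prod_filter, prod_const]
    have g1 : (S.filter fun p => ¬ p ≤ zz X ∧ Z p).card ≤
        ⌊δ₀ / 2 * l⌋₊ := by
      refine (card_le_card ?_).trans hS.2.2.2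
      intro p hp
      rw [mem_filter] at hp
      unfold la
      rw [mem_filter, mem_filter]
      exact ⟨⟨hp.1, hp.2.1⟩, hp.2.2⟩
    have g2 : (1 / 4 : ℝ) ^ ⌊δ₀ / 2 * l⌋₊ ≤ (1 / 4 : ℝ) ^
        (S.filter fun p => ¬ p ≤ zz X ∧ Z p).card :=
      pow_le_pow_of_le_one (by norm_num) (by norm_num) g1
    have g3 : Real.exp (-(Real.log 4 * (δ₀ / 2 * l))) ≤ (1 / 4 : ℝ) ^ ⌊δ₀ / 2 * l⌋₊ := by
      have e1 : (1 / 4 : ℝ) = Real.exp (-Real.log 4) := by
        rw [Real.exp_neg, Real.exp_log (by norm_num)]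
        norm_num
      rw [e1, ← Real.exp_nat_mul]
      apply Real.exp_le_exp.2
      have e2 : ((⌊δ₀ / 2 * l⌋₊ : ℕ) : ℝ) ≤ δ₀ / 2 * l := Nat.floor_le (by positivity)
      have e4 : 0 ≤ Real.log 4 := Real.log_nonneg (by norm_num)
      have e5 := mul_le_mul_of_nonneg_right e2 e4
      linarith
    calc (1 : ℝ) = Real.exp (Real.log 4 * (δ₀ / 2 * l)) *
          Real.exp (-(Real.log 4 * (δ₀ / 2 * l))) := by
          rw [← Real.exp_add, add_neg_cancel, Real.exp_zero]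
      _ ≤ _ := mul_le_mul_of_nonneg_left (g3.trans g2) (Real.exp_pos _).le
  have h8 := LLB_sum hD hZ X (zz X) (QQ Z (δ₀ / 2) X)
    (fun p => if ¬ p ≤ zz X ∧ Z p then (1 / 4 : ℝ) else 1)
    (Real.exp (Real.log 4 * (δ₀ / 2 * l)))
    (fun p => by split_ifs <;> norm_num) (Real.exp_pos _).le h1w
    (fun p => by split_ifs <;> norm_num)
    (fun p hb hz => by
      rw [if_pos ⟨not_le.2 hz, hb⟩])
  have hlX : Real.log X = Real.exp l := by
    have := rpow_eq (X := X) h2 1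
    rwa [Real.rpow_one, one_mul] at this
  rw [hlX] at h7
  have h12 : Real.exp (Real.log 4 * (δ₀ / 2 * l)) * Real.exp (∑ p ∈ PN (zz X), (1 : ℝ) / p +
      ∑ p ∈ (PN X).filter A, (1 : ℝ) / p + ∑ p ∈ (PN X).filter B, (1 : ℝ) / p -
        3 / 4 * ∑ p ∈ (PN X).filter Z, (1 : ℝ) / p) ≤
      Real.exp (C + C₁ + C₂ + |C₀|) * Real.exp ((r + 1) * l) := by
    rw [← Real.exp_add, ← Real.exp_add]
    apply Real.exp_le_exp.2
    have e1 : ∑ p ∈ PN (zz X), (1 : ℝ) / p ≤ 3 * Real.log l + C := by linarith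
    have e2 : (-1 + (α + β) - δ₀ / 20) * l ≤ r * l :=
      mul_le_mul_of_nonneg_right hr (by linarith)
    have e3 : η * l = 3 / 4 * (δ₀ * l) - δ₀ / 20 * l - Real.log 4 * (δ₀ / 2 * l) := by
      rw [hη]; ring
    have e5 : 0 ≤ |C₀| := abs_nonneg _
    have e6 : 3 / 4 * (δ₀ * l) - 3 / 4 * |C₀| ≤
        3 / 4 * ∑ p ∈ (PN X).filter Z, (1 : ℝ) / p := by linarith
    have e7 : (-1 + (α + β) - δ₀ / 20) * l = -l + α * l + β * l - δ₀ / 20 * l := by ring
    have e8 : (r + 1) * l = r * l + l := by ring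
    linarith
  have h13 : ((LL A B X (QQ Z (δ₀ / 2) X)).card : ℝ) * Real.exp l ≤
      C' * X * (Real.exp (C + C₁ + C₂ + |C₀|) * Real.exp ((r + 1) * l)) := by
    refine h7.trans ?_
    exact mul_le_mul_of_nonneg_left (h8.trans h12) (by positivity)
  have h14 : (C' * Real.exp (C + C₁ + C₂ + |C₀|) * X * Real.exp (r * l)) * Real.exp l =
      C' * X * (Real.exp (C + C₁ + C₂ + |C₀|) * Real.exp ((r + 1) * l)) := by
    have : Real.exp ((r + 1) * l) = Real.exp (r * l) * Real.exp l := by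
      rw [← Real.exp_add]
      congr 1
      ring
    rw [this]
    ring
  rw [← h14] at h13
  exact le_of_mul_le_mul_right h13 (Real.exp_pos _)

/-- few sets have few large primes of a set of primes of positive density -/
theorem few_of (hs : S_SIE) (hD : Dat A B α β) {Z : ℕ → Prop} (hZ : ∀ p, Z p → A p ∨ B p)
    {δ₁ C₀ : ℝ} (hδ₁ : 0 < δ₁)
    (hb₁ : ∀ y : ℕ, 3 ≤ y → δ₁ * Real.log (Real.log y) - C₀ ≤
      ∑ p ∈ (range (y + 1)).filter (fun p => Z p), (1 : ℝ) / p) (R : ℕ) :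
    ∃ (δ C : ℝ) (X₀ : ℕ), 0 < δ ∧ 0 ≤ C ∧ ∀ X : ℕ, X₀ ≤ X →
    (((SS A B X).filter fun S => ((la (zz X) S).filter fun p => Z p).card <
        2 * (sm (zz X) S).card + R).card : ℝ) ≤
      C * X * (Real.log X) ^ (-1 + (α + β) - δ : ℝ) := by
  have hαβ : 0 < α + β := add_pos hD.a0 hD.b0
  set δ₀ : ℝ := min δ₁ (α + β) with hδd
  have hδ₀ : 0 < δ₀ := lt_min hδ₁ hαβ
  have hδ1 : δ₀ ≤ α + β := min_le_right _ _
  have hb : ∀ y : ℕ, 3 ≤ y → δ₀ * Real.log (Real.log y) - C₀ ≤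
      ∑ p ∈ (range (y + 1)).filter (fun p => Z p), (1 : ℝ) / p := by
    intro y hy
    refine le_trans ?_ (hb₁ y hy)
    have h1 : 0 ≤ Real.log (Real.log y) := by
      apply Real.log_nonneg
      have h2 : Real.exp 1 ≤ y := by
        have h3 := Real.exp_one_lt_d9
        have h4 : (3 : ℝ) ≤ y := by exact_mod_cast hy
        linarith
      rw [Real.le_log_iff_exp_le (by positivity)]
      exact h2
    have h2 := mul_le_mul_of_nonneg_right (min_le_left δ₁ (α + β)) h1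
    linarith
  set r : ℝ := -1 + (α + β) - δ₀ / 20 with hr
  obtain ⟨C₁, hC₁, h1⟩ := part1g hD (τ := δ₀ / 5) (e := (α + β) / 2) (by positivity) (by positivity)
  obtain ⟨C₃, hC₃, h3⟩ := part4 hs hD hZ hδ₀ hb (r := r) le_rfl
  have h4 := (h1.and h3).and (eL_tendsto.eventually
    (eventually_ge_atTop (max 2 ((R : ℝ) * (10 / δ₀)))))
  rw [eventually_atTop] at h4
  obtain ⟨X₀, hX₀⟩ := h4
  refine ⟨δ₀ / 20, C₁ + C₃, X₀, by positivity, by positivity, fun X hX => ?_⟩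
  obtain ⟨⟨h5, h7⟩, h8⟩ := hX₀ X hX
  have h9 : 2 ≤ eL X := (le_max_left _ _).trans h8
  have h10 : (R : ℝ) ≤ δ₀ / 10 * eL X := by
    have h := (le_max_right _ _).trans h8
    have h' := mul_le_mul_of_nonneg_left h (by positivity : (0 : ℝ) ≤ δ₀ / 10)
    have e : δ₀ / 10 * ((R : ℝ) * (10 / δ₀)) = R := by
      field_simp
    linarith
  rw [rpow_eq h9]
  have h11 : ((SS A B X).filter fun S => ((la (zz X) S).filter fun p => Z p).card <
        2 * (sm (zz X) S).card + R) ⊆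
      ((SS A B X).filter fun S => δ₀ / 5 * eL X < ((sm (zz X) S).card : ℝ)) ∪
        LL A B X (QQ Z (δ₀ / 2) X) := by
    intro S hS
    rw [mem_filter] at hS
    rw [mem_union, mem_filter]
    by_cases hc : δ₀ / 5 * eL X < ((sm (zz X) S).card : ℝ)
    · exact Or.inl ⟨hS.1, hc⟩
    · right
      rw [not_lt] at hc
      refine mem_LL_of hD hS.1 ?_
      apply Nat.le_floor
      have h12 : ((((la (zz X) S).filter fun p => Z p).card : ℕ) : ℝ) ≤
          2 * ((sm (zz X) S).card : ℝ) + R := by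
        exact_mod_cast hS.2.le
      linarith
  have h12 : (((SS A B X).filter fun S => ((la (zz X) S).filter fun p => Z p).card <
        2 * (sm (zz X) S).card + R).card : ℝ) ≤
      (((SS A B X).filter fun S => δ₀ / 5 * eL X < ((sm (zz X) S).card : ℝ)).card : ℝ) +
      ((LL A B X (QQ Z (δ₀ / 2) X)).card : ℝ) := by
    exact_mod_cast (card_le_card h11).trans (card_union_le _ _)
  have h13 : C₁ * X * Real.exp ((-1 + (α + β) / 2) * eL X) ≤ C₁ * X * Real.exp (r * eL X) := by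
    apply mul_le_mul_of_nonneg_left _ (by positivity)
    apply Real.exp_le_exp.2
    apply mul_le_mul_of_nonneg_right _ (by linarith)
    linarith
  refine h12.trans ((add_le_add (h5.trans h13) h7).trans (le_of_eq ?_))
  ring

theorem t_FFEW : S_FFEW := by
  intro hs A B α β hD b δ₀ C₀ R hδ₀ hb
  obtain ⟨δ, C, X₀, h1, -, h2⟩ := few_of hs hD (Z := fun p => A p ∧ b p ≠ 0) (C₀ := C₀)
    (fun p hp => Or.inl hp.1) hδ₀ (fun y hy => by convert hb y hy) R
  refine ⟨δ, C, X₀, h1, fun X hX => ?_⟩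
  convert h2 X hX

theorem t_FEW : S_FEW := by
  intro hs A B α β hD V
  obtain ⟨Ca, hCa⟩ := hD.ma
  obtain ⟨Cb, hCb⟩ := hD.mb
  obtain ⟨δ₁, C₁, X₁, a1, a2, a3⟩ := few_of hs hD (Z := A) (fun p hp => Or.inl hp) (C₀ := Ca) hD.a0
    (fun y hy => by have := (abs_le.1 (hCa y hy)).1; linarith) (V + 1)
  obtain ⟨δ₂, C₂, X₂, b1, b2, b3⟩ := few_of hs hD (Z := B) (fun p hp => Or.inr hp) (C₀ := Cb) hD.b0
    (fun y hy => by have := (abs_le.1 (hCb y hy)).1; linarith) 1
  refine ⟨min δ₁ δ₂, C₁ + C₂, max (max X₁ X₂) 3, lt_min a1 b1, fun X hX => ?_⟩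
  have g1 := a3 X (((le_max_left _ _).trans (le_max_left _ _)).trans hX)
  have g2 := b3 X (((le_max_right _ _).trans (le_max_left _ _)).trans hX)
  have hX3 : 3 ≤ X := (le_max_right _ _).trans hX
  have hl : 1 ≤ Real.log X := by
    have h3 := Real.exp_one_lt_d9
    have h4 : (3 : ℝ) ≤ X := by exact_mod_cast hX3
    rw [Real.le_log_iff_exp_le (by positivity)]
    linarith
  have hX0 : (0 : ℝ) ≤ X := Nat.cast_nonneg _
  have e1 : (Real.log X) ^ (-1 + (α + β) - δ₁ : ℝ) ≤ (Real.log X) ^ (-1 + (α + β) - min δ₁ δ₂ : ℝ) :=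
    Real.rpow_le_rpow_of_exponent_le hl (by have := min_le_left δ₁ δ₂; linarith)
  have e2 : (Real.log X) ^ (-1 + (α + β) - δ₂ : ℝ) ≤ (Real.log X) ^ (-1 + (α + β) - min δ₁ δ₂ : ℝ) :=
    Real.rpow_le_rpow_of_exponent_le hl (by have := min_le_right δ₁ δ₂; linarith)
  have g3 := g1.trans (mul_le_mul_of_nonneg_left e1 (mul_nonneg a2 hX0))
  have g4 := g2.trans (mul_le_mul_of_nonneg_left e2 (mul_nonneg b2 hX0))
  have h11 : ((SS A B X).filter fun S => ((la (zz X) S).filter fun p => A p).card ≤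
      2 * (sm (zz X) S).card + V ∨ ∀ p ∈ la (zz X) S, A p) ⊆
      ((SS A B X).filter fun S => ((la (zz X) S).filter fun p => A p).card <
        2 * (sm (zz X) S).card + (V + 1)) ∪
      ((SS A B X).filter fun S => ((la (zz X) S).filter fun p => B p).card <
        2 * (sm (zz X) S).card + 1) := by
    intro S hS
    rw [mem_filter] at hS
    rw [mem_union, mem_filter, mem_filter]
    rcases hS.2 with h | h
    · exact Or.inl ⟨hS.1, by omega⟩
    · refine Or.inr ⟨hS.1, ?_⟩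
      have h5 : (la (zz X) S).filter (fun p => B p) = ∅ := by
        rw [filter_eq_empty_iff]
        exact fun p hp => hD.dj p (h p hp)
      rw [h5, card_empty]
      omega
  have h12 := (card_le_card h11).trans (card_union_le _ _)
  have h13 : (((SS A B X).filter fun S => ((la (zz X) S).filter fun p => A p).card ≤
      2 * (sm (zz X) S).card + V ∨ ∀ p ∈ la (zz X) S, A p).card : ℝ) ≤
      (((SS A B X).filter fun S => ((la (zz X) S).filter fun p => A p).card <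
        2 * (sm (zz X) S).card + (V + 1)).card : ℝ) +
      (((SS A B X).filter fun S => ((la (zz X) S).filter fun p => B p).card <
        2 * (sm (zz X) S).card + 1).card : ℝ) := by exact_mod_cast h12
  refine h13.trans ((add_le_add g3 g4).trans (le_of_eq ?_))
  ring

end Pool.Agent.V11291.GQ
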