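import Pool.Agent.Y703.CQ.Key
import Pool.Agent.V11291.GQ.Stm

/-!
# General classes of primes: the sum over the boxes

Adapted from `Pool.Agent.Y703.CQ.Key`, `Pool.Agent.Y687.JQ.KeyC` (helper703, helper302, helper697).
-/

set_option autoImplicit false

open scoped Classical

namespace Pool.Agent.V11291.GQ

open Finset
open Pool.Agent.Y703.CX (sm la jj XX)
open Pool.Agent.Y703.CQ (nr sg c2 prs HB ext S_EQ)
open Pool.Agent.Y703.CQ.K302 (le_XX sm_la_card sm_la_prod root12 prs_card card_sub TT mem_TT harm_TT)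

/-- the class of a large prime -/
noncomputable def ph (A : ℕ → Prop) (H p : ℕ) : ℕ × ℕ := (jj H p, if A p then 1 else 0)

/-- the key of a set -/
noncomputable def ky (A : ℕ → Prop) (z H : ℕ) (S : Finset ℕ) : Finset ℕ × Finset (ℕ × ℕ) :=
  (sm z S, (la z S).image (ph A H))

/-- the keys which occur -/
structure KP (A B : ℕ → Prop) (X z H k V : ℕ) (S₀ : Finset ℕ) (J : Finset (ℕ × ℕ)) : Prop where
  cl : ∀ q ∈ S₀, A q ∨ B q
  le : ∀ q ∈ S₀, q ≤ z
  inj : Set.InjOn Prod.fst (J : Set (ℕ × ℕ))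
  card : S₀.card + J.card ≤ k
  prod : (∏ p ∈ S₀, p) * ∏ e ∈ J, XX H e.1 ≤ X
  few : 2 * S₀.card + V < (J.filter fun e => e.2 = 1).card
  ine : ∃ e ∈ J, e.2 ≠ 1

theorem ph_one {A : ℕ → Prop} {H p : ℕ} : (ph A H p).2 = 1 ↔ A p := by
  unfold ph
  by_cases h : A p
  · simp [h]
  · simp [h]

theorem cl_prime {A B : ℕ → Prop} {α β : ℝ} (hD : Dat A B α β) {q : ℕ} (h : A q ∨ B q) :
    q.Prime := by
  rcases h with h | h
  · exact (hD.pa q h).1
  · exact (hD.pb q h).1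

theorem cl_ne {A B : ℕ → Prop} {α β : ℝ} (hD : Dat A B α β) {q : ℕ} (h : A q ∨ B q) : q ≠ 2 := by
  rcases h with h | h
  · have := (hD.pa q h).2
    omega
  · exact (hD.pb q h).2

theorem rr_iff {A B : ℕ → Prop} {α β : ℝ} (hD : Dat A B α β) {X z H k V : ℕ} (hH : 1 ≤ H)
    {S : Finset ℕ} (hS : ∀ q ∈ S, A q ∨ B q)
    (hi : Set.InjOn (ph A H) (la z S : Set ℕ)) :
    S ∈ RR A B X z H k V ↔ KP A B X z H k V (ky A z H S).1 (ky A z H S).2 := by
  set J := (la z S).image (ph A H) with hJ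
  have hky : ky A z H S = (sm z S, J) := rfl
  rw [hky]
  have f2 : J.card = (la z S).card := Finset.card_image_of_injOn hi
  have f3 : (J.filter fun e => e.2 = 1).card = ((la z S).filter fun p => A p).card := by
    rw [hJ, Finset.filter_image, Finset.card_image_of_injOn]
    · congr 1
      refine Finset.filter_congr fun p _ => ?_
      exact ph_one
    · intro a ha b hb hab
      exact hi (Finset.mem_coe.2 (Finset.mem_filter.1 (Finset.mem_coe.1 ha)).1)
        (Finset.mem_coe.2 (Finset.mem_filter.1 (Finset.mem_coe.1 hb)).1) hab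
  have f8 : ∏ e ∈ J, XX H e.1 = ∏ p ∈ la z S, XX H (jj H p) := by
    rw [hJ, Finset.prod_image hi]
    rfl
  have f9 : Set.InjOn (jj H) (la z S : Set ℕ) ↔ Set.InjOn Prod.fst (J : Set (ℕ × ℕ)) := by
    constructor
    · intro h a ha b hb hab
      rw [Finset.mem_coe, hJ, Finset.mem_image] at ha hb
      obtain ⟨p, hp, rfl⟩ := ha
      obtain ⟨q, hq, rfl⟩ := hb
      rw [h (Finset.mem_coe.2 hp) (Finset.mem_coe.2 hq) hab]
    · intro h p hp q hq hpq
      exact hi hp hq (h (Finset.mem_coe.2 (Finset.mem_image_of_mem _ (Finset.mem_coe.1 hp)))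
        (Finset.mem_coe.2 (Finset.mem_image_of_mem _ (Finset.mem_coe.1 hq))) hpq)
  have f10 : (∃ p ∈ la z S, ¬ A p) ↔ ∃ e ∈ J, e.2 ≠ 1 := by
    constructor
    · rintro ⟨p, hp, h⟩
      exact ⟨ph A H p, Finset.mem_image_of_mem _ hp, fun h' => h (ph_one.1 h')⟩
    · rintro ⟨e, he, h⟩
      rw [hJ, Finset.mem_image] at he
      obtain ⟨p, hp, rfl⟩ := he
      exact ⟨p, hp, fun h' => h (ph_one.2 h')⟩
  have hsm : sm z S ⊆ S := Finset.filter_subset _ _
  have hla : la z S ⊆ S := Finset.filter_subset _ _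
  constructor
  · intro h
    unfold RR at h
    rw [Finset.mem_filter] at h
    obtain ⟨h1, h2, h3, h4, h5, h5'⟩ := h
    unfold SS at h1
    rw [Finset.mem_filter] at h1
    obtain ⟨-, h6, h10⟩ := h1
    refine ⟨fun q hq => h6 q (hsm hq), fun q hq => (Finset.mem_filter.1 hq).2,
      f9.1 h2, ?_, ?_, ?_, f10.1 h5'⟩
    · rw [f2, sm_la_card]
      exact h3
    · rw [f8]
      exact h4
    · rw [f3]
      exact h5
  · rintro ⟨k1, k2, k7, k8, k9, k10, k11⟩
    have hprod : ∏ p ∈ S, p ≤ X := by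
      rw [← sm_la_prod z S]
      refine le_trans (Nat.mul_le_mul_left _ ?_) k9
      rw [f8]
      refine Finset.prod_le_prod' fun p hp => le_XX hH (cl_prime hD (hS p (hla hp))).one_le
    unfold RR SS
    rw [Finset.mem_filter, Finset.mem_filter, Finset.mem_powerset]
    refine ⟨⟨?_, hS, hprod⟩, f9.2 k7, ?_, ?_, ?_, f10.2 k11⟩
    · intro q hq
      rw [Finset.mem_range]
      have h1 : q ∣ ∏ p ∈ S, p := Finset.dvd_prod_of_mem _ hq
      have h2 : 0 < ∏ p ∈ S, p := Finset.prod_pos fun p hp => (cl_prime hD (hS p hp)).pos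
      have := Nat.le_of_dvd h2 h1
      omega
    · rw [← sm_la_card z S, ← f2]
      exact k8
    · rw [← f8]
      exact k9
    · rw [← f3]
      exact k10

/-- the primes of a block -/
noncomputable def CC (A B : ℕ → Prop) (z H : ℕ) (e : ℕ × ℕ) : Finset ℕ :=
  (Icc 1 (XX H e.1)).filter fun p => (A p ∨ B p) ∧ z < p ∧ ph A H p = e

theorem mem_CC {A B : ℕ → Prop} {α β : ℝ} (hD : Dat A B α β) {z H : ℕ} (hH : 1 ≤ H) {e : ℕ × ℕ} {p : ℕ} :
    p ∈ CC A B z H e ↔ (A p ∨ B p) ∧ z < p ∧ ph A H p = e := by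
  unfold CC
  rw [Finset.mem_filter, Finset.mem_Icc]
  constructor
  · exact fun h => h.2
  · intro h
    refine ⟨⟨(cl_prime hD h.1).one_le, ?_⟩, h⟩
    have := le_XX hH (cl_prime hD h.1).one_le
    have h2 : jj H p = e.1 := congrArg Prod.fst h.2.2
    rw [h2] at this
    exact this

section fill
variable {A B : ℕ → Prop} {α β : ℝ} {z H : ℕ} {S₀ : Finset ℕ} {J : Finset (ℕ × ℕ)} {p : J → ℕ}

theorem sm_fill (hD : Dat A B α β) (hH : 1 ≤ H) (h₀ : ∀ q ∈ S₀, q ≤ z) (hp : ∀ i : J, p i ∈ CC A B z H i) :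
    sm z (S₀ ∪ univ.image p) = S₀ := by
  ext q
  unfold sm
  rw [Finset.mem_filter, Finset.mem_union, Finset.mem_image]
  constructor
  · rintro ⟨h | ⟨i, -, rfl⟩, h2⟩
    · exact h
    · have := ((mem_CC hD hH).1 (hp i)).2.1
      omega
  · exact fun h => ⟨Or.inl h, h₀ q h⟩

theorem la_fill (hD : Dat A B α β) (hH : 1 ≤ H) (h₀ : ∀ q ∈ S₀, q ≤ z) (hp : ∀ i : J, p i ∈ CC A B z H i) :
    la z (S₀ ∪ univ.image p) = univ.image p := by
  ext q
  unfold la
  rw [Finset.mem_filter, Finset.mem_union, Finset.mem_image]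
  constructor
  · rintro ⟨h | h, h2⟩
    · exact absurd (h₀ q h) h2
    · exact h
  · rintro ⟨i, -, rfl⟩
    have := ((mem_CC hD hH).1 (hp i)).2.1
    exact ⟨Or.inr ⟨i, Finset.mem_univ _, rfl⟩, by omega⟩

theorem ph_fill (hD : Dat A B α β) (hH : 1 ≤ H) (hp : ∀ i : J, p i ∈ CC A B z H i) (i : J) : ph A H (p i) = i :=
  ((mem_CC hD hH).1 (hp i)).2.2

theorem im_fill (hD : Dat A B α β) (hH : 1 ≤ H) (hp : ∀ i : J, p i ∈ CC A B z H i) :
    (univ.image p).image (ph A H) = J := by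
  ext k
  rw [Finset.mem_image]
  constructor
  · rintro ⟨q, hq, rfl⟩
    rw [Finset.mem_image] at hq
    obtain ⟨i, -, rfl⟩ := hq
    rw [ph_fill hD hH hp]
    exact i.2
  · intro hk
    exact ⟨p ⟨k, hk⟩, Finset.mem_image_of_mem _ (Finset.mem_univ _), ph_fill hD hH hp ⟨k, hk⟩⟩

theorem ky_fill (hD : Dat A B α β) (hH : 1 ≤ H) (h₀ : ∀ q ∈ S₀, q ≤ z) (hp : ∀ i : J, p i ∈ CC A B z H i) :
    ky A z H (S₀ ∪ univ.image p) = (S₀, J) := by
  unfold ky
  rw [sm_fill hD hH h₀ hp, la_fill hD hH h₀ hp, im_fill hD hH hp]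

theorem inj_fill (hD : Dat A B α β) (hH : 1 ≤ H) (h₀ : ∀ q ∈ S₀, q ≤ z) (hp : ∀ i : J, p i ∈ CC A B z H i) :
    Set.InjOn (ph A H) (la z (S₀ ∪ univ.image p) : Set ℕ) := by
  rw [la_fill hD hH h₀ hp]
  intro a ha b hb hab
  rw [Finset.mem_coe, Finset.mem_image] at ha hb
  obtain ⟨i, -, rfl⟩ := ha
  obtain ⟨j, -, rfl⟩ := hb
  rw [ph_fill hD hH hp, ph_fill hD hH hp] at hab
  rw [Subtype.ext hab]

end fill

theorem rr_facts {A B : ℕ → Prop} {X z H k V : ℕ} {S : Finset ℕ} (hS : S ∈ RR A B X z H k V) :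
    (∀ q ∈ S, A q ∨ B q) ∧ Set.InjOn (jj H) (la z S : Set ℕ) ∧ ∏ p ∈ S, p ≤ X := by
  unfold RR SS at hS
  rw [Finset.mem_filter, Finset.mem_filter] at hS
  exact ⟨hS.1.2.1, hS.2.1, hS.1.2.2⟩

theorem inj_ph {A : ℕ → Prop} {H : ℕ} {E : Set ℕ} (h : Set.InjOn (jj H) E) :
    Set.InjOn (ph A H) E :=
  fun _ ha _ hb hab => h ha hb (congrArg Prod.fst hab)

theorem key_bij {A B : ℕ → Prop} {α β : ℝ} (hD : Dat A B α β) {X z H k V : ℕ} (hH : 1 ≤ H) {S₀ : Finset ℕ}
    {J : Finset (ℕ × ℕ)}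
    (hkey : KP A B X z H k V S₀ J) (P : Finset ℕ → Prop) [DecidablePred P] [DecidableEq J] :
    ((Fintype.piFinset fun i : J => CC A B z H i).filter fun p => P (S₀ ∪ univ.image p)).card =
      ((RR A B X z H k V).filter fun S => ky A z H S = (S₀, J) ∧ P S).card := by
  have h₀ := hkey.le
  apply Finset.card_bij (fun (p : J → ℕ) _ => S₀ ∪ univ.image p)
  · intro p hp
    rw [Finset.mem_filter, Fintype.mem_piFinset] at hp
    obtain ⟨hp, hP⟩ := hp
    have hk := ky_fill hD hH h₀ hp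
    rw [Finset.mem_filter]
    refine ⟨?_, hk, hP⟩
    rw [rr_iff hD hH _ (inj_fill hD hH h₀ hp), hk]
    · exact hkey
    · intro q hq
      rw [Finset.mem_union, Finset.mem_image] at hq
      rcases hq with hq | ⟨i, -, rfl⟩
      · exact hkey.cl q hq
      · exact ((mem_CC hD hH).1 (hp i)).1
  · intro p hp p' hp' h
    rw [Finset.mem_filter, Fintype.mem_piFinset] at hp hp'
    have h1 := la_fill hD hH h₀ hp.1
    rw [h, la_fill hD hH h₀ hp'.1] at h1
    funext i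
    have h2 : p i ∈ univ.image p' := by
      rw [h1]
      exact Finset.mem_image_of_mem _ (Finset.mem_univ _)
    rw [Finset.mem_image] at h2
    obtain ⟨j, -, hj⟩ := h2
    have h3 := ph_fill hD hH hp.1 i
    have h4 := ph_fill hD hH hp'.1 j
    rw [hj, h3] at h4
    rw [← hj, Subtype.ext h4]
  · intro S hS
    rw [Finset.mem_filter] at hS
    obtain ⟨hSR, hSk, hSP⟩ := hS
    obtain ⟨hSO, hSI, -⟩ := rr_facts hSR
    have hk1 : sm z S = S₀ := congrArg Prod.fst hSk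
    have hk2 : (la z S).image (ph A H) = J := congrArg Prod.snd hSk
    have hex : ∀ i : J, ∃ q ∈ la z S, ph A H q = i := by
      rintro ⟨i, hi⟩
      rw [← hk2, Finset.mem_image] at hi
      exact hi
    choose p hp1 hp2 using hex
    have him : univ.image p = la z S := by
      ext q
      rw [Finset.mem_image]
      constructor
      · rintro ⟨i, -, rfl⟩
        exact hp1 i
      · intro hq
        have hjq : ph A H q ∈ J := by
          rw [← hk2]
          exact Finset.mem_image_of_mem _ hq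
        exact ⟨⟨ph A H q, hjq⟩, Finset.mem_univ _, inj_ph hSI (Finset.mem_coe.2 (hp1 _))
          (Finset.mem_coe.2 hq) (hp2 ⟨ph A H q, hjq⟩)⟩
    have hSe : S₀ ∪ univ.image p = S := by
      rw [him, ← hk1]
      unfold sm la
      exact Finset.filter_union_filter_not_eq _ _
    refine ⟨p, ?_, hSe⟩
    rw [Finset.mem_filter, Fintype.mem_piFinset, hSe]
    refine ⟨fun i => (mem_CC hD hH).2 ⟨hSO _ (Finset.mem_filter.1 (hp1 i)).1,
      not_le.1 (Finset.mem_filter.1 (hp1 i)).2, hp2 i⟩, hSP⟩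

theorem CC_facts {A B : ℕ → Prop} {α β : ℝ} (hD : Dat A B α β) {z H : ℕ} (hH : 1 ≤ H) {e : ℕ × ℕ} {p : ℕ}
    (hp : p ∈ CC A B z H e) :
    (A p ∨ B p) ∧ z < p ∧ p ≤ XX H e.1 ∧ (A p ↔ e.2 = 1) := by
  obtain ⟨h1, h2, h3⟩ := (mem_CC hD hH).1 hp
  refine ⟨h1, h2, ?_, by rw [← h3]; exact ph_one.symm⟩
  unfold CC at hp
  exact (Finset.mem_Icc.1 (Finset.mem_filter.1 hp).1).2

theorem CC_disj {A B : ℕ → Prop} {α β : ℝ} (hD : Dat A B α β) {z H : ℕ} (hH : 1 ≤ H) {J : Finset (ℕ × ℕ)} (i l : J)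
    (hil : i ≠ l) : Disjoint (CC A B z H i) (CC A B z H l) := by
  rw [Finset.disjoint_left]
  intro p hp hp'
  have h5 := ((mem_CC hD hH).1 hp).2.2
  have h6 := ((mem_CC hD hH).1 hp').2.2
  exact hil (Subtype.ext (h5.symm.trans h6))

theorem hb_box {C₁ : ℝ} {A B : ℕ → Prop} {α β : ℝ} (hD : Dat A B α β)
    (h1 : ∀ (P Q : Finset ℕ) (a b z : ℕ) (c d : ℕ → ℂ),
      (∀ p ∈ P, p.Prime ∧ p % 4 = 1 ∧ p ≤ a) → (∀ q ∈ Q, q.Prime ∧ q ≠ 2 ∧ q ≤ b) →
      Disjoint P Q → 1 ≤ z → z ≤ a → z ≤ b →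
      (∀ p, ‖c p‖ ≤ 1) → (∀ q, ‖d q‖ ≤ 1) →
      ‖∑ p ∈ P, ∑ q ∈ Q, c p * d q * sg (nr p q)‖ ^ 12 * z ≤
        C₁ * ((a : ℝ) * b) ^ 12)
    {z H : ℕ} (hH : 1 ≤ H) (hz : 1 ≤ z) {κ : ℝ} (hκ : 0 ≤ κ) (hκ1 : C₁ ≤ κ ^ 12 * z)
    {J : Finset (ℕ × ℕ)} :
    HB (univ.filter fun e : J => e.1.2 = 1) (fun i : J => CC A B z H i)
      (fun i => XX H i.1.1) κ := by
  intro i l hil hi c d hc hd
  show ‖∑ x ∈ CC A B z H i, ∑ y ∈ CC A B z H l, c x * d y * sg (nr x y)‖ ≤
    κ * ((XX H i.1.1 : ℝ) * (XX H l.1.1 : ℝ))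
  have hz0 : (0 : ℝ) < z := by exact_mod_cast hz
  have hk0 : (0 : ℝ) ≤ κ * ((XX H i.1.1 : ℝ) * (XX H l.1.1 : ℝ)) := by positivity
  rcases (CC A B z H i).eq_empty_or_nonempty with he | ⟨p₀, hp₀⟩
  · rw [he, Finset.sum_empty, norm_zero]
    exact hk0
  rcases (CC A B z H l).eq_empty_or_nonempty with he | ⟨q₀, hq₀⟩
  · rw [he]
    simp only [Finset.sum_empty, Finset.sum_const_zero, norm_zero]
    exact hk0
  have hzi : z ≤ XX H i.1.1 := by
    have := CC_facts hD hH hp₀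
    omega
  have hzl : z ≤ XX H l.1.1 := by
    have := CC_facts hD hH hq₀
    omega
  have hi1 : i.1.2 = 1 := (Finset.mem_filter.1 hi).2
  have h3 := h1 (CC A B z H i) (CC A B z H l) (XX H i.1.1) (XX H l.1.1) z c d
    (fun p hp => by
      obtain ⟨h3, -, h4, h5⟩ := CC_facts hD hH hp
      exact ⟨cl_prime hD h3, (hD.pa _ (h5.2 hi1)).2, h4⟩)
    (fun p hp => by
      obtain ⟨h3, -, h4, h5⟩ := CC_facts hD hH hp
      exact ⟨cl_prime hD h3, cl_ne hD h3, h4⟩)
    (CC_disj hD hH i l hil) hz hzi hzl hc hd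
  exact root12 (norm_nonneg _) hκ (Nat.cast_nonneg _) (Nat.cast_nonneg _) hz0 h3 hκ1

/-- the statement for the boxes with the constants fixed -/
def BX (A : ℕ → Prop) (M : ℕ) (ε : ℝ) (R : ℕ) : Prop := ∀ (f : Fin M → ℕ → ZMod 2)
  (ι : Type) [Fintype ι] [LinearOrder ι] (J1 : Finset ι) (C : ι → Finset ℕ) (X : ι → ℕ) (κ : ℝ)
  (S₀ W : Finset ℕ) (U : Fin M → Finset ℕ), (∀ i, U i ⊆ W) → 0 ≤ κ →
  (∀ i, (C i).card ≤ X i) → HB J1 C X κ → (∀ u ∈ S₀ ∪ W, u.Prime ∧ u ≠ 2) →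
  (∀ i, ∀ p ∈ C i, p.Prime ∧ p ≠ 2 ∧ p ∉ S₀ ∪ W ∧ (i ∈ J1 ↔ A p)) →
  (∀ i l, i ≠ l → Disjoint (C i) (C l)) → (∃ i, i ∉ J1) →
  |(((Fintype.piFinset C).filter fun p => NdF A R W f U S₀ (univ.image p) ∧
      GdF A f U (S₀ ∪ univ.image p)).card : ℝ) -
      c2 ^ M * (((Fintype.piFinset C).filter fun p => NdF A R W f U S₀ (univ.image p)).card : ℝ)| ≤
    ε * (((Fintype.piFinset C).filter fun p => NdF A R W f U S₀ (univ.image p)).card : ℝ) +
    2 ^ ((2 * (S₀ ∪ W).card + 1 + M) * Fintype.card ι + (prs J1).card) * (κ * ∏ j, (X j : ℝ))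

theorem box_dec {A : ℕ → Prop} {M : ℕ} {ε : ℝ} {R : ℕ} (hBOX : BX A M ε R)
    (f : Fin M → ℕ → ZMod 2) (ι : Type) [Fintype ι] [inst : DecidableEq ι]
    (lo : LinearOrder ι) (J1 : Finset ι) (C : ι → Finset ℕ) (X : ι → ℕ) (κ : ℝ)
    (S₀ W : Finset ℕ) (U : Fin M → Finset ℕ) (g2 : ∀ i, U i ⊆ W)
    (h1 : 0 ≤ κ) (h2 : ∀ i, (C i).card ≤ X i) (h3 : HB J1 C X κ)
    (h4 : ∀ u ∈ S₀ ∪ W, u.Prime ∧ u ≠ 2)
    (h5 : ∀ i, ∀ p ∈ C i, p.Prime ∧ p ≠ 2 ∧ p ∉ S₀ ∪ W ∧ (i ∈ J1 ↔ A p))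
    (h6 : ∀ i l, i ≠ l → Disjoint (C i) (C l)) (h7 : ∃ i, i ∉ J1) :
    |(((Fintype.piFinset C).filter fun p => NdF A R W f U S₀ (univ.image p) ∧
        GdF A f U (S₀ ∪ univ.image p)).card : ℝ) -
      c2 ^ M * (((Fintype.piFinset C).filter fun p => NdF A R W f U S₀ (univ.image p)).card : ℝ)| ≤
    ε * (((Fintype.piFinset C).filter fun p => NdF A R W f U S₀ (univ.image p)).card : ℝ) +
    2 ^ ((2 * (S₀ ∪ W).card + 1 + M) * Fintype.card ι + (prs J1).card) *
      (κ * ∏ j, (X j : ℝ)) := by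
  have h := hBOX f ι J1 C X κ S₀ W U g2 h1 h2 h3 h4 h5 h6 h7
  have e : inst = fun a b => lo.toDecidableEq a b := Subsingleton.elim _ _
  subst e
  exact h

theorem per_key {A B : ℕ → Prop} {α β : ℝ} (hD : Dat A B α β) {M : ℕ} {ε : ℝ} {R : ℕ} (hε : 0 < ε) (hBOX : BX A M ε R)
    (f : Fin M → ℕ → ZMod 2)
    {X z H k V : ℕ} (hH : 1 ≤ H)
    {κ : ℝ} (hκ : 0 ≤ κ) {W : Finset ℕ} {U : Fin M → Finset ℕ}
    (g2 : OkV W U) (g3 : ∀ u ∈ W, u ≤ z) (g4 : W.card ≤ k) (g5 : M ≤ k)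
    {S₀ : Finset ℕ} {J : Finset (ℕ × ℕ)} (hk : KP A B X z H k V S₀ J)
    (hHB : HB (univ.filter fun e : J => e.1.2 = 1) (fun i : J => CC A B z H i)
      (fun i => XX H i.1.1) κ) :
    |(((RR A B X z H k V).filter fun S => ky A z H S = (S₀, J) ∧
        (NdF A R W f U (sm z S) (la z S) ∧ GdF A f U S)).card : ℝ) -
      c2 ^ M * (((RR A B X z H k V).filter fun S => ky A z H S = (S₀, J) ∧
        NdF A R W f U (sm z S) (la z S)).card : ℝ)| ≤
    ε * (((RR A B X z H k V).filter fun S => ky A z H S = (S₀, J)).card : ℝ) +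
      (3 ^ (7 * k ^ 2) * κ) * (X / ((∏ p ∈ S₀, p : ℕ) : ℝ)) := by
  set J1 : Finset J := univ.filter fun e : J => e.1.2 = 1 with hJ1
  have hinj : Function.Injective (fun i : J => i.1.1) := by
    intro a b hab
    exact Subtype.ext (hk.inj (Finset.mem_coe.2 a.2) (Finset.mem_coe.2 b.2) hab)
  let lo : LinearOrder J := LinearOrder.lift' (fun i : J => i.1.1) hinj
  have hbox := box_dec hBOX f J lo J1 (fun i => CC A B z H i) (fun i => XX H i.1.1) κ S₀ W U
    g2.2 hκ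
    (fun i => by
      refine (Finset.card_filter_le _ _).trans ?_
      rw [Nat.card_Icc]
      omega)
    hHB (fun u hu => by
      rcases Finset.mem_union.1 hu with hu | hu
      · exact ⟨cl_prime hD (hk.cl u hu), cl_ne hD (hk.cl u hu)⟩
      · exact ⟨(g2.1 u hu).1, (g2.1 u hu).2⟩)
    (fun i p hp => by
      obtain ⟨h3, h3', h4, h5⟩ := CC_facts hD hH hp
      refine ⟨cl_prime hD h3, cl_ne hD h3, fun h => ?_, ?_⟩
      · rcases Finset.mem_union.1 h with h | h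
        · have := hk.le p h
          omega
        · have := g3 p h
          omega
      · rw [hJ1, Finset.mem_filter, h5]
        simp)
    (fun i l hil => CC_disj hD hH i l hil)
    (by
      obtain ⟨e, he, h1⟩ := hk.ine
      exact ⟨⟨e, he⟩, fun h => h1 (Finset.mem_filter.1 h).2⟩)
  have e1 : ((Fintype.piFinset fun i : J => CC A B z H i).filter fun p =>
      NdF A R W f U S₀ (univ.image p) ∧ GdF A f U (S₀ ∪ univ.image p)).card =
      ((RR A B X z H k V).filter fun S => ky A z H S = (S₀, J) ∧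
        (NdF A R W f U (sm z S) (la z S) ∧ GdF A f U S)).card := by
    rw [← key_bij hD hH hk (fun S => NdF A R W f U (sm z S) (la z S) ∧ GdF A f U S)]
    congr 1
    refine Finset.filter_congr fun p hp => ?_
    rw [Fintype.mem_piFinset] at hp
    rw [sm_fill hD hH hk.le hp, la_fill hD hH hk.le hp]
  have e2 : ((Fintype.piFinset fun i : J => CC A B z H i).filter fun p =>
      NdF A R W f U S₀ (univ.image p)).card =
      ((RR A B X z H k V).filter fun S => ky A z H S = (S₀, J) ∧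
        NdF A R W f U (sm z S) (la z S)).card := by
    rw [← key_bij hD hH hk (fun S => NdF A R W f U (sm z S) (la z S))]
    congr 1
    refine Finset.filter_congr fun p hp => ?_
    rw [Fintype.mem_piFinset] at hp
    rw [sm_fill hD hH hk.le hp, la_fill hD hH hk.le hp]
  rw [e1, e2] at hbox
  refine hbox.trans (add_le_add ?_ ?_)
  · have h4 : (((RR A B X z H k V).filter fun S => ky A z H S = (S₀, J) ∧
        NdF A R W f U (sm z S) (la z S)).card : ℝ) ≤
        (((RR A B X z H k V).filter fun S => ky A z H S = (S₀, J)).card : ℝ) := by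
      have : (RR A B X z H k V).filter (fun S => ky A z H S = (S₀, J) ∧
          NdF A R W f U (sm z S) (la z S)) ⊆
          (RR A B X z H k V).filter fun S => ky A z H S = (S₀, J) := by
        intro S hS
        rw [Finset.mem_filter] at hS ⊢
        exact ⟨hS.1, hS.2.1⟩
      exact_mod_cast Finset.card_le_card this
    gcongr
  · have hcJ : Fintype.card J = J.card := Fintype.card_coe J
    have hcard := hk.card
    have hJK : J.card ≤ k := by omega
    have hSK : S₀.card ≤ k := by omega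
    have hSW : (S₀ ∪ W).card ≤ 2 * k := (Finset.card_union_le _ _).trans (by omega)
    obtain ⟨m, hm⟩ : ∃ m : ℕ, m = (@prs J _ lo J1).card := ⟨_, rfl⟩
    have hpr : m ≤ k * k := by
      rw [hm]
      refine (@prs_card J _ lo J1).trans ?_
      rw [hcJ]
      exact Nat.mul_le_mul hJK hJK
    rw [← hm]
    have h5 : (2 : ℝ) ^ ((2 * (S₀ ∪ W).card + 1 + M) * Fintype.card J + m) ≤ 3 ^ (7 * k ^ 2) := by
      have hexp : (2 * (S₀ ∪ W).card + 1 + M) * Fintype.card J + m ≤ 7 * k ^ 2 := by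
        rw [hcJ]
        have h6 : (S₀ ∪ W).card * J.card ≤ 2 * k * k := Nat.mul_le_mul hSW hJK
        have h7 : k ≤ k * k := by
          rcases Nat.eq_zero_or_pos k with h | h
          · rw [h]
          · exact Nat.le_mul_of_pos_left k h
        have h8 : M * J.card ≤ k * k := Nat.mul_le_mul g5 hJK
        calc (2 * (S₀ ∪ W).card + 1 + M) * J.card + m =
              2 * ((S₀ ∪ W).card * J.card) + J.card + M * J.card + m := by
              ring
          _ ≤ 2 * (2 * k * k) + k * k + k * k + k * k := by omega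
          _ = 7 * k ^ 2 := by ring
      calc (2 : ℝ) ^ ((2 * (S₀ ∪ W).card + 1 + M) * Fintype.card J + m) ≤ 2 ^ (7 * k ^ 2) :=
            pow_le_pow_right₀ (by norm_num) hexp
        _ ≤ 3 ^ (7 * k ^ 2) := by
            apply pow_le_pow_left₀ <;> norm_num
    have hN0 : (0 : ℝ) < ((∏ p ∈ S₀, p : ℕ) : ℝ) := by
      exact_mod_cast Finset.prod_pos fun p hp => (cl_prime hD (hk.cl p hp)).pos
    have hprod : ∏ j : J, (XX H j.1.1 : ℝ) ≤ X / ((∏ p ∈ S₀, p : ℕ) : ℝ) := by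
      have h5 : ∏ j : J, (XX H j.1.1 : ℝ) = ((∏ k ∈ J, XX H k.1 : ℕ) : ℝ) := by
        rw [← Finset.prod_coe_sort J (fun k => XX H k.1)]
        push_cast
        rfl
      rw [h5, le_div_iff₀ hN0, mul_comm]
      exact_mod_cast hk.prod
    calc (2 : ℝ) ^ ((2 * (S₀ ∪ W).card + 1 + M) * Fintype.card J + m) *
        (κ * ∏ j : J, (XX H j.1.1 : ℝ)) ≤
        3 ^ (7 * k ^ 2) * (κ * (X / ((∏ p ∈ S₀, p : ℕ) : ℝ))) := by gcongr
      _ = _ := by ring

/-- **The sum over the boxes.** -/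
theorem t_FKEY : S_FKEY := by
  intro hB1 hEQ hBOX A B α β hD M ε hε
  obtain ⟨C₁, hC₁, h1⟩ := hB1
  obtain ⟨R, hR⟩ := hBOX hEQ A (fun p hp => (hD.pa p hp).2) M ε hε
  refine ⟨R, C₁, hC₁, ?_⟩
  intro f X z H k V N κ W U g2 g3 g4 g5 hX hH hz hκ hκz hN
  set T := (RR A B X z H k V).image (ky A z H) with hT
  set B' : ℝ := 3 ^ (7 * k ^ 2) * κ with hB'
  have hB0 : 0 ≤ B' := by positivity
  have hfib : ∀ (P : Finset ℕ → Prop) [DecidablePred P],
      (((RR A B X z H k V).filter fun S => P S).card : ℝ) =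
      ∑ e ∈ T, (((RR A B X z H k V).filter fun S => ky A z H S = e ∧ P S).card : ℝ) := by
    intro P _
    rw [Finset.card_eq_sum_card_fiberwise (f := ky A z H) (t := T) (by
      intro S hS
      rw [Finset.mem_coe, Finset.mem_filter] at hS
      exact Finset.mem_coe.2 (Finset.mem_image_of_mem _ hS.1))]
    push_cast
    refine Finset.sum_congr rfl fun e _ => ?_
    congr 2
    ext S
    simp only [Finset.mem_filter]
    tauto
  have hKP : ∀ e ∈ T, KP A B X z H k V e.1 e.2 := by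
    intro e he
    rw [hT, Finset.mem_image] at he
    obtain ⟨S, hS, rfl⟩ := he
    obtain ⟨f1, f2, f3⟩ := rr_facts hS
    exact (rr_iff hD hH f1 (inj_ph f2)).1 hS
  have hf1 := hfib fun S => NdF A R W f U (sm z S) (la z S) ∧ GdF A f U S
  have hf2 := hfib fun S => NdF A R W f U (sm z S) (la z S)
  have hf3 := hfib fun _ => True
  simp only [and_true, Finset.filter_true] at hf3
  rw [hf1, hf2, hf3, Finset.mul_sum, ← Finset.sum_sub_distrib]
  refine (Finset.abs_sum_le_sum_abs _ _).trans ?_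
  have h3 : ∀ e ∈ T, |(((RR A B X z H k V).filter fun S => ky A z H S = e ∧
        (NdF A R W f U (sm z S) (la z S) ∧ GdF A f U S)).card : ℝ) -
      c2 ^ M * (((RR A B X z H k V).filter fun S => ky A z H S = e ∧
        NdF A R W f U (sm z S) (la z S)).card : ℝ)| ≤
      ε * (((RR A B X z H k V).filter fun S => ky A z H S = e).card : ℝ) +
      B' * (X / ((∏ p ∈ e.1, p : ℕ) : ℝ)) := by
    intro e he
    obtain ⟨S₀, J⟩ := e
    have hk' := hKP _ he
    exact per_key hD hε hR f hH hκ g2 g3 g4 g5 hk' (hb_box hD h1 hH hz hκ hκz)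
  refine (Finset.sum_le_sum h3).trans ?_
  rw [Finset.sum_add_distrib, ← Finset.mul_sum]
  refine add_le_add le_rfl ?_
  have hsub : T ⊆ (TT X) ×ˢ ((range N ×ˢ range 8).powerset.filter fun J => J.card ≤ k) := by
    intro e he
    have hk' := hKP e he
    rw [hT, Finset.mem_image] at he
    obtain ⟨S, hS, rfl⟩ := he
    obtain ⟨f1, f2, f3⟩ := rr_facts hS
    rw [Finset.mem_product, Finset.mem_filter, Finset.mem_powerset]
    refine ⟨mem_TT (fun q hq => cl_prime hD (hk'.cl q hq)) ?_, ?_, ?_⟩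
    · refine le_trans ?_ f3
      exact Nat.le_of_dvd (Finset.prod_pos fun p hp => (cl_prime hD (f1 p hp)).pos)
        (Finset.prod_dvd_prod_of_subset _ _ _ (Finset.filter_subset _ _))
    · intro e he
      unfold ky at he
      rw [Finset.mem_image] at he
      obtain ⟨q, hq, rfl⟩ := he
      have hqS := (Finset.mem_filter.1 hq).1
      have hq0 := (cl_prime hD (f1 q hqS)).pos
      have hqX : q ≤ X := by
        refine le_trans ?_ f3
        exact Nat.le_of_dvd (Finset.prod_pos fun p hp => (cl_prime hD (f1 p hp)).pos)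
          (Finset.dvd_prod_of_mem _ hqS)
      unfold ph
      rw [Finset.mem_product, Finset.mem_range, Finset.mem_range]
      refine ⟨?_, by split_ifs <;> norm_num⟩
      have h3 : ((jj H q : ℕ) : ℝ) < N := by
        refine lt_of_le_of_lt (Nat.floor_le (mul_nonneg (Nat.cast_nonneg _)
          (Real.log_nonneg (by exact_mod_cast hq0)))) ?_
        refine lt_of_le_of_lt ?_ hN
        refine mul_le_mul_of_nonneg_left ?_ (Nat.cast_nonneg _)
        exact Real.log_le_log (by exact_mod_cast hq0) (by exact_mod_cast hqX)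
      exact_mod_cast h3
    · have := hk'.card
      omega
  refine (Finset.sum_le_sum_of_subset_of_nonneg hsub fun _ _ _ => by positivity).trans ?_
  rw [Finset.sum_product]
  simp only [Finset.sum_const, nsmul_eq_mul]
  rw [← Finset.mul_sum]
  have h4 : ((((range N ×ˢ range 8).powerset.filter fun J => J.card ≤ k).card : ℕ) : ℝ) ≤
      (9 * N + 9 : ℝ) ^ k := by
    have h5 := card_sub (range N ×ˢ range 8) k
    rw [Finset.card_product, Finset.card_range, Finset.card_range] at h5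
    calc ((((range N ×ˢ range 8).powerset.filter fun J => J.card ≤ k).card : ℕ) : ℝ) ≤
          (((N * 8 + 1) ^ k : ℕ) : ℝ) := by exact_mod_cast h5
      _ = (N * 8 + 1 : ℝ) ^ k := by push_cast; ring
      _ ≤ _ := by
        apply pow_le_pow_left₀ (by positivity)
        have : (0 : ℝ) ≤ N := Nat.cast_nonneg _
        linarith
  have h5 : ∑ S ∈ TT X, B' * (X / ((∏ p ∈ S, p : ℕ) : ℝ)) ≤ B' * (X * (1 + Real.log X)) := by
    have h6 : ∀ S ∈ TT X, B' * ((X : ℝ) / ((∏ p ∈ S, p : ℕ) : ℝ)) =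
        B' * X * (1 / ((∏ p ∈ S, p : ℕ) : ℝ)) := by
      intro S _
      ring
    rw [Finset.sum_congr rfl h6, ← Finset.mul_sum]
    have h7 := mul_le_mul_of_nonneg_left (harm_TT X) (mul_nonneg hB0 (Nat.cast_nonneg X))
    refine h7.trans (le_of_eq ?_)
    ring
  have h6 : 0 ≤ ∑ S ∈ TT X, B' * ((X : ℝ) / ((∏ p ∈ S, p : ℕ) : ℝ)) :=
    Finset.sum_nonneg fun _ _ => by positivity
  rw [mul_assoc]
  gcongr

end Pool.Agent.V11291.GQ
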