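import Pool.Agent.V11291.JF.Asy
import Pool.Agent.V11291.GQ.BIL
import Pool.Agent.V11291.GQ.BOX
import Pool.Agent.V11291.GQ.KEY
import Pool.Agent.V11291.GQ.CNT
import Pool.Agent.V11291.GQ.LOW
import Pool.Agent.V11291.GQ.BAD
import Pool.Agent.V11291.GQ.FEW

/-!
# General classes of primes: the final asymptotics

Adapted from `Pool.Agent.Y687.JQ.Asy` (helper687, helper703).
-/

set_option autoImplicit false

open scoped Classical
open Finset Filter

namespace Pool.Agent.V11291.GQ

open Pool.Agent.Y703.CX (sm la jj XX eL zz kk S_SIE eL_tendsto logX_eq rpow_eL HH NN ev_eL one_le_exp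
  HH_ge HH_le HH_pos kk_ge kk_le X_pos one_add_log lin_le kap zz_ge zz_pos kap_nonneg kap_pow kap_le)
open Pool.Agent.Y703.CQ (nr sg c2 prs HB ext S_EQ S_C2 Sml sml_of sml_add sml_rpow cmp)
open Pool.Agent.Y687.JQ (sml_sum)
open Pool.Agent.V11291.JF (sml_mainF prF)

variable {A B : ℕ → Prop} {α β : ℝ}

/-- sets with many primes -/
theorem sml_many {t : ℝ} (ht : t < 1) (h : CntP A B) : Sml t fun X => (((SS A B X).filter fun S => kk X < S.card).card : ℝ) := by
  apply sml_of (C := 2) (a := 1) ht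
  filter_upwards [ev_eL 1] with X hX
  have h0 : 0 < eL X := by linarith
  have h1 := h.many X (kk X) (X_pos h0)
  have h2 : Real.exp (2 * eL X) ≤ 2 ^ kk X := by
    have e : (2 : ℝ) ^ kk X = Real.exp (kk X * Real.log 2) := by
      rw [mul_comm, Real.exp_mul, Real.exp_log (by norm_num), Real.rpow_natCast]
    rw [e]
    apply Real.exp_le_exp.2
    have h3 := kk_ge X
    have h4 := Real.log_two_gt_d9
    nlinarith
  have hX0 : (0 : ℝ) ≤ X := Nat.cast_nonneg _
  have h5 : (((SS A B X).filter fun S => kk X < S.card).card : ℝ) * Real.exp (2 * eL X) ≤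
      X * (2 * Real.exp (eL X)) := by
    calc _ ≤ (((SS A B X).filter fun S => kk X < S.card).card : ℝ) * 2 ^ kk X := by gcongr
      _ ≤ X * (1 + Real.log X) := h1
      _ ≤ _ := mul_le_mul_of_nonneg_left (one_add_log h0) hX0
  have h6 : (2 : ℝ) * (X * Real.exp (-1 * eL X)) * Real.exp (2 * eL X) = X * (2 * Real.exp (eL X)) := by
    have e : Real.exp (-1 * eL X) * Real.exp (2 * eL X) = Real.exp (eL X) := by
      rw [← Real.exp_add]; congr 1; ring
    calc _ = 2 * X * (Real.exp (-1 * eL X) * Real.exp (2 * eL X)) := by ring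
      _ = _ := by rw [e]; ring
  rw [← h6] at h5
  exact le_of_mul_le_mul_right h5 (Real.exp_pos _)

/-- sets near the boundary -/
theorem sml_cut {t : ℝ} (ht : t < 1) (h : CntP A B) : Sml t fun X => (((SS A B X).filter fun S => S.card ≤ kk X ∧
    X < (∏ p ∈ sm (zz X) S, p) * ∏ p ∈ la (zz X) S, XX (HH X) (jj (HH X) p)).card : ℝ) := by
  apply sml_of (C := 2) (a := 1) ht
  have hlog : ∀ᶠ X : ℕ in atTop, Real.exp (eL X) ≤ X := by
    filter_upwards [ev_eL 1] with X hX
    rw [← logX_eq (by linarith)]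
    exact (Real.log_le_sub_one_of_pos (by exact_mod_cast X_pos (by linarith))).trans (by linarith)
  filter_upwards [ev_eL 1, lin_le (a := 1) (b := 11) (by norm_num) (by norm_num), hlog] with X hX h11 hl
  have h0 : 0 < eL X := by linarith
  have h1 := h.cut X (zz X) (HH X) (kk X) (X_pos h0) (HH_pos h0)
  refine h1.trans ?_
  have hH := HH_ge h0
  have hHp : (0 : ℝ) < HH X := lt_of_lt_of_le (Real.exp_pos _) hH
  have hX0 : (0 : ℝ) ≤ X := Nat.cast_nonneg _
  have h2 : (X : ℝ) * kk X / HH X ≤ X * Real.exp (-1 * eL X) := by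
    rw [div_le_iff₀ hHp]
    calc (X : ℝ) * kk X ≤ X * Real.exp (eL X) := by
          have := kk_le hX
          rw [one_mul] at h11
          have : (kk X : ℝ) ≤ Real.exp (eL X) := by linarith
          gcongr
      _ ≤ X * (Real.exp (-1 * eL X) * Real.exp (3 * eL X)) := by
          rw [← Real.exp_add]
          apply mul_le_mul_of_nonneg_left _ hX0
          apply Real.exp_le_exp.2
          linarith
      _ ≤ X * Real.exp (-1 * eL X) * HH X := by
          rw [mul_assoc]
          gcongr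
  have h3 : (1 : ℝ) ≤ X * Real.exp (-1 * eL X) := by
    have e : Real.exp (eL X) * Real.exp (-1 * eL X) = 1 := by
      rw [← Real.exp_add]
      have : eL X + -1 * eL X = 0 := by ring
      rw [this, Real.exp_zero]
    calc (1 : ℝ) = Real.exp (eL X) * Real.exp (-1 * eL X) := e.symm
      _ ≤ X * Real.exp (-1 * eL X) := mul_le_mul_of_nonneg_right hl (Real.exp_pos _).le
  linarith

/-- sets with two primes in one block -/
theorem sml_coll {t : ℝ} (ht : t < 1) (h : CntP A B) : Sml t fun X => (((SS A B X).filter fun S =>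
    ¬ Set.InjOn (jj (HH X)) (la (zz X) S : Set ℕ)).card : ℝ) := by
  apply sml_of (C := 8) (a := 2) (by linarith)
  filter_upwards [ev_eL 1] with X hX
  have h0 : 0 < eL X := by linarith
  have h1 := h.coll X (zz X) (HH X) (X_pos h0) (HH_pos h0)
  refine h1.trans ?_
  have hH := HH_ge h0
  have hHp : (0 : ℝ) < HH X := lt_of_lt_of_le (Real.exp_pos _) hH
  have hX0 : (0 : ℝ) ≤ X := Nat.cast_nonneg _
  rw [div_le_iff₀ hHp]
  calc 4 * (X : ℝ) * (1 + Real.log X) ≤ 4 * X * (2 * Real.exp (eL X)) := by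
        have := one_add_log h0
        gcongr
    _ = 8 * (X * (Real.exp (-2 * eL X) * Real.exp (3 * eL X))) := by
        rw [← Real.exp_add]
        have : -2 * eL X + 3 * eL X = eL X := by ring
        rw [this]
        ring
    _ ≤ 8 * (X * (Real.exp (-2 * eL X) * HH X)) := by gcongr
    _ = 8 * (X * Real.exp (-2 * eL X)) * HH X := by ring

/-- the sets with few large split primes in a set -/
noncomputable def few (A B : ℕ → Prop) (X z R : ℕ) (b : ℕ → ZMod 2) : Finset (Finset ℕ) :=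
  (SS A B X).filter fun S => ((la z S).filter fun p => A p ∧
      b p ≠ 0).card < 2 * (sm z S).card + R

/-- the sets outside the regular part -/
theorem out_subF (A B : ℕ → Prop) (W : Finset ℕ) {M : ℕ} (f : Fin M → ℕ → ZMod 2) (U : Fin M → Finset ℕ)
    (X z H k R : ℕ) :
    SS A B X \ ((RR A B X z H k (2 * W.card + R)).filter fun S => NdF A R W f U (sm z S) (la z S)) ⊆
      ((((((SS A B X).filter fun S => k < S.card) ∪
      ((SS A B X).filter fun S => S.card ≤ k ∧
        X < (∏ p ∈ sm z S, p) * ∏ p ∈ la z S, XX H (jj H p))) ∪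
      ((SS A B X).filter fun S => ¬ Set.InjOn (jj H) (la z S : Set ℕ))) ∪
      ((SS A B X).filter fun S => ((la z S).filter fun p => A p).card ≤
        2 * (sm z S).card + (2 * W.card + R) ∨ ∀ p ∈ la z S, A p)) ∪
      ((SS A B X).filter fun S => S.card ≤ k ∧ ¬ Nd A (sm z S ∪ W) (la z S))) ∪
      (prF M).biUnion fun e => few A B X z (2 * W.card + R) (df f U e.1 e.2) := by
  intro S hS
  rw [Finset.mem_sdiff, Finset.mem_filter] at hS
  obtain ⟨h1, h2⟩ := hS
  by_contra hc
  rw [mem_union, mem_union, mem_union, mem_union, mem_union] at hc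
  simp only [mem_filter, mem_biUnion] at hc
  push Not at hc
  obtain ⟨⟨⟨⟨⟨c1, c2⟩, c3⟩, c4⟩, c5⟩, c6⟩ := hc
  have d1 : S.card ≤ k := c1 h1
  have d2 := c2 h1 d1
  have d3 := c3 h1
  have d4 := c4 h1
  have d5 := c5 h1 d1
  have hcu : (sm z S ∪ W).card ≤ (sm z S).card + W.card := card_union_le _ _
  apply h2
  refine ⟨?_, d5, ?_, ?_⟩
  · unfold RR
    rw [mem_filter]
    exact ⟨h1, d3, d1, d2, d4.1, d4.2⟩
  · have := d4.1
    omega
  · intro i j hne
    have h3 := c6 (i, j) (by
      unfold prF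
      rw [mem_filter]
      exact ⟨mem_univ _, hne⟩)
    have h4 : ¬ ((la z S).filter fun p => A p ∧
        df f U i j p ≠ 0).card < 2 * (sm z S).card + (2 * W.card + R) := by
      intro h
      apply h3
      unfold few
      rw [mem_filter]
      exact ⟨h1, h⟩
    omega

theorem t_GDQ' (h1 : S_BIL4) (h3 : S_EQ) (h5 : S_FBOX)
    (hK : S_FKEY) (hS : S_SIE) (hB : S_JBAD) (hF : S_FEW)
    (hJF : S_FFEW) (hLo : S_LOW) (hc2 : S_C2) : S_GDQ := by
  intro A B α β hD m f W U hW hsep
  have hC := t_CNT hD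
  obtain ⟨c, X₀, hc, hlow⟩ := hLo A B α β hD
  obtain ⟨δB, CB, XB, hδB, hbad⟩ := hB hS A B α β hD W hW.1
  have hdp : 0 < α + β := add_pos hD.a0 hD.b0
  have hdl : α + β ≤ 1 := hD.ab
  rw [Metric.tendsto_nhds]
  intro ε hε
  obtain ⟨R, C, hC1, hkey⟩ := hK h1 h3 h5 A B α β hD m (ε / 4) (by linarith)
  set V : ℕ := 2 * W.card + R with hV
  obtain ⟨δF, CF, XF, hδF, hfew⟩ := hF hS A B α β hD V
  have s1 := sml_many (t := 1 - (α + β)) (by linarith) hC
  have s2 := sml_cut (t := 1 - (α + β)) (by linarith) hC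
  have s3 := sml_coll (t := 1 - (α + β)) (by linarith) hC
  have s4 := sml_rpow (t := 1 - (α + β)) (by linarith) hfew
  have s5 := sml_rpow (t := 1 - (α + β)) (by linarith) hbad
  have s6 := sml_mainF hC1 (t := 1 - (α + β)) (by linarith)
  have s7 : Sml (1 - (α + β)) fun X => ∑ e ∈ prF m,
      ((few A B X (zz X) V (df f U e.1 e.2)).card : ℝ) := by
    refine sml_sum _ _ fun e he => ?_
    unfold prF at he
    rw [mem_filter] at he
    obtain ⟨δ₀, C₀, hδ₀, hsp⟩ := hsep e.1 e.2 he.2
    obtain ⟨δ, C', X', hδ, h⟩ := hJF hS A B α β hD (df f U e.1 e.2) δ₀ C₀ V hδ₀ hsp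
    exact sml_rpow (t := 1 - (α + β)) (by linarith) h
  have s := sml_add (sml_add (sml_add (sml_add (sml_add (sml_add s1 s2) s3) s4) s5) s6) s7
  have hδ : (0 : ℝ) < c * ε / 4 := by positivity
  obtain ⟨WB, hWB⟩ : ∃ B : ℕ, ∀ u ∈ W, u ≤ B := ⟨W.sup id, fun u hu => Finset.le_sup (f := id) hu⟩
  have hzt : ∀ᶠ X : ℕ in atTop, WB ≤ zz X := by
    filter_upwards [ev_eL (WB + 1)] with X hX
    have h0 : (1 : ℝ) ≤ eL X := by
      have : (0 : ℝ) ≤ WB := Nat.cast_nonneg _
      linarith
    unfold zz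
    apply Nat.le_floor
    have h2 : (WB : ℝ) ≤ (eL X) ^ 3 := by
      have h3 : (1 : ℝ) * eL X ≤ (eL X) ^ 2 * eL X := by
        apply mul_le_mul_of_nonneg_right _ (by linarith)
        nlinarith
      have h4 : (eL X) ^ 3 = (eL X) ^ 2 * eL X := by ring
      linarith
    have h3 := Real.add_one_le_exp ((eL X) ^ 3)
    linarith
  have hkt : ∀ᶠ X : ℕ in atTop, W.card ≤ kk X ∧ m ≤ kk X := by
    filter_upwards [ev_eL (W.card + m + 1)] with X hX
    have h2 := kk_ge X
    have h0 : (0 : ℝ) ≤ W.card := Nat.cast_nonneg _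
    have h0' : (0 : ℝ) ≤ m := Nat.cast_nonneg _
    have h3 : (W.card : ℝ) ≤ kk X := by linarith
    have h4 : (m : ℝ) ≤ kk X := by linarith
    exact ⟨by exact_mod_cast h3, by exact_mod_cast h4⟩
  filter_upwards [s (c * ε / 4) hδ, ev_eL 1, eventually_ge_atTop X₀, hzt, hkt] with X hX hl hX0 hz hk
  have hl0 : 0 < eL X := by linarith
  have hlo := hlow X hX0
  have e00 : (-1 + (α + β) : ℝ) = -(1 - (α + β)) := by ring
  rw [e00, rpow_eL hl0] at hlo
  have hXp := X_pos hl0
  have hXp' : (0 : ℝ) < X := by exact_mod_cast hXp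
  have hSpos : (0 : ℝ) < ((SS A B X).card : ℝ) := by
    refine lt_of_lt_of_le ?_ hlo
    positivity
  have hN : (HH X : ℝ) * Real.log X < NN X := by
    unfold NN
    push_cast
    exact Nat.lt_floor_add_one _
  have hmain := hkey f X (zz X) (HH X) (kk X) V (NN X) (kap C X) W U hW
    (fun u hu => (hWB u hu).trans hz) hk.1 hk.2 hXp (HH_pos hl0) (zz_pos hl)
    (kap_nonneg hC1 X) (kap_pow hC1 hl) hN
  set T := (RR A B X (zz X) (HH X) (kk X) V).filter fun S =>
    NdF A R W f U (sm (zz X) S) (la (zz X) S) with hT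
  have hTG : (RR A B X (zz X) (HH X) (kk X) V).filter
      (fun S => NdF A R W f U (sm (zz X) S) (la (zz X) S) ∧ GdF A f U S) = T.filter (GdF A f U) := by
    rw [hT, filter_filter]
  rw [hTG] at hmain
  have hTS : T ⊆ SS A B X := (filter_subset _ _).trans (filter_subset _ _)
  have hRS : ((RR A B X (zz X) (HH X) (kk X) V).card : ℝ) ≤ ((SS A B X).card : ℝ) := by
    exact_mod_cast card_le_card (filter_subset _ _)
  have hp0 : 0 ≤ c2 ^ m := pow_nonneg hc2.2.1.le _
  have hp1 : c2 ^ m ≤ 1 := pow_le_one₀ hc2.2.1.le hc2.2.2.1.le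
  have hcmp := cmp (GdF A f U) T (SS A B X) hTS (c2 ^ m) hp0 hp1
  have hout : ((SS A B X \ T).card : ℝ) ≤
      ((((SS A B X).filter fun S => kk X < S.card).card : ℝ) +
      (((SS A B X).filter fun S => S.card ≤ kk X ∧
        X < (∏ p ∈ sm (zz X) S, p) * ∏ p ∈ la (zz X) S, XX (HH X) (jj (HH X) p)).card : ℝ) +
      (((SS A B X).filter fun S => ¬ Set.InjOn (jj (HH X)) (la (zz X) S : Set ℕ)).card : ℝ) +
      (((SS A B X).filter fun S => ((la (zz X) S).filter fun p => A p).card ≤
        2 * (sm (zz X) S).card + V ∨ ∀ p ∈ la (zz X) S, A p).card : ℝ)) +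
      (((SS A B X).filter fun S => S.card ≤ kk X ∧
        ¬ Nd A (sm (zz X) S ∪ W) (la (zz X) S)).card : ℝ) +
      ∑ e ∈ prF m, ((few A B X (zz X) V (df f U e.1 e.2)).card : ℝ) := by
    have g := card_le_card (out_subF A B W f U X (zz X) (HH X) (kk X) R)
    rw [← hV, ← hT] at g
    have g3 := Finset.card_biUnion_le (s := prF m)
      (t := fun e => few A B X (zz X) V (df f U e.1 e.2))
    have g2 := ((g.trans (card_union_le _ _)).trans (Nat.add_le_add_right
      ((card_union_le _ _).trans (Nat.add_le_add_right ((card_union_le _ _).trans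
      (Nat.add_le_add_right ((card_union_le _ _).trans
      (Nat.add_le_add_right (card_union_le _ _) _)) _)) _)) _)).trans (Nat.add_le_add_left g3 _)
    exact_mod_cast g2
  have htot : |(((SS A B X).filter (GdF A f U)).card : ℝ) - c2 ^ m * ((SS A B X).card : ℝ)| ≤
      ε / 4 * ((SS A B X).card : ℝ) +
        c * ε / 4 * (X * Real.exp (-(1 - (α + β)) * eL X)) := by
    have g1 : ε / 4 * ((RR A B X (zz X) (HH X) (kk X) V).card : ℝ) ≤
        ε / 4 * ((SS A B X).card : ℝ) := mul_le_mul_of_nonneg_left hRS (by positivity)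
    linarith
  rw [Real.dist_eq]
  have e3 : (((SS A B X).filter (GdF A f U)).card : ℝ) / ((SS A B X).card : ℝ) - c2 ^ m =
      ((((SS A B X).filter (GdF A f U)).card : ℝ) - c2 ^ m * ((SS A B X).card : ℝ)) /
        ((SS A B X).card : ℝ) := by
    field_simp
  rw [e3, abs_div, abs_of_pos hSpos, div_lt_iff₀ hSpos]
  refine lt_of_le_of_lt htot ?_
  have g2 : c * ε / 4 * (X * Real.exp (-(1 - (α + β)) * eL X)) ≤ ε / 4 * ((SS A B X).card : ℝ) := by
    calc c * ε / 4 * (X * Real.exp (-(1 - (α + β)) * eL X)) =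
          ε / 4 * (c * X * Real.exp (-(1 - (α + β)) * eL X)) := by ring
      _ ≤ _ := mul_le_mul_of_nonneg_left hlo (by linarith)
  have g4 : 0 < ε * ((SS A B X).card : ℝ) := by positivity
  linarith

/-- **The joint proportion for several functions and general classes.** -/
theorem t_GDQ : S_GDQ :=
  t_GDQ' t_BIL4 Pool.Agent.Y356.CQ.t_EQ t_FBOX t_FKEY
    Pool.Agent.Y488.CX.t_SIE t_JBAD t_FEW t_FFEW t_LOW
    Pool.Agent.Y948.CQ.t_C2

theorem prime_of_cl (hD : Dat A B α β) {S : Finset ℕ} (h : Cl A B S) : ∀ p ∈ S, p.Prime :=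
  fun p hp => (h p hp).elim (fun h => (hD.pa p h).1) (fun h => (hD.pb p h).1)

theorem card_eq (hD : Dat A B α β) (X : ℕ) (Q : Finset ℕ → Prop) :
    ((Icc 1 X).filter fun D => Squarefree D ∧ Cl A B D.primeFactors ∧ Q D.primeFactors).card =
      ((SS A B X).filter Q).card := by
  refine Finset.card_bij (fun D _ => D.primeFactors) ?_ ?_ ?_
  · intro D hD
    obtain ⟨h1, h2, hcl, h4⟩ := Finset.mem_filter.1 hD
    obtain ⟨h5, h6⟩ := Finset.mem_Icc.1 h1
    refine Finset.mem_filter.2 ⟨Finset.mem_filter.2 ⟨?_, hcl, ?_⟩, h4⟩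
    · rw [Finset.mem_powerset]
      intro p hp
      have := Nat.le_of_dvd (by omega) (Nat.dvd_of_mem_primeFactors hp)
      exact Finset.mem_range.2 (by omega)
    · rw [Nat.prod_primeFactors_of_squarefree h2]
      exact h6
  · intro D hD E hE h
    have h2 := (Finset.mem_filter.1 hD).2.1
    have h3 := (Finset.mem_filter.1 hE).2.1
    have h' : D.primeFactors = E.primeFactors := h
    rw [← Nat.prod_primeFactors_of_squarefree h2, ← Nat.prod_primeFactors_of_squarefree h3, h']
  · intro S hS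
    obtain ⟨h1, h2⟩ := Finset.mem_filter.1 hS
    obtain ⟨h3, h4, h5⟩ := Finset.mem_filter.1 h1
    have hpr : ∀ p ∈ S, p.Prime := prime_of_cl hD h4
    have hpf : (∏ p ∈ S, p).primeFactors = S := Nat.primeFactors_prod hpr
    have hsq : Squarefree (∏ p ∈ S, p) := by
      refine Finset.squarefree_prod_of_pairwise_isCoprime (fun p hp q hq hpq => ?_)
        fun p hp => (hpr p hp).squarefree
      show IsRelPrime p q
      rw [← Nat.coprime_iff_isRelPrime]
      exact (Nat.coprime_primes (hpr p hp) (hpr q hq)).mpr hpq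
    refine ⟨∏ p ∈ S, p, ?_, hpf⟩
    have hcl : Cl A B (∏ p ∈ S, p).primeFactors := by rw [hpf]; exact h4
    refine Finset.mem_filter.2 ⟨Finset.mem_Icc.2 ⟨?_, h5⟩, hsq, hcl, ?_⟩
    · exact Nat.one_le_iff_ne_zero.2 hsq.ne_zero
    · rw [hpf]
      exact h2

/-- **The joint proportion for several functions and general classes, in terms of the numbers
`D`.** -/
theorem t_GDEN : S_GDEN := by
  intro A B α β hD M f W V hW hsep
  refine (t_GDQ A B α β hD M f W V hW hsep).congr fun X => ?_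
  have e1 := card_eq hD X (GdF A f V)
  have e2 := card_eq hD X (fun _ => True)
  rw [Finset.filter_true] at e2
  simp only [and_true] at e2
  rw [← e1, ← e2]

end Pool.Agent.V11291.GQ
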