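import Pool.Agent.V11291.GQ.Res

/-!
# Classes of primes given by quadratic characters of coprime moduli
-/

set_option autoImplicit false

open scoped Classical

namespace Pool.Agent.V11291.GQ

open Finset
open Pool.Agent.Y475.CQ
open Pool.Agent.Y703.CQ (nr)

/-- characters of pairwise coprime moduli are independent -/
theorem chs_of {ι : Type} (c : ι → (ℕ →* ℝ)) (U : Finset ι) (m : ι → ℕ)
    (hm : ∀ i ∈ U, 1 ≤ m i) (hco : ∀ i ∈ U, ∀ j ∈ U, i ≠ j → Nat.Coprime (m i) (m j))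
    (val : ∀ i ∈ U, ∀ n, c i n = 0 ∨ c i n = 1 ∨ c i n = -1)
    (per : ∀ i ∈ U, ∀ a b, a ≡ b [MOD m i] → c i a = c i b)
    (cop : ∀ i ∈ U, ∀ n, Nat.Coprime n (m i) → c i n ≠ 0)
    (wit : ∀ i ∈ U, ∃ g, Nat.Coprime g (m i) ∧ c i g = -1) :
    Chs c U (∏ i ∈ U, m i) := by
  have hdv : ∀ i ∈ U, m i ∣ ∏ i ∈ U, m i := fun i hi => dvd_prod_of_mem m hi
  refine ⟨?_, val, fun i hi a b hab => per i hi a b (hab.of_dvd (hdv i hi)),
    fun i hi n hn => cop i hi n (hn.coprime_dvd_right (hdv i hi)), fun V hV hV0 => ?_⟩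
  · exact Nat.pos_of_ne_zero (prod_ne_zero_iff.2 fun i hi => by have := hm i hi; omega)
  · obtain ⟨j, hj⟩ := hV0
    have hjU := hV hj
    obtain ⟨g, hg1, hg2⟩ := wit j hjU
    have hcop : Nat.Coprime (m j) (∏ i ∈ U.erase j, m i) := by
      rw [Nat.coprime_prod_right_iff]
      intro i hi
      exact hco j hjU i (mem_of_mem_erase hi) (ne_of_mem_erase hi).symm
    obtain ⟨k, hk1, hk2⟩ := Nat.chineseRemainder hcop g 1
    refine ⟨k, ?_, ?_⟩
    · rw [← mul_prod_erase U m hjU]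
      refine Nat.Coprime.mul_right ?_ ?_
      · have := hk1.gcd_eq
        unfold Nat.Coprime at hg1 ⊢
        rw [this]
        exact hg1
      · have := hk2.gcd_eq
        unfold Nat.Coprime
        rw [this, Nat.gcd_one_left]
    · rw [MonoidHom.finsetProd_apply, prod_eq_single_of_mem j hj, per j hjU k g hk1, hg2]
      intro i hi hij
      have hiU := hV hi
      have h1 : k ≡ 1 [MOD m i] := hk2.of_dvd (dvd_prod_of_mem m (mem_erase.2 ⟨hij, hiU⟩))
      rw [per i hiU k 1 h1, map_one]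

/-- fewer characters -/
theorem Chs.mono {ι : Type} {c : ι → (ℕ →* ℝ)} {U : Finset ι} {q : ℕ} (h : Chs c U q)
    {V : Finset ι} (hV : V ⊆ U) : Chs c V q :=
  ⟨h.q0, fun i hi => h.val i (hV hi), fun i hi => h.per i (hV hi), fun i hi => h.cop i (hV hi),
    fun V' hV' h0 => h.ind V' (hV'.trans hV) h0⟩

/-- the residues with given values of the characters -/
noncomputable def Rs {ι : Type} (c : ι → (ℕ →* ℝ)) (U : Finset ι) (q : ℕ) (ε : ι → ℝ) :
    Finset ℕ := (range q).filter fun a => a.Coprime q ∧ ∀ i ∈ U, c i a = ε i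

theorem rs_ok {ι : Type} {c : ι → (ℕ →* ℝ)} {U : Finset ι} {q : ℕ} {ε : ι → ℝ} :
    ∀ a ∈ Rs c U q ε, a < q ∧ a.Coprime q := by
  intro a ha
  unfold Rs at ha
  rw [mem_filter, mem_range] at ha
  exact ⟨ha.1, ha.2.1⟩

/-- the primes with a residue of the set -/
theorem rc_iff {ι : Type} {c : ι → (ℕ →* ℝ)} {U : Finset ι} {q : ℕ} (h : Chs c U q) {ε : ι → ℝ}
    {p : ℕ} : RC q (Rs c U q ε) p ↔ p.Prime ∧ p.Coprime q ∧ ∀ i ∈ U, c i p = ε i := by
  unfold RC Rs
  rw [mem_filter, mem_range]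
  have hc : (p % q).Coprime q ↔ p.Coprime q := by
    unfold Nat.Coprime
    rw [(Nat.mod_modEq p q).gcd_eq]
  have hv : ∀ i ∈ U, c i (p % q) = c i p := fun i hi => h.per i hi _ _ (Nat.mod_modEq p q)
  constructor
  · rintro ⟨h1, -, h2, h3⟩
    exact ⟨h1, hc.1 h2, fun i hi => by rw [← hv i hi]; exact h3 i hi⟩
  · rintro ⟨h1, h2, h3⟩
    exact ⟨h1, Nat.mod_lt _ h.q0, hc.2 h2, fun i hi => by rw [hv i hi]; exact h3 i hi⟩

theorem mer_rs {ι : Type} {c : ι → (ℕ →* ℝ)} {U : Finset ι} {q : ℕ} (h : Chs c U q) {ε : ι → ℝ}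
    (hε : ∀ i, ε i = 1 ∨ ε i = -1) : Mer (RC q (Rs c U q ε)) (1 / 2 ^ U.card) := by
  have h1 := mer_rc h.q0 (R := Rs c U q ε) rs_ok
  have h2 := card_res h ε hε
  have hφ : (0 : ℝ) < Nat.totient q := by exact_mod_cast Nat.totient_pos.2 h.q0
  have e : ((Rs c U q ε).card : ℝ) / Nat.totient q = 1 / 2 ^ U.card := by
    have h3 : ((Rs c U q ε).card : ℝ) * 2 ^ U.card = Nat.totient q := h2
    rw [← h3] at hφ ⊢
    have h4 : (0 : ℝ) < (Rs c U q ε).card := by
      by_contra hn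
      push Not at hn
      have h5 : (0 : ℝ) ≤ (Rs c U q ε).card := Nat.cast_nonneg _
      have h6 : ((Rs c U q ε).card : ℝ) = 0 := le_antisymm hn h5
      rw [h6, zero_mul] at hφ
      exact lt_irrefl _ hφ
    field_simp
  rw [e] at h1
  exact h1

theorem che_rs {ι : Type} {c : ι → (ℕ →* ℝ)} {U : Finset ι} {q : ℕ} (h : Chs c U q) {ε : ι → ℝ}
    (hε : ∀ i, ε i = 1 ∨ ε i = -1) : ∃ (b : ℝ) (Y₀ : ℕ), 0 < b ∧ ∀ Y : ℕ, Y₀ ≤ Y →
    b * Y / Real.log Y ≤ (((range (Y + 1)).filter fun p => RC q (Rs c U q ε) p).card : ℝ) := by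
  have h2 := card_res h ε hε
  have hφ : (0 : ℝ) < Nat.totient q := by exact_mod_cast Nat.totient_pos.2 h.q0
  have hne : (Rs c U q ε).Nonempty := by
    rw [← card_pos]
    by_contra hn
    have h3 : (Rs c U q ε).card = 0 := by omega
    have h4 : ((Rs c U q ε).card : ℝ) * 2 ^ U.card = Nat.totient q := h2
    rw [h3, Nat.cast_zero, zero_mul] at h4
    exact absurd h4 hφ.ne
  obtain ⟨a, ha⟩ := hne
  exact che_rc h.q0 ha rs_ok

/-- the characters: `0` for the character modulo four, `m` for the Jacobi symbol modulo `m` -/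
noncomputable def ch (m : ℕ) : ℕ →* ℝ := if m = 0 then c0 else cJ m

/-- the moduli -/
def md (m : ℕ) : ℕ := if m = 0 then 4 else m

theorem c0_val (n : ℕ) : c0 n = 0 ∨ c0 n = 1 ∨ c0 n = -1 := by
  show ((ZMod.χ₄ (n : ZMod 4) : ℤ) : ℝ) = 0 ∨ _ = 1 ∨ _ = -1
  have : ∀ z : ZMod 4, ZMod.χ₄ z = 0 ∨ ZMod.χ₄ z = 1 ∨ ZMod.χ₄ z = -1 := by decide
  rcases this (n : ZMod 4) with h | h | h
  · left; rw [h]; simp
  · right; left; show ((ZMod.χ₄ (n : ZMod 4) : ℤ) : ℝ) = 1; rw [h]; simp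
  · right; right; show ((ZMod.χ₄ (n : ZMod 4) : ℤ) : ℝ) = -1; rw [h]; simp

theorem c0_one {n : ℕ} : c0 n = 1 ↔ n % 4 = 1 := by
  have e : c0 n = ((ZMod.χ₄ (n : ZMod 4) : ℤ) : ℝ) := rfl
  have h1 : ((n % 4 : ℕ) : ZMod 4) = (n : ZMod 4) := ZMod.natCast_mod n 4
  rw [e, ← h1]
  have h2 : n % 4 < 4 := Nat.mod_lt _ (by norm_num)
  interval_cases (n % 4)
  · simp
  · simp
  · have : ZMod.χ₄ ((2 : ℕ) : ZMod 4) = 0 := by decide
    rw [this]
    simp
  · have : ZMod.χ₄ ((3 : ℕ) : ZMod 4) = -1 := by decide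
    rw [this]
    norm_num

theorem c0_ne {n : ℕ} (h : n.Coprime 4) : c0 n ≠ 0 := by
  have e : c0 n = ((ZMod.χ₄ (n : ZMod 4) : ℤ) : ℝ) := rfl
  have h1 : ((n % 4 : ℕ) : ZMod 4) = (n : ZMod 4) := ZMod.natCast_mod n 4
  have h3 : (n % 4).Coprime 4 := by
    unfold Nat.Coprime
    rw [(Nat.mod_modEq n 4).gcd_eq]
    exact h
  rw [e, ← h1]
  have h2 : n % 4 < 4 := Nat.mod_lt _ (by norm_num)
  revert h3
  interval_cases (n % 4)
  · intro h3
    exact absurd h3 (by decide)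
  · intro _
    simp
  · intro h3
    exact absurd h3 (by decide)
  · intro _
    have : ZMod.χ₄ ((3 : ℕ) : ZMod 4) = -1 := by decide
    rw [this]
    norm_num

/-- the Jacobi symbol of a product of distinct primes takes the value `-1` -/
theorem wit_J (W : Finset ℕ) (hW : W.Nonempty) (hp : ∀ u ∈ W, u.Prime ∧ u ≠ 2) :
    ∃ k : ℕ, Nat.Coprime k (∏ u ∈ W, u) ∧ cJ (∏ u ∈ W, u) k = -1 := by
  obtain ⟨v, hv⟩ := hW
  have hvp := (hp v hv).1
  have hvf : Fact v.Prime := ⟨hvp⟩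
  obtain ⟨g, hg⟩ := FiniteField.exists_nonsquare (F := ZMod v)
    (by rw [ZMod.ringChar_zmod_n]; exact (hp v hv).2)
  set Q := ∏ u ∈ W.erase v, u with hQ
  have hM : ∏ u ∈ W, u = v * Q := (mul_prod_erase W (fun u => u) hv).symm
  have hcop : Nat.Coprime v Q := by
    rw [hQ, Nat.coprime_prod_right_iff]
    intro u hu
    exact (Nat.coprime_primes hvp (hp u (mem_of_mem_erase hu)).1).2 (ne_of_mem_erase hu).symm
  obtain ⟨k, hk1, hkQ⟩ := Nat.chineseRemainder hcop g.val 1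
  have hkv : ((k : ℕ) : ZMod v) = g := by
    rw [(ZMod.natCast_eq_natCast_iff k g.val v).2 hk1, ZMod.natCast_zmod_val]
  have hJQ : jacobiSym (k : ℤ) Q = 1 := by
    have h1 : jacobiSym (k : ℤ) Q = jacobiSym ((1 : ℕ) : ℤ) Q :=
      jacobiSym.mod_left' ((Int.natCast_modEq_iff).2 hkQ)
    rw [h1, Nat.cast_one, jacobiSym.one_left]
  have hJv : jacobiSym (k : ℤ) v = -1 := by
    rw [leg, legendreSym.eq_neg_one_iff]
    rw [Int.cast_natCast, hkv]
    exact hg
  have hQ0 : Q ≠ 0 := by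
    rw [hQ, prod_ne_zero_iff]
    intro u hu
    exact (hp u (mem_of_mem_erase hu)).1.ne_zero
  have : NeZero v := ⟨hvp.ne_zero⟩
  have : NeZero Q := ⟨hQ0⟩
  refine ⟨k, ?_, ?_⟩
  · rw [hM]
    refine Nat.Coprime.mul_right ?_ ?_
    · rw [Nat.coprime_comm, Nat.Prime.coprime_iff_not_dvd hvp]
      intro h
      rw [← ZMod.natCast_eq_zero_iff, hkv] at h
      exact hg (h ▸ IsSquare.zero)
    · have := hkQ.gcd_eq
      rw [Nat.gcd_one_left] at this
      exact this
  · show ((jacobiSym (k : ℤ) (∏ u ∈ W, u) : ℤ) : ℝ) = -1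
    rw [hM, jacobiSym.mul_right, hJv, hJQ, mul_one]
    simp

theorem cJ_ne {M n : ℕ} (hM : M ≠ 0) (h : n.Coprime M) : cJ M n ≠ 0 := by
  show ((jacobiSym (n : ℤ) M : ℤ) : ℝ) ≠ 0
  have : NeZero M := ⟨hM⟩
  rw [Ne, Int.cast_eq_zero, jacobiSym.eq_zero_iff_not_coprime, not_not]
  rw [Int.gcd_natCast_natCast]
  exact h

/-- characters for the index zero and for products of distinct odd primes -/
theorem chs_gen {U : Finset ℕ}
    (hco : ∀ i ∈ U, ∀ j ∈ U, i ≠ j → Nat.Coprime (md i) (md j))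
    (hU : ∀ i ∈ U, i = 0 ∨ ∃ e : Finset ℕ, e.Nonempty ∧ (∀ u ∈ e, u.Prime ∧ u ≠ 2) ∧
      i = ∏ u ∈ e, u) : Chs ch U (∏ i ∈ U, md i) := by
  refine chs_of ch _ md ?_ hco ?_ ?_ ?_ ?_
  · intro i _
    unfold md
    split_ifs with h
    · norm_num
    · omega
  · intro i _ n
    unfold ch
    split_ifs
    · exact c0_val n
    · exact cJ_val i n
  · intro i _ a b hab
    unfold md at hab
    unfold ch
    split_ifs at hab ⊢
    · exact c0_mod a b hab
    · exact cJ_mod i a b hab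
  · intro i _ n hn
    unfold md at hn
    unfold ch
    split_ifs at hn ⊢ with h
    · exact c0_ne hn
    · exact cJ_ne h hn
  · intro i hi
    rcases hU i hi with rfl | ⟨e, hne, he, hie⟩
    · refine ⟨3, by decide, ?_⟩
      show ((ZMod.χ₄ ((3 : ℕ) : ZMod 4) : ℤ) : ℝ) = -1
      have : ZMod.χ₄ ((3 : ℕ) : ZMod 4) = -1 := by decide
      rw [this]
      norm_num
    · have hi0 : i ≠ 0 := by
        rw [hie, prod_ne_zero_iff]
        exact fun u hu => (he u hu).1.ne_zero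
      obtain ⟨k, h1, h2⟩ := wit_J e hne he
      rw [← hie] at h1 h2
      exact ⟨k, by rw [show md i = i from if_neg hi0]; exact h1,
        by rw [show ch i = cJ i from if_neg hi0]; exact h2⟩

/-- the indices -/
def Ix (F : Finset ℕ) : Finset ℕ := {0, 7} ∪ F

theorem prod4 (s : Finset ℕ) (h : ∀ r ∈ s, r.Prime ∧ r % 4 = 1) : (∏ u ∈ s, u) % 4 = 1 := by
  revert h
  induction s using Finset.induction_on with
  | empty => intro _; rfl
  | insert a s ha ih =>
    intro h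
    rw [prod_insert ha, Nat.mul_mod, (h a (mem_insert_self a s)).2,
      ih fun r hr => h r (mem_insert_of_mem hr)]

theorem co4 {i : ℕ} (hi : i % 4 = 1) : Nat.Coprime 4 i := by
  have : Nat.Coprime 2 i := by
    rw [Nat.Prime.coprime_iff_not_dvd Nat.prime_two]
    omega
  have h2 := Nat.Coprime.pow_left 2 this
  norm_num at h2
  exact h2

theorem co7 {i : ℕ} (hi : i.Prime) (h : i % 4 = 1) : Nat.Coprime 7 i := by
  rw [Nat.coprime_primes (by norm_num) hi]
  rintro rfl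
  norm_num at h

theorem md_F {F : Finset ℕ} (hF : ∀ r ∈ F, r.Prime ∧ r % 4 = 1) {i : ℕ} (hi : i ∈ F) :
    md i = i := if_neg (hF i hi).1.ne_zero

theorem co_Ix {F : Finset ℕ} (hF : ∀ r ∈ F, r.Prime ∧ r % 4 = 1) :
    ∀ i ∈ Ix F, ∀ j ∈ Ix F, i ≠ j → Nat.Coprime (md i) (md j) := by
  have hrr : ∀ i ∈ F, ∀ j ∈ F, i ≠ j → Nat.Coprime i j := fun i hi j hj hij =>
    (Nat.coprime_primes (hF i hi).1 (hF j hj).1).2 hij
  have m0 : md 0 = 4 := rfl
  have m7 : md 7 = 7 := rfl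
  intro i hi j hj hij
  unfold Ix at hi hj
  rw [mem_union, mem_insert, mem_singleton] at hi hj
  rcases hi with (rfl | rfl) | hi <;> rcases hj with (rfl | rfl) | hj
  · exact absurd rfl hij
  · rw [m0, m7]; norm_num
  · rw [m0, md_F hF hj]; exact co4 (hF j hj).2
  · rw [m0, m7]; norm_num
  · exact absurd rfl hij
  · rw [m7, md_F hF hj]; exact co7 (hF j hj).1 (hF j hj).2
  · rw [m0, md_F hF hi]; exact (co4 (hF i hi).2).symm
  · rw [m7, md_F hF hi]; exact (co7 (hF i hi).1 (hF i hi).2).symm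
  · rw [md_F hF hi, md_F hF hj]; exact hrr i hi j hj hij

theorem ex_Ix {F : Finset ℕ} (hF : ∀ r ∈ F, r.Prime ∧ r % 4 = 1) :
    ∀ i ∈ Ix F, i = 0 ∨ ∃ e : Finset ℕ, e.Nonempty ∧ (∀ u ∈ e, u.Prime ∧ u ≠ 2) ∧
      i = ∏ u ∈ e, u := by
  intro i hi
  unfold Ix at hi
  rw [mem_union, mem_insert, mem_singleton] at hi
  rcases hi with (rfl | rfl) | hi
  · exact Or.inl rfl
  · exact Or.inr ⟨{7}, singleton_nonempty 7, fun u hu => by
      rw [mem_singleton] at hu
      subst hu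
      exact ⟨by norm_num, by norm_num⟩, by rw [prod_singleton]⟩
  · exact Or.inr ⟨{i}, singleton_nonempty i, fun u hu => by
      rw [mem_singleton] at hu
      subst hu
      exact ⟨(hF u hi).1, by have := (hF u hi).2; rintro rfl; norm_num at this⟩,
      by rw [prod_singleton]⟩

theorem chs_Ix {F : Finset ℕ} (hF : ∀ r ∈ F, r.Prime ∧ r % 4 = 1) :
    Chs ch (Ix F) (∏ i ∈ Ix F, md i) := chs_gen (co_Ix hF) (ex_Ix hF)

/-- the moduli are `4`, `7`, the primes of `F` and the product of the primes of `e`; the primes of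
`F` and `e` are congruent to one modulo four -/
theorem chs_F {F : Finset ℕ} (hF : ∀ r ∈ F, r.Prime ∧ r % 4 = 1) {e : Finset ℕ}
    (he : ∀ r ∈ e, r.Prime ∧ r % 4 = 1) (hd : Disjoint e F) (hne : e.Nonempty) :
    Chs ch (insert (∏ u ∈ e, u) (Ix F)) (∏ i ∈ insert (∏ u ∈ e, u) (Ix F), md i) ∧
      (∏ u ∈ e, u) ∉ Ix F := by
  have hM := prod4 e he
  have hM0 : ∏ u ∈ e, u ≠ 0 := by intro h; rw [h] at hM; norm_num at hM
  have hnot : (∏ u ∈ e, u) ∉ Ix F := by
    unfold Ix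
    rw [mem_union, mem_insert, mem_singleton]
    rintro ((h | h) | h)
    · exact hM0 h
    · rw [h] at hM
      norm_num at hM
    · obtain ⟨v, hv⟩ := hne
      have h1 := (Nat.prime_dvd_prime_iff_eq (he v hv).1 (hF _ h).1).1
        (dvd_prod_of_mem (fun u => u) hv)
      exact (Finset.disjoint_left.1 hd) hv (by rw [h1]; exact h)
  have mM : md (∏ u ∈ e, u) = ∏ u ∈ e, u := if_neg hM0
  have key : ∀ j ∈ Ix F, Nat.Coprime (md (∏ u ∈ e, u)) (md j) := by
    have m0 : md 0 = 4 := rfl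
    have m7 : md 7 = 7 := rfl
    intro j hj
    rw [mM]
    unfold Ix at hj
    rw [mem_union, mem_insert, mem_singleton] at hj
    rcases hj with (rfl | rfl) | hj
    · rw [m0]; exact (co4 hM).symm
    · rw [m7, Nat.coprime_prod_left_iff]
      exact fun u hu => (co7 (he u hu).1 (he u hu).2).symm
    · rw [md_F hF hj, Nat.coprime_prod_left_iff]
      intro u hu
      refine (Nat.coprime_primes (he u hu).1 (hF j hj).1).2 ?_
      rintro rfl
      exact (Finset.disjoint_left.1 hd) hu hj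
  refine ⟨chs_gen ?_ ?_, hnot⟩
  · intro i hi j hj hij
    rw [mem_insert] at hi hj
    rcases hi with rfl | hi <;> rcases hj with rfl | hj
    · exact absurd rfl hij
    · exact key j hj
    · exact (key i hi).symm
    · exact co_Ix hF i hi j hj hij
  · intro i hi
    rw [mem_insert] at hi
    rcases hi with rfl | hi
    · exact Or.inr ⟨e, hne, fun u hu => ⟨(he u hu).1, by
        have := (he u hu).2; rintro rfl; norm_num at this⟩, rfl⟩
    · exact ex_Ix hF i hi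

/-- Mertens' theorem is not changed by finitely many primes -/
theorem Mer.congr {A A' : ℕ → Prop} {α : ℝ} (h : Mer A α) (N : ℕ)
    (hN : ∀ p, N ≤ p → (A p ↔ A' p)) : Mer A' α := by
  obtain ⟨C, hC⟩ := h
  refine ⟨C + 2 * ∑ p ∈ range N, (1 : ℝ) / p, fun y hy => ?_⟩
  have h1 := hC y hy
  have key : ∀ A A' : ℕ → Prop, (∀ p, N ≤ p → (A p ↔ A' p)) →
      ∑ p ∈ (range (y + 1)).filter (fun p => A p), (1 : ℝ) / p ≤
      ∑ p ∈ (range (y + 1)).filter (fun p => A' p), (1 : ℝ) / p + ∑ p ∈ range N, (1 : ℝ) / p := by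
    intro A A' hA
    have h2 : (range (y + 1)).filter (fun p => A p) ⊆
        (range (y + 1)).filter (fun p => A' p) ∪ range N := by
      intro p hp
      rw [mem_filter] at hp
      rw [mem_union, mem_filter]
      by_cases hpN : p < N
      · exact Or.inr (mem_range.2 hpN)
      · exact Or.inl ⟨hp.1, (hA p (by omega)).1 hp.2⟩
    refine (sum_le_sum_of_subset_of_nonneg h2 fun i _ _ => by positivity).trans ?_
    have h3 := sum_union_inter (s₁ := (range (y + 1)).filter (fun p => A' p)) (s₂ := range N)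
      (f := fun p : ℕ => (1 : ℝ) / p)
    have h4 : 0 ≤ ∑ p ∈ (range (y + 1)).filter (fun p => A' p) ∩ range N, (1 : ℝ) / p :=
      sum_nonneg fun i _ => by positivity
    linarith
  have h5 := key A A' hN
  have h6 := key A' A fun p hp => (hN p hp).symm
  have h0 : 0 ≤ ∑ p ∈ range N, (1 : ℝ) / p := sum_nonneg fun i _ => by positivity
  rw [abs_le] at h1 ⊢
  constructor
  · linarith [h1.1]
  · linarith [h1.2]

end Pool.Agent.V11291.GQ
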