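import Pool.Agent.Y475.CQ.HAL
import Pool.Agent.V11291.GQ.Stm

/-!
# General classes of primes: the logarithmic density for a quadratic character

Adapted from `Pool.Agent.Y475.CQ.HAL` (helper475).
-/

set_option autoImplicit false

open scoped Classical

namespace Pool.Agent.V11291.GQ

open Finset
open Pool.Agent.Y703.CQ (nr)
open Pool.Agent.Y475.CQ (cJ cJ_mod leg sum_zero tsum_le part_le main_le zeta_le pow_small)

/-- independent quadratic characters -/
structure Chs {ι : Type} (c : ι → (ℕ →* ℝ)) (U : Finset ι) (q : ℕ) : Prop where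
  q0 : 1 ≤ q
  val : ∀ i ∈ U, ∀ n, c i n = 0 ∨ c i n = 1 ∨ c i n = -1
  per : ∀ i ∈ U, ∀ a b, a ≡ b [MOD q] → c i a = c i b
  cop : ∀ i ∈ U, ∀ n, Nat.Coprime n q → c i n ≠ 0
  ind : ∀ V ⊆ U, V.Nonempty → ∃ k, Nat.Coprime k q ∧ (∏ i ∈ V, c i) k = -1

/-- a number congruent to one modulo `q` which is a nonresidue modulo the product of the primes -/
theorem exK {q : ℕ} (W : Finset ℕ) (hW : W.Nonempty)
    (hp : ∀ u ∈ W, u.Prime ∧ u % 4 = 1 ∧ Nat.Coprime u q) :
    ∃ k : ℕ, k ≡ 1 [MOD q] ∧ Nat.Coprime k (∏ u ∈ W, u) ∧ jacobiSym (k : ℤ) (∏ u ∈ W, u) = -1 := by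
  obtain ⟨v, hv⟩ := hW
  have hvp := (hp v hv).1
  have hvf : Fact v.Prime := ⟨hvp⟩
  have hv2 : v ≠ 2 := by rintro rfl; have := (hp 2 hv).2.1; omega
  obtain ⟨g, hg⟩ := FiniteField.exists_nonsquare (F := ZMod v) (by rw [ZMod.ringChar_zmod_n]; exact hv2)
  set Q := ∏ u ∈ W.erase v, u with hQ
  have hM : ∏ u ∈ W, u = v * Q := (mul_prod_erase W (fun u => u) hv).symm
  have hcop : Nat.Coprime v (q * Q) := by
    refine Nat.Coprime.mul_right (hp v hv).2.2 ?_
    rw [Nat.coprime_prod_right_iff]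
    intro u hu
    exact (Nat.coprime_primes hvp (hp u (mem_of_mem_erase hu)).1).2 (ne_of_mem_erase hu).symm
  obtain ⟨k, hk1, hk2⟩ := Nat.chineseRemainder hcop g.val 1
  have hkq : k ≡ 1 [MOD q] := hk2.of_dvd (dvd_mul_right _ _)
  have hkQ : k ≡ 1 [MOD Q] := hk2.of_dvd (dvd_mul_left _ _)
  have hkv : ((k : ℕ) : ZMod v) = g := by
    rw [(ZMod.natCast_eq_natCast_iff k g.val v).2 hk1, ZMod.natCast_zmod_val]
  have hJQ : jacobiSym (k : ℤ) Q = 1 := by
    have h1 : jacobiSym (k : ℤ) Q = jacobiSym ((1 : ℕ) : ℤ) Q :=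
      jacobiSym.mod_left' ((Int.natCast_modEq_iff).2 hkQ)
    rw [h1, Nat.cast_one, jacobiSym.one_left]
  have hJv : jacobiSym (k : ℤ) v = -1 := by
    rw [leg, legendreSym.eq_neg_one_iff]
    rw [Int.cast_natCast, hkv]
    exact hg
  have hQ0 : Q ≠ 0 := by
    rw [hQ, prod_ne_zero_iff]
    intro u hu
    exact (hp u (mem_of_mem_erase hu)).1.ne_zero
  have : NeZero v := ⟨hvp.ne_zero⟩
  have : NeZero Q := ⟨hQ0⟩
  refine ⟨k, hkq, ?_, ?_⟩
  · rw [hM]
    refine Nat.Coprime.mul_right ?_ ?_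
    · rw [Nat.coprime_comm, Nat.Prime.coprime_iff_not_dvd hvp]
      intro h
      rw [← ZMod.natCast_eq_zero_iff, hkv] at h
      exact hg (h ▸ IsSquare.zero)
    · have := hkQ.gcd_eq
      rw [Nat.gcd_one_left] at this
      exact this
  · rw [hM, jacobiSym.mul_right, hJv, hJQ, mul_one]

/-- the symbol of the product of the primes of `W` -/
theorem sym_one (W : Finset ℕ) (hp : ∀ u ∈ W, u.Prime ∧ u % 4 = 1) (p : ℕ) (h1 : p.Prime)
    (h4 : p % 4 = 1) (hpW : p ∉ W) (hs : ∑ u ∈ W, nr p u = 0) : cJ (∏ u ∈ W, u) p = 1 := by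
  have hpf : Fact p.Prime := ⟨h1⟩
  show ((jacobiSym (p : ℤ) (∏ u ∈ W, u) : ℤ) : ℝ) = 1
  have key : ∀ W' : Finset ℕ, W' ⊆ W →
      jacobiSym (p : ℤ) (∏ u ∈ W', u) = if ∑ u ∈ W', nr p u = 0 then 1 else -1 := by
    intro W'
    induction W' using Finset.induction_on with
    | empty => intro _; simp
    | insert a s ha ih =>
      intro hs'
      have haW : a ∈ W := hs' (mem_insert_self a s)
      have ihs := ih ((subset_insert a s).trans hs')
      have hap := (hp a haW).1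
      have ha4 := (hp a haW).2
      have haf : Fact a.Prime := ⟨hap⟩
      have : NeZero a := ⟨hap.ne_zero⟩
      have : NeZero (∏ u ∈ s, u) := ⟨by
        rw [prod_ne_zero_iff]
        intro u hu
        exact (hp u (hs' (mem_insert_of_mem hu))).1.ne_zero⟩
      rw [prod_insert ha, sum_insert ha, jacobiSym.mul_right, ihs]
      have hodd : Odd a := Nat.odd_iff.2 (by omega)
      have hrec : jacobiSym (p : ℤ) a = jacobiSym (a : ℤ) p :=
        jacobiSym.quadratic_reciprocity_one_mod_four h4 hodd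
      have hne : ((a : ℤ) : ZMod p) ≠ 0 := by
        intro h0
        rw [Int.cast_natCast, ZMod.natCast_eq_zero_iff] at h0
        have := (Nat.prime_dvd_prime_iff_eq h1 hap).1 h0
        exact hpW (this ▸ haW)
      have hval : jacobiSym (p : ℤ) a = if nr p a = 0 then 1 else -1 := by
        rw [hrec, leg]
        unfold nr
        by_cases hsq : IsSquare (a : ZMod p)
        · rw [if_pos hsq, if_pos rfl]
          exact (legendreSym.eq_one_iff p hne).2 (by rwa [Int.cast_natCast])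
        · rw [if_neg hsq, if_neg (by decide)]
          exact (legendreSym.eq_neg_one_iff p).2 (by rwa [Int.cast_natCast])
      rw [hval]
      have hz : ∀ x y : ZMod 2, (if x = 0 then (1 : ℤ) else -1) * (if y = 0 then 1 else -1) =
          if x + y = 0 then 1 else -1 := by decide
      exact hz _ _
  rw [key W Subset.rfl, if_pos hs]
  simp

theorem cJ_val (M n : ℕ) : cJ M n = 0 ∨ cJ M n = 1 ∨ cJ M n = -1 := by
  rcases jacobiSym.trichotomy (n : ℤ) M with h | h | h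
  · left; show ((jacobiSym (n : ℤ) M : ℤ) : ℝ) = 0; rw [h]; simp
  · right; left; show ((jacobiSym (n : ℤ) M : ℤ) : ℝ) = 1; rw [h]; simp
  · right; right; show ((jacobiSym (n : ℤ) M : ℤ) : ℝ) = -1; rw [h]; simp

theorem abs_prod_le {ι : Type} {c : ι → (ℕ →* ℝ)} {U : Finset ι} {q : ℕ} (h : Chs c U q)
    {V : Finset ι} (hV : V ⊆ U) (n : ℕ) : |(∏ i ∈ V, c i) n| ≤ 1 := by
  rw [MonoidHom.finsetProd_apply, abs_prod]
  refine prod_le_one (fun _ _ => abs_nonneg _) fun i hi => ?_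
  rcases h.val i (hV hi) n with h | h | h <;> rw [h] <;> norm_num

theorem prod_per {ι : Type} {c : ι → (ℕ →* ℝ)} {U : Finset ι} {q : ℕ} (h : Chs c U q)
    {V : Finset ι} (hV : V ⊆ U) {a b : ℕ} (hab : a ≡ b [MOD q]) :
    (∏ i ∈ V, c i) a = (∏ i ∈ V, c i) b := by
  rw [MonoidHom.finsetProd_apply, MonoidHom.finsetProd_apply]
  exact prod_congr rfl fun i hi => h.per i (hV hi) a b hab

/-- the fixed characters -/
theorem L_fix {ι : Type} {c : ι → (ℕ →* ℝ)} {U : Finset ι} {q : ℕ} (h : Chs c U q)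
    {V : Finset ι} (hV : V ⊆ U) (hV0 : V.Nonempty) (σ : ℝ) (hσ : 1 < σ) :
    ∑' n : ℕ, (∏ i ∈ V, c i) n * (n : ℝ) ^ (-σ) ≤ 3 + Real.log q := by
  obtain ⟨k, hk1, hk2⟩ := h.ind V hV hV0
  have hper : ∀ n, (∏ i ∈ V, c i) (q + n) = (∏ i ∈ V, c i) n := by
    intro n
    refine prod_per h hV ?_
    show (q + n) % q = n % q
    rw [Nat.add_mod_left]
  have hz := sum_zero (∏ i ∈ V, c i) q h.q0 hper k hk1 hk2
  exact tsum_le (fun n => (∏ i ∈ V, c i) n) q h.q0 (abs_prod_le h hV)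
    (part_le _ q h.q0 (abs_prod_le h hV) hper hz) σ hσ

/-- the characters which depend on `W` -/
theorem L_var {ι : Type} {c : ι → (ℕ →* ℝ)} {U : Finset ι} {q : ℕ} (h : Chs c U q)
    (W : Finset ℕ) (hW : W.Nonempty) (hp : ∀ u ∈ W, u.Prime ∧ u % 4 = 1 ∧ Nat.Coprime u q)
    {V : Finset ι} (hV : V ⊆ U) (σ : ℝ) (hσ : 1 < σ) :
    ∑' n : ℕ, (cJ (∏ u ∈ W, u) * ∏ i ∈ V, c i) n * (n : ℝ) ^ (-σ) ≤
      (4 + Real.log q) * Real.log ((∏ u ∈ W, u : ℕ) : ℝ) := by
  set M := ∏ u ∈ W, u with hM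
  obtain ⟨k, hk1, hk2, hk3⟩ := exK W hW hp
  have hM1 : 5 ≤ M := by
    obtain ⟨v, hv⟩ := hW
    have h1 : v ∣ M := dvd_prod_of_mem (fun u => u) hv
    have h2 : 0 < M := by
      rw [hM]
      exact prod_pos fun u hu => (hp u hu).1.pos
    have h4 : 5 ≤ v := by
      have a1 := (hp v hv).1
      have a2 := (hp v hv).2.1
      by_contra hlt
      have a3 : v = 1 := by omega
      subst a3
      exact absurd a1 (by norm_num)
    exact h4.trans (Nat.le_of_dvd h2 h1)
  have hq : 1 ≤ q * M := Nat.mul_pos h.q0 (by omega)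
  have happ : ∀ n, (cJ M * ∏ i ∈ V, c i) n = cJ M n * (∏ i ∈ V, c i) n := fun n => rfl
  have hper : ∀ n, (cJ M * ∏ i ∈ V, c i) (q * M + n) = (cJ M * ∏ i ∈ V, c i) n := by
    intro n
    rw [happ, happ]
    congr 1
    · refine cJ_mod M _ _ ?_
      show (q * M + n) % M = n % M
      rw [mul_comm q M, Nat.mul_add_mod]
    · refine prod_per h hV ?_
      show (q * M + n) % q = n % q
      rw [Nat.mul_add_mod]
  have hkneg : (cJ M * ∏ i ∈ V, c i) k = -1 := by
    rw [happ, prod_per h hV hk1, map_one, mul_one]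
    show ((jacobiSym (k : ℤ) M : ℤ) : ℝ) = -1
    rw [hk3]; simp
  have hkq : Nat.Coprime k q := by
    have := hk1.gcd_eq
    rw [Nat.gcd_one_left] at this
    exact this
  have habs : ∀ n, |(cJ M * ∏ i ∈ V, c i) n| ≤ 1 := by
    intro n
    rw [happ, abs_mul]
    refine mul_le_one₀ ?_ (abs_nonneg _) (abs_prod_le h hV n)
    rcases cJ_val M n with h | h | h <;> rw [h] <;> norm_num
  have hz := sum_zero (cJ M * ∏ i ∈ V, c i) (q * M) hq hper k (Nat.Coprime.mul_right hkq hk2) hkneg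
  have h5 := tsum_le (fun n => (cJ M * ∏ i ∈ V, c i) n) (q * M) hq habs
    (part_le _ (q * M) hq habs hper hz) σ hσ
  refine h5.trans ?_
  have hM0 : (5 : ℝ) ≤ (M : ℝ) := by exact_mod_cast hM1
  have hq0 : (1 : ℝ) ≤ (q : ℝ) := by exact_mod_cast h.q0
  rw [Nat.cast_mul, Real.log_mul (by linarith) (by linarith)]
  have h6 : 1 ≤ Real.log M := by
    rw [Real.le_log_iff_exp_le (by linarith)]
    have := Real.exp_one_lt_d9
    linarith
  have h7 : 0 ≤ Real.log q := Real.log_nonneg hq0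
  nlinarith

/-- **The logarithmic density.** -/
theorem hal {ι : Type} {c : ι → (ℕ →* ℝ)} {U : Finset ι} {q : ℕ} (h : Chs c U q)
    (A : ℕ → Prop)
    (hA : ∀ p, A p → p.Prime ∧ p % 4 = 1 ∧ Nat.Coprime p q ∧ ∀ i ∈ U, c i p = 1) :
    ∃ C : ℝ, 1 ≤ C ∧ ∀ (W : Finset ℕ) (T : ℕ), W.Nonempty → (∀ u ∈ W, A u) → 2 ≤ T →
    ∑ S ∈ HD A W T, (1 : ℝ) / ((∏ p ∈ S, p : ℕ) : ℝ) ≤
      C * (Real.log ((∏ u ∈ W, u : ℕ) : ℝ)) ^ (1 / 2 : ℝ) *
        (Real.log T) ^ (1 / 2 ^ U.card / 2 : ℝ) := by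
  obtain ⟨K, hKd⟩ : ∃ K : ℝ, K = 4 + Real.log q := ⟨_, rfl⟩
  have hq0 : (1 : ℝ) ≤ (q : ℝ) := by exact_mod_cast h.q0
  have hK4 : 4 ≤ K := by
    have := Real.log_nonneg hq0
    linarith
  refine ⟨9 * K, by linarith, fun W T hW hWA hT => ?_⟩
  have hp : ∀ u ∈ W, u.Prime ∧ u % 4 = 1 ∧ Nat.Coprime u q := fun u hu =>
    ⟨(hA u (hWA u hu)).1, (hA u (hWA u hu)).2.1, (hA u (hWA u hu)).2.2.1⟩
  set M := ∏ u ∈ W, u with hM
  have lT : 0 < Real.log T := Real.log_pos (by exact_mod_cast (by omega : 1 < T))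
  obtain ⟨σ, hσd⟩ : ∃ σ : ℝ, σ = 1 + 1 / Real.log T := ⟨_, rfl⟩
  have hσ : 1 < σ := by
    rw [hσd]
    have : 0 < 1 / Real.log T := by positivity
    linarith
  obtain ⟨P, hPd⟩ : ∃ P : Finset ℕ, P = (range (T + 1)).filter
    (fun p => A p ∧ p ∉ W ∧ ∑ u ∈ W, nr p u = 0) := ⟨_, rfl⟩
  have hP : ∀ p ∈ P, A p ∧ p ∉ W ∧ ∑ u ∈ W, nr p u = 0 := by
    intro p hp'
    rw [hPd, mem_filter] at hp'
    exact hp'.2
  -- the characters
  obtain ⟨cc, hcc⟩ : ∃ cc : Option ι → (ℕ →* ℝ), cc = fun o => o.elim (cJ M) c := ⟨_, rfl⟩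
  have hcn : cc none = cJ M := by rw [hcc]; rfl
  have hcs : ∀ i, cc (some i) = c i := fun i => by rw [hcc]; rfl
  obtain ⟨U', hU'⟩ : ∃ U' : Finset (Option ι), U' = U.map Function.Embedding.some := ⟨_, rfl⟩
  have hnn : (none : Option ι) ∉ U' := by
    rw [hU', mem_map]
    rintro ⟨i, -, hi⟩
    exact Option.some_ne_none i hi
  have hUc : (insert none U').card = U.card + 1 := by
    rw [card_insert_of_notMem hnn, hU', card_map]
  have hvals : ∀ i ∈ insert none U', ∀ n, cc i n = 0 ∨ cc i n = 1 ∨ cc i n = -1 := by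
    intro i hi n
    rcases mem_insert.1 hi with rfl | hi
    · rw [hcn]
      exact cJ_val M n
    · rw [hU', mem_map] at hi
      obtain ⟨j, hj, rfl⟩ := hi
      show cc (some j) n = 0 ∨ cc (some j) n = 1 ∨ cc (some j) n = -1
      rw [hcs]
      exact h.val j hj n
  have hones : ∀ i ∈ insert none U', ∀ p ∈ P, cc i p = 1 := by
    intro i hi p hpP
    obtain ⟨g1, g2, g3⟩ := hP p hpP
    obtain ⟨a1, a2, a3, a4⟩ := hA p g1
    rcases mem_insert.1 hi with rfl | hi
    · rw [hcn]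
      exact sym_one W (fun u hu => ⟨(hp u hu).1, (hp u hu).2.1⟩) p a1 a2 g2 g3
    · rw [hU', mem_map] at hi
      obtain ⟨j, hj, rfl⟩ := hi
      show cc (some j) p = 1
      rw [hcs]
      exact a4 j hj
  have hmain := main_le cc (insert none U') hvals σ hσ P (fun p h => (hA p (hP p h).1).1) hones
  have hM1 : 0 < Real.log (M : ℝ) := by
    obtain ⟨v, hv⟩ := hW
    have h1 : v ∣ M := dvd_prod_of_mem (fun u => u) hv
    have h2 : 0 < M := by
      rw [hM]
      exact prod_pos fun u hu => (hp u hu).1.pos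
    have h3 : 2 ≤ M := (hp v hv).1.two_le.trans (Nat.le_of_dvd h2 h1)
    exact Real.log_pos (by exact_mod_cast (by omega : 1 < M))
  have hlog2 := Real.log_two_gt_d9
  have lT2 : Real.log 2 ≤ Real.log T := Real.log_le_log (by norm_num) (by exact_mod_cast hT)
  have hmapV : ∀ V₀ : Finset ι, ∏ i ∈ V₀.map Function.Embedding.some, cc i = ∏ i ∈ V₀, c i := by
    intro V₀
    rw [prod_map]
    exact prod_congr rfl fun i _ => hcs i
  have hprod : ∏ V ∈ (insert none U').powerset,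
      ∑' n : ℕ, (∏ i ∈ V, cc i) n * (n : ℝ) ^ (-σ) ≤
      3 * Real.log T * K ^ (2 ^ U.card) * (K * Real.log (M : ℝ)) ^ (2 ^ U.card) := by
    rw [prod_powerset_insert hnn]
    have hcU' : U'.powerset.card = 2 ^ U.card := by
      rw [card_powerset, hU', card_map]
    have h1 : ∏ V ∈ U'.powerset, ∑' n : ℕ, (∏ i ∈ V, cc i) n * (n : ℝ) ^ (-σ) ≤
        3 * Real.log T * K ^ (2 ^ U.card) := by
      have h2 : ∏ V ∈ U'.powerset, ∑' n : ℕ, (∏ i ∈ V, cc i) n * (n : ℝ) ^ (-σ) ≤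
          ∏ V ∈ U'.powerset, ((if V = ∅ then 3 * Real.log T else 1) * K) := by
        refine prod_le_prod (fun V hV => hmain.2 V ?_) fun V hV => ?_
        · rw [mem_powerset] at hV ⊢
          exact hV.trans (subset_insert _ _)
        · by_cases hVe : V = ∅
          · rw [if_pos hVe, hVe]
            have e : ∑' n : ℕ, (∏ i ∈ (∅ : Finset (Option ι)), cc i) n * (n : ℝ) ^ (-σ) =
                ∑' n : ℕ, (1 : ℝ) * (n : ℝ) ^ (-σ) := by
              refine tsum_congr fun n => ?_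
              rw [prod_empty]
              rfl
            rw [e]
            refine (zeta_le σ hσ).trans ?_
            have e2 : 1 / (σ - 1) = Real.log T := by
              rw [hσd]
              field_simp
              ring
            rw [e2]
            nlinarith
          · rw [if_neg hVe, one_mul]
            rw [mem_powerset, hU', subset_map_iff] at hV
            obtain ⟨V₀, hV₀, rfl⟩ := hV
            rw [hmapV]
            refine (L_fix h hV₀ ?_ σ hσ).trans (by linarith)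
            rw [nonempty_iff_ne_empty]
            rintro rfl
            exact hVe (map_empty _)
      refine h2.trans (le_of_eq ?_)
      rw [prod_mul_distrib, prod_const, hcU', prod_ite_eq' U'.powerset ∅ (fun _ => 3 * Real.log T),
        if_pos (empty_mem_powerset _)]
    have h3 : ∏ V ∈ U'.powerset, ∑' n : ℕ, (∏ i ∈ insert none V, cc i) n * (n : ℝ) ^ (-σ) ≤
        (K * Real.log (M : ℝ)) ^ (2 ^ U.card) := by
      rw [← hcU', ← prod_const]
      refine prod_le_prod (fun V hV => hmain.2 _ ?_) fun V hV => ?_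
      · rw [mem_powerset] at hV ⊢
        exact insert_subset_insert _ hV
      · rw [mem_powerset] at hV
        have hnV : (none : Option ι) ∉ V := fun h => hnn (hV h)
        rw [hU', subset_map_iff] at hV
        obtain ⟨V₀, hV₀, rfl⟩ := hV
        rw [prod_insert hnV, hmapV, hcn, hKd]
        exact L_var h W hW hp hV₀ σ hσ
    have h4 : 0 ≤ ∏ V ∈ U'.powerset, ∑' n : ℕ, (∏ i ∈ insert none V, cc i) n * (n : ℝ) ^ (-σ) :=
      prod_nonneg fun V hV => hmain.2 _ (by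
        rw [mem_powerset] at hV ⊢
        exact insert_subset_insert _ hV)
    exact mul_le_mul h1 h3 h4 (by positivity)
  have hbig := hmain.1.trans hprod
  rw [hUc] at hbig
  -- the sum
  have hx : ∀ p ∈ P, 0 < (p : ℝ) ^ (-σ) ∧ (p : ℝ) ^ (-σ) < 1 := fun p h =>
    pow_small p (hA p (hP p h).1).1.two_le σ hσ
  have hsum : ∑ S ∈ HD A W T, (1 : ℝ) / ((∏ p ∈ S, p : ℕ) : ℝ) ≤
      3 * ∏ p ∈ P, (1 - (p : ℝ) ^ (-σ))⁻¹ := by
    have s1 : ∑ S ∈ HD A W T, (1 : ℝ) / ((∏ p ∈ S, p : ℕ) : ℝ) ≤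
        ∑ S ∈ P.powerset, 3 * ∏ p ∈ S, (p : ℝ) ^ (-σ) := by
      have hsub : HD A W T ⊆ P.powerset := by
        intro S hS
        unfold HD at hS
        rw [mem_filter, mem_powerset] at hS
        rw [mem_powerset]
        intro p hpS
        rw [hPd, mem_filter]
        exact ⟨hS.1 hpS, hS.2.1 p hpS⟩
      refine le_trans (sum_le_sum fun S hS => ?_) (sum_le_sum_of_subset_of_nonneg hsub
        fun S hS _ => ?_)
      · have hSP := hsub hS
        rw [mem_powerset] at hSP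
        unfold HD at hS
        rw [mem_filter] at hS
        have hle := hS.2.2
        have hpos : 0 < ∏ p ∈ S, p := prod_pos fun p h => (hA p (hP p (hSP h)).1).1.pos
        have e : ∏ p ∈ S, (p : ℝ) ^ (-σ) = ((∏ p ∈ S, p : ℕ) : ℝ) ^ (-σ) := by
          rw [Nat.cast_prod, Real.finsetProd_rpow]
          intro p _
          exact Nat.cast_nonneg p
        rw [e]
        generalize ∏ p ∈ S, p = N at hle hpos ⊢
        have hN : (0 : ℝ) < (N : ℝ) := by exact_mod_cast hpos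
        have hNT : (N : ℝ) ≤ (T : ℝ) := by exact_mod_cast hle
        have h2 : (N : ℝ) ^ (σ - 1) ≤ 3 := by
          have a1 : (N : ℝ) ^ (σ - 1) = Real.exp (Real.log N * (σ - 1)) :=
            Real.rpow_def_of_pos hN _
          have a2 : Real.log N * (σ - 1) ≤ 1 := by
            have a3 : σ - 1 = 1 / Real.log T := by rw [hσd]; ring
            rw [a3, mul_one_div, div_le_one lT]
            exact Real.log_le_log hN hNT
          rw [a1]
          exact (Real.exp_le_exp.2 a2).trans (Real.exp_one_lt_d9.le.trans (by norm_num))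
        have h3 : (N : ℝ) ^ (σ - 1) * (N : ℝ) ^ (-σ) = 1 / N := by
          rw [← Real.rpow_add hN]
          have : σ - 1 + -σ = -1 := by ring
          rw [this, Real.rpow_neg_one, one_div]
        rw [← h3]
        exact mul_le_mul_of_nonneg_right h2 (Real.rpow_nonneg hN.le _)
      · refine mul_nonneg (by norm_num) (prod_nonneg fun p _ => Real.rpow_nonneg (Nat.cast_nonneg _) _)
    refine s1.trans ?_
    rw [← mul_sum, ← prod_one_add]
    refine mul_le_mul_of_nonneg_left (prod_le_prod (fun p h => ?_) fun p h => ?_) (by norm_num)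
    · have := (hx p h).1
      positivity
    · obtain ⟨a1, a2⟩ := hx p h
      rw [← one_div, le_div_iff₀ (by linarith)]
      nlinarith
  generalize ∏ p ∈ P, (1 - (p : ℝ) ^ (-σ))⁻¹ = Q at hbig hsum
  have hH0 : 0 ≤ ∑ S ∈ HD A W T, (1 : ℝ) / ((∏ p ∈ S, p : ℕ) : ℝ) :=
    sum_nonneg fun S _ => by positivity
  generalize ∑ S ∈ HD A W T, (1 : ℝ) / ((∏ p ∈ S, p : ℕ) : ℝ) = H at hsum hH0 ⊢
  generalize Real.log (M : ℝ) = Y at hbig hM1 ⊢
  obtain ⟨n, hn⟩ : ∃ n : ℕ, n = 2 ^ U.card := ⟨_, rfl⟩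
  have hn1 : 1 ≤ n := by rw [hn]; exact Nat.one_le_two_pow
  have hnr : (n : ℝ) = 2 ^ U.card := by rw [hn]; push_cast; rfl
  rw [← hn] at hbig
  have hn2 : 2 ^ (U.card + 1) = 2 * n := by rw [hn]; ring
  rw [hn2] at hbig
  rw [← hnr]
  have hnr0 : (0 : ℝ) < n := by exact_mod_cast hn1
  apply le_of_pow_le_pow_left₀ (n := 2 * n) (by omega) (by positivity)
  have e1 : (9 * K * Y ^ (1 / 2 : ℝ) * Real.log T ^ (1 / (n : ℝ) / 2 : ℝ)) ^ (2 * n) =
      (9 * K) ^ (2 * n) * Y ^ n * Real.log T := by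
    rw [mul_pow, mul_pow, ← Real.rpow_natCast (Y ^ (1 / 2 : ℝ)), ← Real.rpow_mul hM1.le,
      ← Real.rpow_natCast (Real.log T ^ (1 / (n : ℝ) / 2 : ℝ)), ← Real.rpow_mul lT.le]
    have e2 : Y ^ ((1 / 2 : ℝ) * ((2 * n : ℕ) : ℝ)) = Y ^ n := by
      rw [← Real.rpow_natCast Y n]
      congr 1
      push_cast
      ring
    have e3 : Real.log T ^ ((1 / (n : ℝ) / 2 : ℝ) * ((2 * n : ℕ) : ℝ)) = Real.log T := by
      have : (1 / (n : ℝ) / 2 : ℝ) * ((2 * n : ℕ) : ℝ) = 1 := by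
        push_cast
        field_simp
      rw [this, Real.rpow_one]
    rw [e2, e3]
  rw [e1]
  have hK0 : 0 ≤ K := by linarith
  have e5 : (3 : ℝ) ≤ 3 ^ (2 * n) := by
    calc (3 : ℝ) = 3 ^ 1 := (pow_one _).symm
      _ ≤ 3 ^ (2 * n) := pow_le_pow_right₀ (by norm_num) (by omega)
  have e6 : 0 ≤ K ^ (2 * n) * Y ^ n * Real.log T := by positivity
  calc H ^ (2 * n) ≤ (3 * Q) ^ (2 * n) := pow_le_pow_left₀ hH0 hsum _
    _ = 3 ^ (2 * n) * Q ^ (2 * n) := by rw [mul_pow]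
    _ ≤ 3 ^ (2 * n) * (3 * Real.log T * K ^ n * (K * Y) ^ n) := by
        exact mul_le_mul_of_nonneg_left hbig (by positivity)
    _ = 3 ^ (2 * n) * 3 * (K ^ (2 * n) * Y ^ n * Real.log T) := by
        rw [mul_pow, two_mul, pow_add, pow_add]
        ring
    _ ≤ 3 ^ (2 * n) * 3 ^ (2 * n) * (K ^ (2 * n) * Y ^ n * Real.log T) := by gcongr
    _ = (9 * K) ^ (2 * n) * Y ^ n * Real.log T := by
        have : (3 : ℝ) ^ (2 * n) * 3 ^ (2 * n) = 9 ^ (2 * n) := by
          rw [← mul_pow]; norm_num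
        rw [this, mul_pow]
        ring

end Pool.Agent.V11291.GQ
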