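import Pool.Agent.Y405.CQ.MER
import Pool.Agent.Y302.CQ.CHE
import Pool.Agent.V11291.GQ.HAL

/-!
# Classes of primes given by residues

Adapted in part from `Pool.Agent.Y302.CQ.CHE` (helper302).
-/

set_option autoImplicit false

open scoped Classical

namespace Pool.Agent.V11291.GQ

open Finset

/-- a class of primes given by residues modulo `q` -/
def RC (q : ℕ) (R : Finset ℕ) (p : ℕ) : Prop := p.Prime ∧ p % q ∈ R

/-- Mertens' theorem for a class given by residues -/
theorem mer_rc {q : ℕ} (hq : 1 ≤ q) {R : Finset ℕ} (hR : ∀ a ∈ R, a < q ∧ a.Coprime q) :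
    Mer (RC q R) (R.card / (Nat.totient q : ℝ)) := by
  have h1 : ∀ a : ℕ, ∃ C : ℝ, a ∈ R → ∀ x : ℕ, 3 ≤ x →
      |∑ p ∈ (Icc 1 x).filter (fun p => p.Prime ∧ p % q = a), (1 : ℝ) / p -
        1 / (Nat.totient q : ℝ) * Real.log (Real.log x)| ≤ C := by
    intro a
    by_cases ha : a ∈ R
    · obtain ⟨C, -, hC⟩ := Pool.Agent.Y405.CQ.mertens_ap q hq a (hR a ha).1 (hR a ha).2
      exact ⟨C, fun _ => hC⟩
    · exact ⟨0, fun h => absurd h ha⟩
  choose C hC using h1
  refine ⟨∑ a ∈ R, C a, fun y hy => ?_⟩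
  have h2 : ∀ p ∈ (range (y + 1)).filter (fun p => RC q R p), p % q ∈ R := fun p hp =>
    (mem_filter.1 hp).2.2
  rw [← sum_fiberwise_of_maps_to h2]
  have h3 : R.card / (Nat.totient q : ℝ) * Real.log (Real.log y) =
      ∑ a ∈ R, 1 / (Nat.totient q : ℝ) * Real.log (Real.log y) := by
    rw [sum_const, nsmul_eq_mul]
    ring
  rw [h3, ← sum_sub_distrib]
  refine (abs_sum_le_sum_abs _ _).trans (sum_le_sum fun a ha => ?_)
  have h4 : ((range (y + 1)).filter (fun p => RC q R p)).filter (fun p => p % q = a) =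
      (Icc 1 y).filter (fun p => p.Prime ∧ p % q = a) := by
    ext p
    rw [mem_filter, mem_filter, mem_filter, mem_range, mem_Icc]
    unfold RC
    constructor
    · rintro ⟨⟨g1, g2, g3⟩, g4⟩
      exact ⟨⟨g2.one_le, by omega⟩, g2, g4⟩
    · rintro ⟨⟨g0, g1⟩, g2, g3⟩
      exact ⟨⟨by omega, g2, by rw [g3]; exact ha⟩, g3⟩
  rw [h4]
  exact hC a ha y hy

/-- many primes in a residue class -/
theorem che_ap (q : ℕ) (hq : 1 ≤ q) (a : ℕ) (ha : a.Coprime q) :
    ∃ (c : ℝ) (Y₀ : ℕ), 0 < c ∧ ∀ Y : ℕ, Y₀ ≤ Y →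
    c * Y / Real.log Y ≤
      (((range (Y + 1)).filter fun p => p.Prime ∧ p % q = a % q).card : ℝ) := by
  obtain ⟨x₀, hx₀⟩ := Pool.Agent.TH423.SH.pai q hq (1 / 2) (1 / 4) (by norm_num)
    (by norm_num)
  have hφ : (0 : ℝ) < Nat.totient q := by exact_mod_cast Nat.totient_pos.2 hq
  refine ⟨1 / (8 * Nat.totient q), max 4 ⌈x₀⌉₊, by positivity, ?_⟩
  intro Y hY
  have hY4 : 4 ≤ Y := le_trans (le_max_left _ _) hY
  have hYx : x₀ ≤ (Y : ℝ) := (Nat.le_ceil x₀).trans (by exact_mod_cast (le_max_right _ _).trans hY)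
  have hY4' : (4 : ℝ) ≤ Y := by exact_mod_cast hY4
  have hdiv1 : ((Y / 2 : ℕ) : ℝ) ≤ (Y : ℝ) / 2 := Nat.cast_div_le
  have hdiv2 : (Y : ℝ) / 2 ≤ ((Y / 2 + 1 : ℕ) : ℝ) := by
    have : Y < 2 * (Y / 2 + 1) := by omega
    have : (Y : ℝ) < 2 * ((Y / 2 + 1 : ℕ) : ℝ) := by exact_mod_cast this
    linarith
  have hlog : 0 < Real.log Y := Real.log_pos (by linarith)
  have h := hx₀ Y hYx (Y / 2 + 1) Y a hdiv2 (by linarith)
    (by push_cast; linarith) ha
  have h1 := (abs_le.mp h).1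
  have hsub : (Ioc (Y / 2 + 1) Y).filter (fun p => p.Prime ∧ p % q = a % q) ⊆
      (range (Y + 1)).filter fun p => p.Prime ∧ p % q = a % q := by
    intro p hp
    rw [mem_filter, mem_Ioc] at hp
    rw [mem_filter, mem_range]
    exact ⟨by omega, hp.2⟩
  have hcard : (((Ioc (Y / 2 + 1) Y).filter (fun p => p.Prime ∧ p % q = a % q)).card : ℝ) ≤
      (((range (Y + 1)).filter fun p => p.Prime ∧ p % q = a % q).card : ℝ) := by
    exact_mod_cast Finset.card_le_card hsub
  refine le_trans ?_ hcard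
  have h2 : (1 / 2 : ℝ) * (((Y : ℝ) - ((Y / 2 + 1 : ℕ) : ℝ)) / ((Nat.totient q : ℕ) * Real.log Y)) ≤
      (((Ioc (Y / 2 + 1) Y).filter (fun p => p.Prime ∧ p % q = a % q)).card : ℝ) := by
    linarith
  refine le_trans ?_ h2
  have h3 : (Y : ℝ) / 4 ≤ (Y : ℝ) - ((Y / 2 + 1 : ℕ) : ℝ) := by push_cast; linarith
  have h4 : (Y : ℝ) / 4 / ((Nat.totient q : ℕ) * Real.log Y) ≤
      ((Y : ℝ) - ((Y / 2 + 1 : ℕ) : ℝ)) / ((Nat.totient q : ℕ) * Real.log Y) := by
    apply div_le_div_of_nonneg_right h3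
    positivity
  calc (1 / (8 * Nat.totient q) : ℝ) * Y / Real.log Y =
        1 / 2 * ((Y : ℝ) / 4 / ((Nat.totient q : ℕ) * Real.log Y)) := by
        field_simp; ring
    _ ≤ _ := by linarith

theorem che_rc {q : ℕ} (hq : 1 ≤ q) {R : Finset ℕ} {a : ℕ} (haR : a ∈ R)
    (hR : ∀ a ∈ R, a < q ∧ a.Coprime q) :
    ∃ (c : ℝ) (Y₀ : ℕ), 0 < c ∧ ∀ Y : ℕ, Y₀ ≤ Y →
    c * Y / Real.log Y ≤ (((range (Y + 1)).filter fun p => RC q R p).card : ℝ) := by
  obtain ⟨c, Y₀, hc, h⟩ := che_ap q hq a (hR a haR).2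
  refine ⟨c, Y₀, hc, fun Y hY => (h Y hY).trans ?_⟩
  have : ((range (Y + 1)).filter fun p => p.Prime ∧ p % q = a % q).card ≤
      ((range (Y + 1)).filter fun p => RC q R p).card := by
    refine card_le_card fun p hp => ?_
    rw [mem_filter] at hp ⊢
    refine ⟨hp.1, hp.2.1, ?_⟩
    rw [hp.2.2, Nat.mod_eq_of_lt (hR a haR).1]
    exact haR
  exact_mod_cast this

/-- the sum of a product of the characters over the residues prime to `q` -/
theorem sum_cop {ι : Type} {c : ι → (ℕ →* ℝ)} {U : Finset ι} {q : ℕ} (h : Chs c U q)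
    {V : Finset ι} (hV : V ⊆ U) (hV0 : V.Nonempty) :
    ∑ a ∈ (range q).filter (fun a => a.Coprime q), (∏ i ∈ V, c i) a = 0 := by
  obtain ⟨k, hk1, hk2⟩ := h.ind V hV hV0
  obtain ⟨e, he⟩ : ∃ e : ℕ →* ℝ, ∀ n, e n = if n.Coprime q then (∏ i ∈ V, c i) n else 0 := by
    refine ⟨{ toFun := fun n => if n.Coprime q then (∏ i ∈ V, c i) n else 0,
              map_one' := ?_, map_mul' := ?_ }, fun n => rfl⟩
    · rw [if_pos (Nat.coprime_one_left q), map_one]
    · intro m n
      by_cases h1 : m.Coprime q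
      · by_cases h2 : n.Coprime q
        · rw [if_pos h1, if_pos h2, if_pos (Nat.Coprime.mul_left h1 h2), map_mul]
        · rw [if_neg h2, mul_zero, if_neg]
          exact fun h' => h2 (Nat.Coprime.coprime_mul_left h')
      · rw [if_neg h1, zero_mul, if_neg]
        exact fun h' => h1 (Nat.Coprime.coprime_mul_right h')
  have hper : ∀ n, e (q + n) = e n := by
    intro n
    rw [he, he]
    have h1 : (q + n).Coprime q ↔ n.Coprime q := by
      rw [Nat.coprime_self_add_left]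
    have h2 : (∏ i ∈ V, c i) (q + n) = (∏ i ∈ V, c i) n := prod_per h hV (by
      show (q + n) % q = n % q
      rw [Nat.add_mod_left])
    by_cases h3 : n.Coprime q
    · rw [if_pos h3, if_pos (h1.2 h3), h2]
    · rw [if_neg h3, if_neg fun h' => h3 (h1.1 h')]
  have hz := Pool.Agent.Y475.CQ.sum_zero e q h.q0 hper k hk1 (by rw [he, if_pos hk1, hk2])
  rw [sum_filter]
  refine Eq.trans ?_ hz
  exact sum_congr rfl fun a _ => (he a).symm

/-- the number of residues with given values of the characters -/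
theorem card_res {ι : Type} {c : ι → (ℕ →* ℝ)} {U : Finset ι} {q : ℕ} (h : Chs c U q)
    (ε : ι → ℝ) (hε : ∀ i, ε i = 1 ∨ ε i = -1) :
    ((((range q).filter fun a => a.Coprime q ∧ ∀ i ∈ U, c i a = ε i).card : ℕ) : ℝ) *
      2 ^ U.card = Nat.totient q := by
  have h1 : ∑ a ∈ (range q).filter (fun a => a.Coprime q), ∏ i ∈ U, (1 + ε i * c i a) =
      Nat.totient q := by
    have h2 : ∀ a ∈ (range q).filter (fun a => a.Coprime q), ∏ i ∈ U, (1 + ε i * c i a) =
        ∑ V ∈ U.powerset, (∏ i ∈ V, ε i) * (∏ i ∈ V, c i) a := by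
      intro a _
      rw [prod_one_add]
      refine sum_congr rfl fun V _ => ?_
      rw [prod_mul_distrib, MonoidHom.finsetProd_apply]
    rw [sum_congr rfl h2, sum_comm]
    rw [sum_eq_single ∅]
    · rw [prod_empty]
      simp only [prod_empty, MonoidHom.one_apply, sum_const, nsmul_eq_mul, mul_one]
      congr 1
      rw [Nat.totient_eq_card_coprime]
      congr 1
      exact filter_congr fun a _ => Nat.coprime_comm
    · intro V hV hV0
      rw [← mul_sum, sum_cop h (mem_powerset.1 hV) (nonempty_iff_ne_empty.2 hV0), mul_zero]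
    · intro h'
      exact absurd (empty_mem_powerset U) h'
  have h3 : ∀ a ∈ (range q).filter (fun a => a.Coprime q), ∏ i ∈ U, (1 + ε i * c i a) =
      if ∀ i ∈ U, c i a = ε i then 2 ^ U.card else 0 := by
    intro a ha
    split_ifs with h4
    · rw [← prod_const]
      refine prod_congr rfl fun i hi => ?_
      rw [h4 i hi]
      rcases hε i with h5 | h5 <;> rw [h5] <;> norm_num
    · push Not at h4
      obtain ⟨i, hi, h5⟩ := h4
      refine prod_eq_zero hi ?_
      have h6 := h.cop i hi a (mem_filter.1 ha).2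
      rcases h.val i hi a with h7 | h7 | h7
      · exact absurd h7 h6
      · rcases hε i with h8 | h8
        · exact absurd (h7.trans h8.symm) h5
        · rw [h7, h8]; norm_num
      · rcases hε i with h8 | h8
        · rw [h7, h8]; norm_num
        · exact absurd (h7.trans h8.symm) h5
  rw [sum_congr rfl h3, ← sum_filter, sum_const, nsmul_eq_mul, filter_filter] at h1
  exact h1

end Pool.Agent.V11291.GQ
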